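import Pool.Graph.R_seed8.Helper654.PtakN

set_option autoImplicit false
open Complex Metric Set Polynomial
open scoped ComplexConjugate

namespace Pool.Agent.KS6_83.PT

open Pool.Agent.Helper654.Ptak

/-- the monic polynomial with roots `z` -/
noncomputable def PZ {n : ℕ} (z : Fin n → ℂ) : ℂ[X] := ∏ j, (X - C (z j))

lemma PZ_eval {n : ℕ} (z : Fin n → ℂ) (ζ : ℂ) : (PZ z).eval ζ = pz z ζ := by
  unfold PZ pz
  rw [eval_prod]
  simp

lemma PZ_monic {n : ℕ} (z : Fin n → ℂ) : (PZ z).Monic :=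
  monic_prod_of_monic _ _ (fun j _ => monic_X_sub_C (z j))

lemma PZ_natDegree {n : ℕ} (z : Fin n → ℂ) : (PZ z).natDegree = n := by
  unfold PZ
  rw [natDegree_prod_of_monic _ _ (fun j _ => monic_X_sub_C (z j))]
  simp

lemma PZ_degree {n : ℕ} (z : Fin n → ℂ) : (PZ z).degree = n := by
  rw [degree_eq_natDegree (PZ_monic z).ne_zero, PZ_natDegree]

lemma PZ_root {n : ℕ} (z : Fin n → ℂ) (j : Fin n) : (PZ z).eval (z j) = 0 := by
  rw [PZ_eval]
  unfold pz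
  exact Finset.prod_eq_zero (Finset.mem_univ j) (sub_self _)

lemma PZ_root_iff {n : ℕ} (z : Fin n → ℂ) (μ : ℂ) (h : (PZ z).eval μ = 0) : ∃ j, μ = z j := by
  rw [PZ_eval] at h
  unfold pz at h
  obtain ⟨j, _, hj⟩ := Finset.prod_eq_zero_iff.mp h
  exact ⟨j, by linear_combination hj⟩

/-- the conjugate reversed polynomial of `∏ (ζ - z j)` -/
noncomputable def pzs {n : ℕ} (z : Fin n → ℂ) (ζ : ℂ) : ℂ := ∏ j, (1 - conj (z j) * ζ)

lemma pzs_ne {n : ℕ} (z : Fin n → ℂ) (hz : ∀ j, ‖z j‖ < 1) {ζ : ℂ} (hζ : ‖ζ‖ ≤ 1) : pzs z ζ ≠ 0 := by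
  unfold pzs
  rw [Finset.prod_ne_zero_iff]
  intro j _
  exact circle_ne (hz j) hζ

lemma conj_pz {n : ℕ} (z : Fin n → ℂ) {ζ : ℂ} (hζ : ‖ζ‖ = 1) :
    conj (pz z ζ) = pzs z ζ * (ζ ^ n)⁻¹ := by
  have hζ0 : ζ ≠ 0 := by rintro rfl; simp at hζ
  have hinv : conj ζ = ζ⁻¹ := eq_inv_of_mul_eq_one_left (circle_inv hζ)
  unfold pz pzs
  rw [map_prod]
  have : (ζ ^ n)⁻¹ = ∏ _j : Fin n, ζ⁻¹ := by
    rw [Finset.prod_const, Finset.card_univ, Fintype.card_fin, inv_pow]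
  rw [this, ← Finset.prod_mul_distrib]
  apply Finset.prod_congr rfl
  intro j _
  rw [map_sub, hinv]
  field_simp

lemma pz_ne' {n : ℕ} (z : Fin n → ℂ) (hz : ∀ j, ‖z j‖ < 1) {ζ : ℂ} (hζ : ‖ζ‖ = 1) : pz z ζ ≠ 0 := by
  unfold pz
  rw [Finset.prod_ne_zero_iff]
  intro j _ h
  have : ζ = z j := by linear_combination h
  have h2 := hz j
  rw [← this, hζ] at h2
  linarith

lemma conj_eval {n : ℕ} (Q : ℂ[X]) (hQ : Q.degree < n) {ζ : ℂ} (hζ : ‖ζ‖ = 1) :
    conj (Q.eval ζ) = (∑ j ∈ Finset.range n, conj (Q.coeff j) * ζ ^ (n - j)) * (ζ ^ n)⁻¹ := by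
  have hζ0 : ζ ≠ 0 := by rintro rfl; simp at hζ
  have hinv : conj ζ = ζ⁻¹ := eq_inv_of_mul_eq_one_left (circle_inv hζ)
  have hnat : Q.natDegree < n ∨ Q = 0 := by
    by_cases hQ0 : Q = 0
    · right; exact hQ0
    · left; exact (Polynomial.natDegree_lt_iff_degree_lt hQ0).mpr hQ
  have e1 : Q.eval ζ = ∑ j ∈ Finset.range n, Q.coeff j * ζ ^ j := by
    rcases hnat with h | h
    · exact Polynomial.eval_eq_sum_range' h ζ
    · subst h; simp
  rw [e1, map_sum, Finset.sum_mul]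
  apply Finset.sum_congr rfl
  intro j hj
  have hj' : j < n := Finset.mem_range.mp hj
  rw [map_mul, map_pow, hinv]
  have : ζ ^ (n - j) = ζ ^ n * (ζ ^ j)⁻¹ := by
    rw [pow_sub₀ _ hζ0 hj'.le]
  rw [this, inv_pow]
  field_simp

/-- orthogonality -/
lemma orth' {n : ℕ} (z : Fin n → ℂ) (hz : ∀ j, ‖z j‖ < 1) (c : ℝ) {w : ℂ → ℝ}
    (hw : ∀ ζ : ℂ, ‖ζ‖ = 1 → w ζ = c / ‖pz z ζ‖ ^ 2) (Q h : ℂ[X]) (hQ : Q.degree < n) :
    ipw w Q (PZ z * h) = 0 := by
  unfold ipw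
  have hform : ∀ ζ : ℂ, ‖ζ‖ = 1 →
      conj (Q.eval ζ) * (PZ z * h).eval ζ * (w ζ : ℂ) =
      (c : ℂ) * (∑ j ∈ Finset.range n, conj (Q.coeff j) * ζ ^ (n - j)) * h.eval ζ * (pzs z ζ)⁻¹ := by
    intro ζ hζ
    have hζ0 : ζ ≠ 0 := by rintro rfl; simp at hζ
    have hne : pz z ζ ≠ 0 := pz_ne' z hz hζ
    have hne2 : pzs z ζ ≠ 0 := pzs_ne z hz hζ.le
    have hnorm : (((‖pz z ζ‖ ^ 2 : ℝ)) : ℂ) = pz z ζ * (pzs z ζ * (ζ ^ n)⁻¹) := by
      rw [← conj_pz z hζ]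
      push_cast
      rw [← Complex.mul_conj']
    rw [hw ζ hζ, conj_eval Q hQ hζ, eval_mul, PZ_eval]
    rw [Complex.ofReal_div, hnorm]
    have h3 : ζ ^ n ≠ 0 := pow_ne_zero _ hζ0
    field_simp
  rw [av_congr hform]
  unfold av
  have hd : DiffContOnCl ℂ (fun ζ : ℂ => (c : ℂ) * (∑ j ∈ Finset.range n, conj (Q.coeff j) * ζ ^ (n - j)) *
      h.eval ζ * (pzs z ζ)⁻¹) (ball 0 |1|) := by
    have hdo : DifferentiableOn ℂ (fun ζ : ℂ => (c : ℂ) * (∑ j ∈ Finset.range n, conj (Q.coeff j) * ζ ^ (n - j)) *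
      h.eval ζ * (pzs z ζ)⁻¹) (closedBall 0 |1|) := by
      apply DifferentiableOn.mul
      · apply Differentiable.differentiableOn
        have := h.differentiable
        fun_prop
      · apply DifferentiableOn.inv
        · unfold pzs
          fun_prop
        · intro ζ hζ
          apply pzs_ne z hz
          simpa using hζ
    refine ⟨hdo.mono ball_subset_closedBall, ?_⟩
    rw [closure_ball (0 : ℂ) (by norm_num)]
    exact hdo.continuousOn
  rw [hd.circleAverage]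
  have hz : ∑ j ∈ Finset.range n, conj (Q.coeff j) * (0 : ℂ) ^ (n - j) = 0 := by
    apply Finset.sum_eq_zero
    intro j hj
    have hj' : j < n := Finset.mem_range.mp hj
    rw [zero_pow (by omega), mul_zero]
  rw [hz]
  ring

/-- the model operator for `∏ (X - z j)` -/
theorem exists_op' {n : ℕ} (z : Fin n → ℂ) (hz : ∀ j, ‖z j‖ < 1) (c : ℝ) {w : ℂ → ℝ} (hw : Continuous w)
    (hpos : ∀ ζ, 0 < w ζ) (hwf : ∀ ζ : ℂ, ‖ζ‖ = 1 → w ζ = c / ‖pz z ζ‖ ^ 2) :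
    ∃ T : EuclideanSpace ℂ (Fin n) →L[ℂ] EuclideanSpace ℂ (Fin n), ‖T‖ ≤ 1 ∧ aeval T (PZ z) = 0 ∧
      ∃ Ψ : ℂ[X] →ₗ[ℂ] EuclideanSpace ℂ (Fin n),
        (∀ F P : ℂ[X], aeval T F (Ψ P) = Ψ (F * P)) ∧
        (∀ P Q : ℂ[X], Q.degree < n → inner ℂ (Ψ Q) (Ψ P) = ipw w Q P) ∧
        (∀ x, ∃ u : Fin n → ℂ, Ψ (toP u) = x) ∧
        (∀ j, ∃ ev : EuclideanSpace ℂ (Fin n) →ₗ[ℂ] ℂ, ∀ P, ev (Ψ P) = P.eval (z j)) := by
  obtain ⟨p, hp⟩ : ∃ p, p = PZ z := ⟨_, rfl⟩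
  have hpm : p.Monic := by rw [hp]; exact PZ_monic z
  have hpd : p.natDegree = n := by rw [hp]; exact PZ_natDegree z
  have hpdeg : p.degree = n := by rw [hp]; exact PZ_degree z
  have : Module.Finite ℂ (AdjoinRoot p) := hpm.finite_adjoinRoot
  have hfr : Module.finrank ℂ (AdjoinRoot p) = n := by
    rw [(AdjoinRoot.powerBasis' hpm).finrank, AdjoinRoot.powerBasis'_dim, hpd]
  obtain ⟨Φ, hΦ⟩ := exists_iso hfr (core w hw hpos p hpm)
  have hΦ' : ∀ u v, inner ℂ (Φ u) (Φ v) = ipw w (AdjoinRoot.modByMonicHom hpm u) (AdjoinRoot.modByMonicHom hpm v) := hΦ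
  set T₀ : EuclideanSpace ℂ (Fin n) →ₗ[ℂ] EuclideanSpace ℂ (Fin n) :=
    Φ.toLinearMap ∘ₗ (LinearMap.mulLeft ℂ (AdjoinRoot.root p)) ∘ₗ Φ.symm.toLinearMap with hT₀
  set T : EuclideanSpace ℂ (Fin n) →L[ℂ] EuclideanSpace ℂ (Fin n) := LinearMap.toContinuousLinearMap T₀ with hTdef
  have hT : ∀ s : AdjoinRoot p, T (Φ s) = Φ (AdjoinRoot.root p * s) := by
    intro s
    simp [hTdef, hT₀]
  have hF : ∀ (F : ℂ[X]) (s : AdjoinRoot p), (aeval T F) (Φ s) = Φ (AdjoinRoot.mk p F * s) := by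
    intro F
    induction F using Polynomial.induction_on with
    | C c =>
      intro s
      rw [aeval_C, Algebra.algebraMap_eq_smul_one]
      simp only [smul_apply, one_apply_eq_self]
      rw [← map_smul]
      congr 1
      rw [AdjoinRoot.mk_C, Algebra.smul_def, AdjoinRoot.algebraMap_eq]
    | add P Q hP hQ =>
      intro s
      rw [map_add, add_apply, hP, hQ, map_add (AdjoinRoot.mk p), add_mul, map_add Φ]
    | monomial k c ih =>
      intro s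
      rw [pow_succ, ← mul_assoc, map_mul, mul_apply_eq_comp, aeval_X, hT, ih,
        map_mul (AdjoinRoot.mk p) (C c * X ^ k) X, AdjoinRoot.mk_X, mul_assoc]
  have hdeg : ∀ s : AdjoinRoot p, (AdjoinRoot.modByMonicHom hpm s).degree < n := by
    intro s
    obtain ⟨q, rfl⟩ := AdjoinRoot.mk_surjective s
    rw [AdjoinRoot.modByMonicHom_mk]
    have := degree_modByMonic_lt q hpm
    rwa [hpdeg] at this
  have horth : ∀ Q h : ℂ[X], Q.degree < n → ipw w Q (p * h) = 0 := by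
    intro Q h hQ
    rw [hp]
    exact orth' z hz c hwf Q h hQ
  have hself : ∀ s : AdjoinRoot p, ((‖Φ s‖ ^ 2 : ℝ) : ℂ) = ipw w (AdjoinRoot.modByMonicHom hpm s) (AdjoinRoot.modByMonicHom hpm s) := by
    intro s
    rw [← hΦ', inner_self_eq_norm_sq_to_K]
    push_cast
    rfl
  have hmod : ∀ q : ℂ[X], AdjoinRoot.modByMonicHom hpm (AdjoinRoot.mk p q) = q %ₘ p := AdjoinRoot.modByMonicHom_mk hpm
  refine ⟨T, ?_, ?_, Φ.toLinearMap ∘ₗ (AdjoinRoot.mkₐ p).toLinearMap, ?_, ?_, ?_, ?_⟩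
  · apply ContinuousLinearMap.opNorm_le_bound _ zero_le_one
    intro z
    obtain ⟨s, rfl⟩ := Φ.surjective z
    rw [one_mul, hT]
    obtain ⟨P, hP⟩ : ∃ P, P = AdjoinRoot.modByMonicHom hpm s := ⟨_, rfl⟩
    have hs : s = AdjoinRoot.mk p P := by rw [hP]; exact (AdjoinRoot.mk_leftInverse hpm s).symm
    have hPd : P.degree < n := by rw [hP]; exact hdeg s
    have h1 := hself s
    rw [← hP] at h1
    have h2 := hself (AdjoinRoot.root p * s)
    have h3 : AdjoinRoot.modByMonicHom hpm (AdjoinRoot.root p * s) = (X * P) %ₘ p := by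
      rw [hs, ← AdjoinRoot.mk_X, ← map_mul, hmod]
    rw [h3] at h2
    obtain ⟨R, hR⟩ : ∃ R, R = (X * P) %ₘ p := ⟨_, rfl⟩
    obtain ⟨h, hh⟩ : ∃ h, h = (X * P) /ₘ p := ⟨_, rfl⟩
    have hRd : R.degree < n := by
      have := degree_modByMonic_lt (X * P) hpm
      rwa [hpdeg, ← hR] at this
    rw [← hR] at h2
    have h4 : X * P = R + p * h := by
      rw [hR, hh]; exact (modByMonic_add_div (X * P) p).symm
    have h5 : ipw w P P = ipw w R R + ipw w (p * h) (p * h) := by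
      rw [← ipw_X, h4, ipw_add_left hw, ipw_add_right hw, ipw_add_right hw]
      have o1 : ipw w R (p * h) = 0 := horth R h hRd
      have o2 : ipw w (p * h) R = 0 := by rw [← ipw_symm hw, o1, map_zero]
      rw [o1, o2]; ring
    have h6 : 0 ≤ (ipw w (p * h) (p * h)).re := by
      rw [ipw_self hw, Complex.ofReal_re]
      exact av_nonneg (fun ζ => mul_nonneg (by positivity) (hpos ζ).le)
    have h7 : ‖Φ (AdjoinRoot.root p * s)‖ ^ 2 ≤ ‖Φ s‖ ^ 2 := by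
      have e1 := congrArg Complex.re h1
      have e2 := congrArg Complex.re h2
      have e3 := congrArg Complex.re h5
      rw [Complex.ofReal_re] at e1 e2
      rw [Complex.add_re] at e3
      linarith
    exact (pow_le_pow_iff_left₀ (norm_nonneg _) (norm_nonneg _) (by norm_num)).mp h7
  · ext1 z
    obtain ⟨s, rfl⟩ := Φ.surjective z
    rw [← hp, hF, AdjoinRoot.mk_self]
    simp
  · intro F P
    show (aeval T F) (Φ (AdjoinRoot.mk p P)) = Φ (AdjoinRoot.mk p (F * P))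
    rw [hF, map_mul (AdjoinRoot.mk p)]
  · intro P Q hQ
    show inner ℂ (Φ (AdjoinRoot.mk p Q)) (Φ (AdjoinRoot.mk p P)) = _
    rw [hΦ', hmod, hmod]
    have hQ' : Q %ₘ p = Q := by
      rw [modByMonic_eq_self_iff hpm]
      rwa [hpdeg]
    rw [hQ']
    have h4 : P = P %ₘ p + p * (P /ₘ p) := (modByMonic_add_div P p).symm
    conv_rhs => rw [h4]
    rw [ipw_add_right hw, horth Q _ hQ, add_zero]
  · intro x
    obtain ⟨s, rfl⟩ := Φ.surjective x
    have hs : s = AdjoinRoot.mk p (AdjoinRoot.modByMonicHom hpm s) := (AdjoinRoot.mk_leftInverse hpm s).symm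
    obtain ⟨P, hP⟩ : ∃ P, P = AdjoinRoot.modByMonicHom hpm s := ⟨_, rfl⟩
    have hPd : P.degree < n := by rw [hP]; exact hdeg s
    refine ⟨fun j => P.coeff j, ?_⟩
    have h1 : toP (fun j : Fin n => P.coeff j) = P := by
      unfold toP
      ext k
      rw [finsetSum_coeff]
      simp only [coeff_C_mul, coeff_X_pow]
      by_cases hk : k < n
      · rw [Finset.sum_eq_single ⟨k, hk⟩]
        · simp
        · intro j _ hj
          rw [if_neg (fun h => hj (Fin.ext h.symm)), mul_zero]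
        · intro h; exact absurd (Finset.mem_univ _) h
      · rw [Finset.sum_eq_zero]
        · symm
          apply coeff_eq_zero_of_degree_lt
          exact hPd.trans_le (by exact_mod_cast (not_lt.mp hk))
        · intro j _
          have := j.2
          rw [if_neg (by omega), mul_zero]
    rw [h1]
    show Φ (AdjoinRoot.mk p P) = Φ s
    rw [hP, ← hs]
  · intro j
    have hroot : p.eval₂ ((Algebra.ofId ℂ ℂ : ℂ →ₐ[ℂ] ℂ) : ℂ →+* ℂ) (z j) = 0 := by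
      have h := PZ_root z j
      rw [← hp] at h
      simpa [Polynomial.eval₂_eq_eval_map] using h
    refine ⟨(AdjoinRoot.liftAlgHom p (Algebra.ofId ℂ ℂ) (z j) hroot).toLinearMap ∘ₗ Φ.symm.toLinearMap, ?_⟩
    intro P
    have h1 : (AdjoinRoot.liftAlgHom p (Algebra.ofId ℂ ℂ) (z j) hroot) (Φ.symm (Φ (AdjoinRoot.mk p P))) =
        P.eval (z j) := by
      rw [LinearEquiv.symm_apply_apply, AdjoinRoot.liftAlgHom_mk]
      simp [Polynomial.eval₂_eq_eval_map]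
    exact h1

end Pool.Agent.KS6_83.PT
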