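import Pool.Agent.KS6_83.PT.A

set_option autoImplicit false
open Complex Metric Set Polynomial
open scoped ComplexConjugate

namespace Pool.Agent.KS6_83.PT

open Pool.Agent.Helper654.Ptak

theorem re_inner_le' {m : ℕ} {ι : Type*} [Fintype ι] {r ρ : ℝ} (hr0 : 0 < r) (hr1 : r < 1)
    (hρ : ρ = r / (1 + r ^ 2)) (F : ℂ[X]) (M : ℝ)
    (z : Fin (m + 1) → ℂ) (hz : ∀ j, ‖z j‖ ≤ r)
    (hM : ∀ u v : Fin (m + 1) → ℂ,
      Hf ρ (jq (fun ζ => F.eval ζ) u v) (Bz z) ≤ M * Hf ρ (gq u v) (Bz z)) (T : EuclideanSpace ℂ ι →L[ℂ] EuclideanSpace ℂ ι)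
    (hT : ‖T‖ ≤ 1) (hp : aeval T (PZ z) = 0) (x y : EuclideanSpace ℂ ι) :
    (inner ℂ y ((aeval T F) x)).re ≤ M * ((‖x‖ ^ 2 + ‖y‖ ^ 2) / 2) := by
  have hρ2 : ρ < 1 / 2 := by
    rw [hρ, div_lt_div_iff₀ (by positivity) (by norm_num)]
    nlinarith [sq_nonneg (1 - r), mul_pos (sub_pos.mpr hr1) (sub_pos.mpr hr1)]
  obtain ⟨p, hpdef⟩ : ∃ p, p = PZ z := ⟨_, rfl⟩
  rw [← hpdef] at hp
  have hpm : p.Monic := by rw [hpdef]; exact PZ_monic z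
  have hpd : p.natDegree = m + 1 := by rw [hpdef]; exact PZ_natDegree z
  have hpc : p.coeff (m + 1) = 1 := by
    rw [← hpd]; exact hpm.coeff_natDegree
  have hpe : ∀ ζ, p.eval ζ = pz z ζ := by
    intro ζ
    rw [hpdef, PZ_eval]
  have key : ∀ x : EuclideanSpace ℂ ι, ∃ v : ℕ → EuclideanSpace ℂ ι, v m = x ∧
      ∀ ζ : ℂ, ‖ζ‖ = 1 → ζ • (iP ρ z ζ • Sv m v ζ) - T (iP ρ z ζ • Sv m v ζ) = x := by
    intro x
    obtain ⟨v, hv1, hv2⟩ := exists_R T x m p hpd.le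
    refine ⟨v, by rw [hv1, hpc, one_smul], ?_⟩
    intro ζ hζ
    have h1 := hv2 ζ
    rw [hp, hpe] at h1
    have h2 : ζ • (iP ρ z ζ • Sv m v ζ) - T (iP ρ z ζ • Sv m v ζ) = iP ρ z ζ • (ζ • Sv m v ζ - T (Sv m v ζ)) := by
      rw [map_smul, smul_sub, smul_comm]
    rw [h2]
    unfold Sv
    rw [h1, iP_eq hr0 hr1 hρ z hz hζ, zero_apply, sub_zero, smul_smul, inv_mul_cancel₀ (pz_ne hr1 z hz hζ), one_smul]
  obtain ⟨D, hD⟩ := exists_D T hT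
  obtain ⟨v, hv, hU⟩ := key x
  obtain ⟨u, hu, hV⟩ := key y
  have hB : ∀ k, ‖Bz z k‖ ≤ ρ := fun k => (wt_poincare hr0 hr1 hρ (z k) 1 (hz k) (by simp)).1
  have hi := iP_cont hρ2 z
  have hSv := Sv_cont m v
  have hSu := Sv_cont m u
  have ca : Continuous (fun ζ => iP ρ z ζ • Sv m v ζ) := by fun_prop
  have cb : Continuous (fun ζ => iP ρ z ζ • Sv m u ζ) := by fun_prop
  have e1 : (inner ℂ y ((aeval T F) x)).re = (kap z)⁻¹ * ∑ i, Hf ρ (jq (fun ζ => F.eval ζ)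
      (fun j : Fin (m + 1) => (D (v j)) i) (fun j : Fin (m + 1) => (D (u j)) i)) (Bz z) := by
    rw [← K2poly hr0 hr1 hρ hρ2 z hz T x y v u hv hu hU hV F, ← av_re (Qf_cont_mul F T ca cb),
      ← av_sum_W hρ2 _ _ _ (fun i => jq_cont1 F.continuous _ _)]
    apply av_congr
    intro ζ hζ
    exact Qf_expand hr0 hr1 hρ z hz T D hD v u (fun ζ => F.eval ζ) ζ hζ
  have e2 : ‖x‖ ^ 2 = (kap z)⁻¹ * ∑ i, Hf ρ (jq (fun _ => 1)
      (fun j : Fin (m + 1) => (D (v j)) i) (fun j : Fin (m + 1) => (D (v j)) i)) (Bz z) := by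
    have h0 := K2poly hr0 hr1 hρ hρ2 z hz T x x v v hv hv hU hU 1
    rw [map_one, one_apply_eq_self, inner_self_eq_norm_sq_to_K] at h0
    have h1 : ‖x‖ ^ 2 = (av (fun ζ : ℂ => eval ζ (1 : ℂ[X]) * Qf T (fun ζ => iP ρ z ζ • Sv m v ζ) (fun ζ => iP ρ z ζ • Sv m v ζ) ζ)).re := by
      rw [h0]
      norm_cast
    rw [h1, ← av_re (Qf_cont_mul 1 T ca ca), 
      ← av_sum_W hρ2 _ _ _ (fun i => jq_cont1 continuous_const _ _)]
    apply av_congr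
    intro ζ hζ
    rw [← Qf_expand hr0 hr1 hρ z hz T D hD v v (fun _ => 1) ζ hζ, eval_one]
  have e3 : ‖y‖ ^ 2 = (kap z)⁻¹ * ∑ i, Hf ρ (jq (fun _ => 1)
      (fun j : Fin (m + 1) => (D (u j)) i) (fun j : Fin (m + 1) => (D (u j)) i)) (Bz z) := by
    have h0 := K2poly hr0 hr1 hρ hρ2 z hz T y y u u hu hu hV hV 1
    rw [map_one, one_apply_eq_self, inner_self_eq_norm_sq_to_K] at h0
    have h1 : ‖y‖ ^ 2 = (av (fun ζ : ℂ => eval ζ (1 : ℂ[X]) * Qf T (fun ζ => iP ρ z ζ • Sv m u ζ) (fun ζ => iP ρ z ζ • Sv m u ζ) ζ)).re := by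
      rw [h0]
      norm_cast
    rw [h1, ← av_re (Qf_cont_mul 1 T cb cb), 
      ← av_sum_W hρ2 _ _ _ (fun i => jq_cont1 continuous_const _ _)]
    apply av_congr
    intro ζ hζ
    rw [← Qf_expand hr0 hr1 hρ z hz T D hD u u (fun _ => 1) ζ hζ, eval_one]
  have e4 : ∀ a b : Fin (m + 1) → ℂ, Hf ρ (gq a b) (Bz z) = (Hf ρ (jq (fun _ => 1) a a) (Bz z) + Hf ρ (jq (fun _ => 1) b b) (Bz z)) / 2 := by
    intro a b
    have hj : ∀ (a : Fin (m + 1) → ℂ) (ζ : ℂ), jq (fun _ => 1) a a ζ = ‖pol a ζ‖ ^ 2 := by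
      intro a ζ
      unfold jq
      rw [one_mul, Complex.mul_conj', ← Complex.ofReal_pow, Complex.ofReal_re]
    have c1 : ∀ a : Fin (m + 1) → ℂ, Continuous fun ζ => jq (fun _ => 1) a a ζ * W ρ (Bz z) ζ := fun a =>
      (jq_cont1 continuous_const a a).mul (W_cont1 hρ2 _)
    unfold Hf
    rw [← av_add (c1 a) (c1 b), div_eq_inv_mul, ← av_real_smul]
    apply av_congr
    intro ζ _
    rw [hj, hj]
    unfold gq
    ring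
  rw [e1, e2, e3]
  have e5 : M * (((kap z)⁻¹ * ∑ i, Hf ρ (jq (fun _ => 1)
      (fun j : Fin (m + 1) => (D (v j)) i) (fun j : Fin (m + 1) => (D (v j)) i)) (Bz z) + (kap z)⁻¹ * ∑ i, Hf ρ (jq (fun _ => 1)
      (fun j : Fin (m + 1) => (D (u j)) i) (fun j : Fin (m + 1) => (D (u j)) i)) (Bz z)) / 2) =
      (kap z)⁻¹ * ∑ i, M * Hf ρ (gq (fun j : Fin (m + 1) => (D (v j)) i) (fun j : Fin (m + 1) => (D (u j)) i)) (Bz z) := by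
    rw [← mul_add, ← Finset.sum_add_distrib, ← Finset.mul_sum]
    have : ∑ i, Hf ρ (gq (fun j : Fin (m + 1) => (D (v j)) i) (fun j : Fin (m + 1) => (D (u j)) i)) (Bz z) =
      (∑ i, (Hf ρ (jq (fun _ => 1) (fun j : Fin (m + 1) => (D (v j)) i) (fun j : Fin (m + 1) => (D (v j)) i)) (Bz z) + 
       Hf ρ (jq (fun _ => 1)
      (fun j : Fin (m + 1) => (D (u j)) i) (fun j : Fin (m + 1) => (D (u j)) i)) (Bz z))) / 2 := by
      rw [Finset.sum_div]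
      apply Finset.sum_congr rfl
      intro i _
      rw [e4]
    rw [this]
    ring
  rw [e5]
  apply mul_le_mul_of_nonneg_left _ (inv_nonneg.mpr (kap_pos z).le)
  apply Finset.sum_le_sum
  intro i _
  exact hM _ _

theorem opNorm_le_of' {m : ℕ} {ι : Type*} [Fintype ι] [Nonempty ι] {r ρ : ℝ} (hr0 : 0 < r) (hr1 : r < 1)
    (hρ : ρ = r / (1 + r ^ 2)) (F : ℂ[X]) (M : ℝ)
    (z : Fin (m + 1) → ℂ) (hz : ∀ j, ‖z j‖ ≤ r)
    (hM : ∀ u v : Fin (m + 1) → ℂ,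
      Hf ρ (jq (fun ζ => F.eval ζ) u v) (Bz z) ≤ M * Hf ρ (gq u v) (Bz z)) (T : EuclideanSpace ℂ ι →L[ℂ] EuclideanSpace ℂ ι)
    (hT : ‖T‖ ≤ 1) (hp : aeval T (PZ z) = 0) : ‖aeval T F‖ ≤ M := by
  have key := re_inner_le' hr0 hr1 hρ F M z hz hM T hT hp
  have hM0 : 0 ≤ M := by
    obtain ⟨i⟩ := (inferInstance : Nonempty ι)
    classical
    have h1 := key (EuclideanSpace.single i (1 : ℂ)) 0
    rw [inner_zero_left] at h1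
    simp at h1
    linarith
  apply ContinuousLinearMap.opNorm_le_bound _ hM0
  intro x
  by_cases hx : x = 0
  · subst hx; simp
  have hx0 : 0 < ‖x‖ := norm_pos_iff.mpr hx
  by_cases hF : (aeval T F) x = 0
  · rw [hF, norm_zero]; positivity
  have hF0 : 0 < ‖(aeval T F) x‖ := norm_pos_iff.mpr hF
  have h1 := key x (((‖x‖ / ‖(aeval T F) x‖ : ℝ) : ℂ) • (aeval T F) x)
  have h2 : ‖(((‖x‖ / ‖(aeval T F) x‖ : ℝ) : ℂ) • (aeval T F) x)‖ = ‖x‖ := by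
    rw [norm_smul, norm_real, Real.norm_eq_abs, abs_of_pos (div_pos hx0 hF0)]
    field_simp
  rw [h2, inner_smul_left, Complex.conj_ofReal, re_ofReal_mul, inner_self_eq_norm_sq_to_K] at h1
  have h3 : (((‖(aeval T F) x‖ : ℂ)) ^ 2).re = ‖(aeval T F) x‖ ^ 2 := by
    rw [← Complex.ofReal_pow, Complex.ofReal_re]
  have h4 : ‖x‖ / ‖(aeval T F) x‖ * ‖(aeval T F) x‖ ^ 2 ≤ M * ((‖x‖ ^ 2 + ‖x‖ ^ 2) / 2) := by
    rw [← h3]; exact h1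
  have h5 : ‖x‖ / ‖(aeval T F) x‖ * ‖(aeval T F) x‖ ^ 2 = ‖x‖ * ‖(aeval T F) x‖ := by
    field_simp
  rw [h5] at h4
  have h6 : ‖x‖ * ‖(aeval T F) x‖ ≤ ‖x‖ * (M * ‖x‖) := by nlinarith
  exact le_of_mul_le_mul_left h6 hx0

/-- the Klein radius -/
noncomputable def rho (r : ℝ) : ℝ := r / (1 + r ^ 2)

lemma rho_pos {r : ℝ} (hr0 : 0 < r) : 0 < rho r := by unfold rho; positivity

lemma rho_lt {r : ℝ} (hr0 : 0 < r) (hr1 : r < 1) : rho r < 1 / 2 := by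
  unfold rho
  rw [div_lt_div_iff₀ (by positivity) (by norm_num)]
  nlinarith [sq_nonneg (1 - r), mul_pos (sub_pos.mpr hr1) (sub_pos.mpr hr1)]

/-- the data of the model operator attached to the roots `z` -/
structure Model {m : ℕ} (r : ℝ) (z : Fin (m + 1) → ℂ) where
  T : EuclideanSpace ℂ (Fin (m + 1)) →L[ℂ] EuclideanSpace ℂ (Fin (m + 1))
  Ψ : ℂ[X] →ₗ[ℂ] EuclideanSpace ℂ (Fin (m + 1))
  hT : ‖T‖ ≤ 1
  hp : aeval T (PZ z) = 0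
  hΨ : ∀ F P : ℂ[X], aeval T F (Ψ P) = Ψ (F * P)
  hin : ∀ P Q : ℂ[X], Q.degree < (m + 1 : ℕ) → inner ℂ (Ψ Q) (Ψ P) = ipw (W (rho r) (Bz z)) Q P
  hg : ∀ u v : Fin (m + 1) → ℂ, Hf (rho r) (gq u v) (Bz z) = (‖Ψ (toP u)‖ ^ 2 + ‖Ψ (toP v)‖ ^ 2) / 2
  hj : ∀ (F : ℂ[X]) (u v : Fin (m + 1) → ℂ), Hf (rho r) (jq (fun ζ => F.eval ζ) u v) (Bz z) =
    (inner ℂ (Ψ (toP v)) (aeval T F (Ψ (toP u)))).re
  hs : ∀ x, ∃ u : Fin (m + 1) → ℂ, Ψ (toP u) = x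
  hev : ∀ j, ∃ ev : EuclideanSpace ℂ (Fin (m + 1)) →ₗ[ℂ] ℂ, ∀ P, ev (Ψ P) = P.eval (z j)

theorem exists_model {m : ℕ} {r : ℝ} (hr0 : 0 < r) (hr1 : r < 1) (z : Fin (m + 1) → ℂ)
    (hz : ∀ j, ‖z j‖ ≤ r) : Nonempty (Model r z) := by
  have hρ2 := rho_lt hr0 hr1
  have hwf : ∀ ζ : ℂ, ‖ζ‖ = 1 → W (rho r) (Bz z) ζ = kap z / ‖pz z ζ‖ ^ 2 := by
    intro ζ hζ
    have h1 := W_Bz hr0 hr1 (ρ := rho r) rfl z hz hζ
    have h2 := kap_pos z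
    field_simp at h1 ⊢
    rw [← h1]
  obtain ⟨T, hT, hp, Ψ, h1, h2, h3, h4⟩ := exists_op' z (fun j => (hz j).trans_lt hr1) (kap z)
    (W_cont1 hρ2 (Bz z)) (W_pos hρ2 (Bz z)) hwf
  have hself : ∀ u : Fin (m + 1) → ℂ, ((‖Ψ (toP u)‖ ^ 2 : ℝ) : ℂ) = ipw (W (rho r) (Bz z)) (toP u) (toP u) := by
    intro u
    rw [← h2 _ _ (toP_degree u), inner_self_eq_norm_sq_to_K]
    push_cast
    rfl
  refine ⟨⟨T, Ψ, hT, hp, h1, h2, ?_, ?_, h3, h4⟩⟩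
  · intro u v
    have e := Hf_gq hρ2 u v (Bz z)
    rw [← hself, ← hself] at e
    exact_mod_cast e
  · intro F u v
    rw [Hf_jq hρ2, h1, h2 _ _ (toP_degree v)]

/-- the model operator dominates every contraction annihilated by `∏ (X - z j)` -/
theorem Model.dom {m : ℕ} {r : ℝ} (hr0 : 0 < r) (hr1 : r < 1) {z : Fin (m + 1) → ℂ}
    (hz : ∀ j, ‖z j‖ ≤ r) (D : Model r z) {ι : Type*} [Fintype ι] [Nonempty ι]
    (T : EuclideanSpace ℂ ι →L[ℂ] EuclideanSpace ℂ ι)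
    (hT : ‖T‖ ≤ 1) (hp : aeval T (PZ z) = 0) (F : ℂ[X]) : ‖aeval T F‖ ≤ ‖aeval D.T F‖ := by
  apply opNorm_le_of' hr0 hr1 rfl F _ z hz _ T hT hp
  intro u v
  have hg := D.hg u v
  have hj := D.hj F u v
  unfold rho at hg hj
  rw [hg, hj]
  obtain ⟨x, hx⟩ : ∃ x, x = D.Ψ (toP u) := ⟨_, rfl⟩
  obtain ⟨y, hy⟩ : ∃ y, y = D.Ψ (toP v) := ⟨_, rfl⟩
  rw [← hx, ← hy]
  have e6 : (inner ℂ y ((aeval D.T F) x)).re ≤ ‖y‖ * (‖aeval D.T F‖ * ‖x‖) := by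
    have h1 : (inner ℂ y ((aeval D.T F) x)).re ≤ ‖inner ℂ y ((aeval D.T F) x)‖ := Complex.re_le_norm _
    have h2 := norm_inner_le_norm (𝕜 := ℂ) y ((aeval D.T F) x)
    have h3 := (aeval D.T F).le_opNorm x
    have h4 := mul_le_mul_of_nonneg_left h3 (norm_nonneg y)
    linarith
  refine e6.trans ?_
  have h1 := norm_nonneg (aeval D.T F)
  nlinarith [mul_nonneg h1 (sq_nonneg (‖x‖ - ‖y‖))]

end Pool.Agent.KS6_83.PT
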