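import Pool.Agent.KS6_83.PT.B

set_option autoImplicit false
open Complex Metric Set Polynomial Filter Topology
open scoped ComplexConjugate

namespace Pool.Agent.KS6_83.PT

open Pool.Agent.Helper654.Ptak hiding lp


/-- `q` interpolates `f` modulo `p` on the disc -/
def Interp (f : ℂ → ℂ) (p q : ℂ[X]) : Prop :=
  ∃ g : ℂ → ℂ, DifferentiableOn ℂ g (ball 0 1) ∧ ∀ ζ ∈ ball (0 : ℂ) 1, f ζ = q.eval ζ + p.eval ζ * g ζ

lemma Interp.of_dvd {f : ℂ → ℂ} {p q p' : ℂ[X]} (h : Interp f p q) (hd : p' ∣ p) : Interp f p' q := by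
  obtain ⟨g, hg, h⟩ := h
  obtain ⟨d, rfl⟩ := hd
  refine ⟨fun ζ => d.eval ζ * g ζ, d.differentiable.differentiableOn.mul hg, fun ζ hζ => ?_⟩
  rw [h ζ hζ, eval_mul]; ring

lemma lp_append (l l' : List ℂ) : Pool.Agent.Helper654.Ptak.lp (l ++ l') = Pool.Agent.Helper654.Ptak.lp l * Pool.Agent.Helper654.Ptak.lp l' := by
  simp [Pool.Agent.Helper654.Ptak.lp]

lemma PZ_eq_lp {n : ℕ} (z : Fin n → ℂ) : PZ z = Pool.Agent.Helper654.Ptak.lp (List.ofFn z) := by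
  unfold PZ Pool.Agent.Helper654.Ptak.lp
  rw [List.map_ofFn, List.prod_ofFn]
  rfl

lemma exists_interp {n : ℕ} {f : ℂ → ℂ} (hf : DifferentiableOn ℂ f (ball 0 1)) (z : Fin n → ℂ)
    (hz : ∀ j, ‖z j‖ < 1) : ∃ q, Interp f (PZ z) q := by
  obtain ⟨q, g, hg, h⟩ := interp (List.ofFn z) (by
    intro w hw
    obtain ⟨j, rfl⟩ := (List.mem_ofFn' z w).mp hw
    exact hz j) f hf
  exact ⟨q, g, hg, by rw [PZ_eq_lp]; exact h⟩

lemma exists_interp3 {n : ℕ} {f : ℂ → ℂ} (hf : DifferentiableOn ℂ f (ball 0 1)) (z z' z'' : Fin n → ℂ)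
    (hz : ∀ j, ‖z j‖ < 1) (hz' : ∀ j, ‖z' j‖ < 1) (hz'' : ∀ j, ‖z'' j‖ < 1) :
    ∃ q, Interp f (PZ z) q ∧ Interp f (PZ z') q ∧ Interp f (PZ z'') q := by
  obtain ⟨q, g, hg, h⟩ := interp (List.ofFn z ++ (List.ofFn z' ++ List.ofFn z'')) (by
    intro w hw
    rw [List.mem_append, List.mem_append] at hw
    rcases hw with hw | hw | hw
    · obtain ⟨j, rfl⟩ := (List.mem_ofFn' z w).mp hw
      exact hz j
    · obtain ⟨j, rfl⟩ := (List.mem_ofFn' z' w).mp hw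
      exact hz' j
    · obtain ⟨j, rfl⟩ := (List.mem_ofFn' z'' w).mp hw
      exact hz'' j) f hf
  rw [lp_append, lp_append, ← PZ_eq_lp, ← PZ_eq_lp, ← PZ_eq_lp] at h
  have hI : Interp f (PZ z * (PZ z' * PZ z'')) q := ⟨g, hg, h⟩
  refine ⟨q, hI.of_dvd (dvd_mul_right _ _), hI.of_dvd ?_, hI.of_dvd ?_⟩
  · exact (dvd_mul_right _ _).trans (dvd_mul_left _ _)
  · exact (dvd_mul_left _ _).trans (dvd_mul_left _ _)

/-- functional calculus by Taylor series -/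
noncomputable def fc {E : Type*} [NormedAddCommGroup E] [NormedSpace ℂ E] (f : ℂ → ℂ) (T : E →L[ℂ] E) :
    E →L[ℂ] E := ∑' k : ℕ, tay f k • T ^ k

lemma fc_eq {m : ℕ} {r : ℝ} (hr0 : 0 < r) (hr1 : r < 1) {f : ℂ → ℂ} (hf : DifferentiableOn ℂ f (ball 0 1))
    {p q : ℂ[X]} (h : Interp f p q)
    (T : EuclideanSpace ℂ (Fin (m + 1)) →L[ℂ] EuclideanSpace ℂ (Fin (m + 1))) (hT : ‖T‖ ≤ 1)
    (hp : ∀ z, p.eval z = 0 → ‖z‖ ≤ r) (hpT : aeval T p = 0) : fc f T = aeval T q := by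
  obtain ⟨g, hg, h⟩ := h
  have h1 := lemmaE hr0 hr1 hf hg p q T hT hp hpT 0 (by
    intro z hz
    rw [h z (mem_ball_zero_iff.mpr hz)]
    have e : eval z q + eval z p * g z - eval z q - eval z p * g z = 0 := by ring
    rw [e, norm_zero])
  have h3 := le_antisymm h1 (norm_nonneg _)
  exact sub_eq_zero.mp (norm_eq_zero.mp h3)

lemma PZ_root_le {n : ℕ} {r : ℝ} {z : Fin n → ℂ} (hz : ∀ j, ‖z j‖ ≤ r) (μ : ℂ)
    (h : (PZ z).eval μ = 0) : ‖μ‖ ≤ r := by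
  obtain ⟨j, rfl⟩ := PZ_root_iff z μ h
  exact hz j

lemma Interp.eval_root {n : ℕ} {f : ℂ → ℂ} {z : Fin n → ℂ} {q : ℂ[X]} (h : Interp f (PZ z) q)
    (hz : ∀ j, ‖z j‖ < 1) (j : Fin n) : f (z j) = q.eval (z j) := by
  obtain ⟨g, _, h⟩ := h
  rw [h (z j) (mem_ball_zero_iff.mpr (hz j)), PZ_root]
  ring

open Classical in
/-- a chosen interpolant -/
noncomputable def ip {n : ℕ} (f : ℂ → ℂ) (z : Fin n → ℂ) : ℂ[X] :=
  if h : ∃ q, Interp f (PZ z) q then h.choose else 0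

lemma ip_spec {n : ℕ} {f : ℂ → ℂ} (hf : DifferentiableOn ℂ f (ball 0 1)) (z : Fin n → ℂ)
    (hz : ∀ j, ‖z j‖ < 1) : Interp f (PZ z) (ip f z) := by
  unfold ip
  rw [dif_pos (exists_interp hf z hz)]
  exact (exists_interp hf z hz).choose_spec

/-- the defect function -/
noncomputable def DZ {m : ℕ} (r : ℝ) (f : ℂ → ℂ) (M : ℝ) (u v z : Fin (m + 1) → ℂ) : ℝ :=
  M * Hf (rho r) (gq u v) (Bz z) - Hf (rho r) (jq (fun ζ => (ip f z).eval ζ) u v) (Bz z)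

section
variable {m : ℕ} {r : ℝ} (hr0 : 0 < r) (hr1 : r < 1) {f : ℂ → ℂ} (hf : DifferentiableOn ℂ f (ball 0 1))
include hr0 hr1 hf

lemma Model.DZ_eq {z : Fin (m + 1) → ℂ} (hz : ∀ j, ‖z j‖ ≤ r) (D : Model r z) (M : ℝ)
    (u v : Fin (m + 1) → ℂ) :
    DZ r f M u v z = M * ((‖D.Ψ (toP u)‖ ^ 2 + ‖D.Ψ (toP v)‖ ^ 2) / 2) -
      (inner ℂ (D.Ψ (toP v)) (fc f D.T (D.Ψ (toP u)))).re := by
  have hz1 : ∀ j, ‖z j‖ < 1 := fun j => (hz j).trans_lt hr1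
  unfold DZ
  rw [D.hg, D.hj, fc_eq hr0 hr1 hf (ip_spec hf z hz1) D.T D.hT (PZ_root_le hz) D.hp]

lemma DZ_eq {z : Fin (m + 1) → ℂ} (hz : ∀ j, ‖z j‖ ≤ r) (M : ℝ) (u v : Fin (m + 1) → ℂ) {q : ℂ[X]}
    (hq : Interp f (PZ z) q) :
    DZ r f M u v z = M * Hf (rho r) (gq u v) (Bz z) - Hf (rho r) (jq (fun ζ => q.eval ζ) u v) (Bz z) := by
  obtain ⟨D⟩ := exists_model hr0 hr1 z hz
  rw [D.DZ_eq hr0 hr1 hf hz, D.hg, D.hj, fc_eq hr0 hr1 hf hq D.T D.hT (PZ_root_le hz) D.hp]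

lemma Model.DZ_nonneg {z : Fin (m + 1) → ℂ} (hz : ∀ j, ‖z j‖ ≤ r) (D : Model r z) {M : ℝ}
    (hM : ‖fc f D.T‖ ≤ M) (u v : Fin (m + 1) → ℂ) : 0 ≤ DZ r f M u v z := by
  rw [D.DZ_eq hr0 hr1 hf hz]
  obtain ⟨x, hx⟩ : ∃ x, x = D.Ψ (toP u) := ⟨_, rfl⟩
  obtain ⟨y, hy⟩ : ∃ y, y = D.Ψ (toP v) := ⟨_, rfl⟩
  rw [← hx, ← hy]
  have e6 : (inner ℂ y ((fc f D.T) x)).re ≤ ‖y‖ * (M * ‖x‖) := by
    have h1 : (inner ℂ y ((fc f D.T) x)).re ≤ ‖inner ℂ y ((fc f D.T) x)‖ := Complex.re_le_norm _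
    have h2 := norm_inner_le_norm (𝕜 := ℂ) y ((fc f D.T) x)
    have h3 := (fc f D.T).le_of_opNorm_le hM x
    have h4 := mul_le_mul_of_nonneg_left h3 (norm_nonneg y)
    linarith
  have h1 : 0 ≤ M := (norm_nonneg _).trans hM
  nlinarith [mul_nonneg h1 (sq_nonneg (‖x‖ - ‖y‖))]

lemma Model.DZ_zero {z : Fin (m + 1) → ℂ} (hz : ∀ j, ‖z j‖ ≤ r) (D : Model r z) {M : ℝ}
    (hM : ‖fc f D.T‖ ≤ M) {u v : Fin (m + 1) → ℂ} (h0 : DZ r f M u v z = 0) (j : Fin (m + 1)) :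
    f (z j) * pol u (z j) = M * pol v (z j) := by
  have hz1 : ∀ j, ‖z j‖ < 1 := fun j => (hz j).trans_lt hr1
  have hI := ip_spec hf z hz1
  have hfc := fc_eq hr0 hr1 hf hI D.T D.hT (PZ_root_le hz) D.hp
  rw [D.DZ_eq hr0 hr1 hf hz] at h0
  obtain ⟨x, hx⟩ : ∃ x, x = D.Ψ (toP u) := ⟨_, rfl⟩
  obtain ⟨y, hy⟩ : ∃ y, y = D.Ψ (toP v) := ⟨_, rfl⟩
  rw [← hx, ← hy] at h0
  have hM0 : 0 ≤ M := (norm_nonneg _).trans hM
  have h3 := (fc f D.T).le_of_opNorm_le hM x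
  have h1 : ‖fc f D.T x - (M : ℂ) • y‖ ^ 2 = 0 := by
    apply le_antisymm _ (by positivity)
    rw [@norm_sub_sq ℂ, inner_smul_right, norm_smul, norm_real, Real.norm_eq_abs, abs_of_nonneg hM0]
    have e1 : RCLike.re ((M : ℂ) * inner ℂ (fc f D.T x) y) = M * (inner ℂ y (fc f D.T x)).re := by
      rw [← inner_conj_symm (fc f D.T x) y]
      show ((M : ℂ) * conj (inner ℂ y (fc f D.T x))).re = _
      rw [re_ofReal_mul, Complex.conj_re]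
    rw [e1]
    have e2 : (inner ℂ y (fc f D.T x)).re = M * ((‖x‖ ^ 2 + ‖y‖ ^ 2) / 2) := by linarith
    rw [e2]
    have e3 : ‖fc f D.T x‖ ^ 2 ≤ (M * ‖x‖) ^ 2 := pow_le_pow_left₀ (norm_nonneg _) h3 2
    nlinarith
  have h2 : fc f D.T x = (M : ℂ) • y := by
    have := pow_eq_zero_iff (n := 2) (by norm_num) |>.mp h1
    exact sub_eq_zero.mp (norm_eq_zero.mp this)
  obtain ⟨ev, hev⟩ := D.hev j
  have h4 := congrArg ev h2
  rw [hfc, hx, D.hΨ, hev, map_smul, hy, hev, eval_mul, toP_eval, toP_eval, smul_eq_mul,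
    ← hI.eval_root hz1 j] at h4
  exact h4

lemma Model.DZ_exists {z : Fin (m + 1) → ℂ} (hz : ∀ j, ‖z j‖ ≤ r) (D : Model r z) :
    ∃ u v : Fin (m + 1) → ℂ, u ≠ 0 ∧ DZ r f ‖fc f D.T‖ u v z = 0 := by
  obtain ⟨A, hA⟩ : ∃ A, A = fc f D.T := ⟨_, rfl⟩
  have hne : (sphere (0 : EuclideanSpace ℂ (Fin (m + 1))) 1).Nonempty :=
    (NormedSpace.sphere_nonempty (E := EuclideanSpace ℂ (Fin (m + 1)))).mpr zero_le_one
  obtain ⟨x, hx, hmax⟩ := (isCompact_sphere (0 : EuclideanSpace ℂ (Fin (m + 1))) 1).exists_isMaxOn hne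
    (f := fun x => ‖A x‖) (A.continuous.norm.continuousOn)
  have hx1 : ‖x‖ = 1 := by simpa using hx
  have hAx : ‖A x‖ = ‖A‖ := by
    apply le_antisymm
    · have := A.le_opNorm x
      rwa [hx1, mul_one] at this
    · apply ContinuousLinearMap.opNorm_le_bound _ (norm_nonneg _)
      intro w
      by_cases hw : w = 0
      · subst hw; simp
      · have hw0 : 0 < ‖w‖ := norm_pos_iff.mpr hw
        have h1 : ((‖w‖⁻¹ : ℝ) : ℂ) • w ∈ sphere (0 : EuclideanSpace ℂ (Fin (m + 1))) 1 := by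
          rw [mem_sphere_zero_iff_norm, norm_smul, norm_real, Real.norm_eq_abs,
            abs_of_pos (inv_pos.mpr hw0), inv_mul_cancel₀ hw0.ne']
        have h2 : ‖A (((‖w‖⁻¹ : ℝ) : ℂ) • w)‖ ≤ ‖A x‖ := hmax h1
        rw [map_smul, norm_smul, norm_real, Real.norm_eq_abs, abs_of_pos (inv_pos.mpr hw0),
          inv_mul_le_iff₀ hw0] at h2
        linarith
  obtain ⟨u, hu⟩ := D.hs x
  obtain ⟨v, hv⟩ := D.hs (((‖A‖⁻¹ : ℝ) : ℂ) • A x)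
  refine ⟨u, v, ?_, ?_⟩
  · rintro rfl
    have : toP (0 : Fin (m + 1) → ℂ) = 0 := by simp [toP]
    rw [this, map_zero] at hu
    rw [← hu, norm_zero] at hx1
    norm_num at hx1
  · rw [D.DZ_eq hr0 hr1 hf hz, hu, hv, ← hA, hx1, norm_smul, norm_real, Real.norm_eq_abs, hAx,
      inner_smul_left, Complex.conj_ofReal, re_ofReal_mul, inner_self_eq_norm_sq_to_K]
    have h3 : (((‖A x‖ : ℂ)) ^ 2).re = ‖A x‖ ^ 2 := by
      rw [← Complex.ofReal_pow, Complex.ofReal_re]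
    have h4 : ((RCLike.ofReal ‖A x‖ : ℂ) ^ 2).re = ‖A x‖ ^ 2 := h3
    rw [h4, hAx]
    by_cases h0 : ‖A‖ = 0
    · rw [h0]; simp
    · rw [abs_of_nonneg (inv_nonneg.mpr (norm_nonneg A))]
      field_simp
      ring

end

/-- Klein coordinate -/
noncomputable def kl (w : ℂ) : ℂ := w / ((1 + ‖w‖ ^ 2 : ℝ) : ℂ)

lemma Bz_update {n : ℕ} (z : Fin n → ℂ) (j : Fin n) (w : ℂ) :
    Bz (Function.update z j w) = Function.update (Bz z) j (kl w) := by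
  ext k
  by_cases hk : k = j
  · subst hk
    simp [Bz, kl]
  · rw [Function.update_of_ne hk]
    unfold Bz
    rw [Function.update_of_ne hk]

lemma update_le {n : ℕ} {r : ℝ} {z : Fin n → ℂ} (hz : ∀ j, ‖z j‖ ≤ r) (j : Fin n) {w : ℂ} (hw : ‖w‖ ≤ r)
    (k : Fin n) : ‖Function.update z j w k‖ ≤ r := by
  by_cases hk : k = j
  · subst hk; rw [Function.update_self]; exact hw
  · rw [Function.update_of_ne hk]; exact hz k

lemma exists_kl {r : ℝ} (hr0 : 0 < r) (hr1 : r < 1) (β : ℂ) (hβ : ‖β‖ ≤ rho r) :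
    ∃ w : ℂ, ‖w‖ ≤ r ∧ kl w = β := by
  rcases eq_or_lt_of_le hβ with h | h
  · have hrr : (0 : ℝ) < 1 + r ^ 2 := by positivity
    have hn : ‖β * ((1 + r ^ 2 : ℝ) : ℂ)‖ = r := by
      rw [norm_mul, h, norm_real, Real.norm_eq_abs, abs_of_pos hrr]
      unfold rho
      field_simp
    refine ⟨β * ((1 + r ^ 2 : ℝ) : ℂ), hn.le, ?_⟩
    unfold kl
    rw [hn, mul_div_cancel_right₀]
    exact_mod_cast hrr.ne'
  · obtain ⟨l, hl1, hl2⟩ := exists_poincare hr0 hr1 (ρ := rho r) rfl β h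
    exact ⟨l, hl1.le, hl2.symm⟩

lemma Bz_le {n : ℕ} {r : ℝ} (hr0 : 0 < r) (hr1 : r < 1) {z : Fin n → ℂ} (hz : ∀ j, ‖z j‖ ≤ r) (j : Fin n) :
    ‖Bz z j‖ ≤ rho r :=
  (wt_poincare hr0 hr1 (ρ := rho r) rfl (z j) 1 (hz j) (by simp)).1

section
variable {m : ℕ} {r : ℝ} (hr0 : 0 < r) (hr1 : r < 1) {f : ℂ → ℂ} (hf : DifferentiableOn ℂ f (ball 0 1))
include hr0 hr1 hf

lemma DZ_eq' {z : Fin (m + 1) → ℂ} (hz : ∀ j, ‖z j‖ ≤ r) (M : ℝ) (u v : Fin (m + 1) → ℂ) {q : ℂ[X]}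
    (hq : Interp f (PZ z) q) :
    DZ r f M u v z = Hf (rho r) (fun ζ => M * gq u v ζ - jq (fun ζ => q.eval ζ) u v ζ) (Bz z) := by
  have hρ2 := rho_lt hr0 hr1
  have hc1 : Continuous (fun ζ => M * gq u v ζ) := continuous_const.mul (gq_cont1 u v)
  rw [Hf_sub hρ2 hc1 (jq_cont1 q.continuous u v), Hf_smul]
  exact DZ_eq hr0 hr1 hf hz M u v hq

lemma DZ_mid {z : Fin (m + 1) → ℂ} (hz : ∀ j, ‖z j‖ ≤ r) (M : ℝ) (u v : Fin (m + 1) → ℂ)
    {i j : Fin (m + 1)} (hij : i ≠ j) {w : ℂ} (hw : ‖w‖ ≤ r) (hwB : kl w = (Bz z i + Bz z j) / 2) :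
    DZ r f M u v z = (1 / 2) * (DZ r f M u v (Function.update z j w) + DZ r f M u v (Function.update z i w)) := by
  have hρ2 := rho_lt hr0 hr1
  obtain ⟨q, h1, h2, h3⟩ := exists_interp3 hf z (Function.update z j w) (Function.update z i w)
    (fun k => (hz k).trans_lt hr1) (fun k => (update_le hz j hw k).trans_lt hr1)
    (fun k => (update_le hz i hw k).trans_lt hr1)
  rw [DZ_eq' hr0 hr1 hf hz M u v h1, DZ_eq' hr0 hr1 hf (update_le hz j hw) M u v h2,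
    DZ_eq' hr0 hr1 hf (update_le hz i hw) M u v h3, Bz_update, Bz_update, hwB]
  have hc1 : Continuous (fun ζ => M * gq u v ζ) := continuous_const.mul (gq_cont1 u v)
  exact Hf_mid hρ2 (hc1.sub (jq_cont1 q.continuous u v)) (Bz z) (Bz_le hr0 hr1 hz) i j hij

lemma merge_seq {K : Set ℂ} (hKr : K ⊆ closedBall 0 r) (hconv : Convex ℝ (kl '' K)) (M : ℝ)
    (u v : Fin (m + 1) → ℂ)
    (hpos : ∀ z : Fin (m + 1) → ℂ, (∀ k, z k ∈ K) → 0 ≤ DZ r f M u v z)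
    {z : Fin (m + 1) → ℂ} (hz : ∀ k, z k ∈ K) (h0 : DZ r f M u v z = 0)
    {i j : Fin (m + 1)} (hij : i ≠ j) :
    ∃ w : ℕ → ℂ, ∀ k, w k ∈ K ∧ kl (w k) = Bz z i + ((1 / 2 : ℝ) ^ (k + 1) : ℝ) * (Bz z j - Bz z i) ∧
      DZ r f M u v (Function.update z j (w k)) = 0 := by
  have hr : ∀ w ∈ K, ‖w‖ ≤ r := fun w hw => mem_closedBall_zero_iff.mp (hKr hw)
  have hβ : ∀ k : ℕ, Bz z i + ((1 / 2 : ℝ) ^ (k + 1) : ℝ) * (Bz z j - Bz z i) ∈ kl '' K := by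
    intro k
    have e : Bz z i + ((1 / 2 : ℝ) ^ (k + 1) : ℝ) * (Bz z j - Bz z i) =
        (1 - (1 / 2 : ℝ) ^ (k + 1)) • Bz z i + ((1 / 2 : ℝ) ^ (k + 1)) • Bz z j := by
      rw [Complex.real_smul, Complex.real_smul]
      push_cast
      ring
    rw [e]
    have h1 : (0 : ℝ) ≤ (1 / 2) ^ (k + 1) := by positivity
    have h2 : ((1 : ℝ) / 2) ^ (k + 1) ≤ 1 := pow_le_one₀ (by norm_num) (by norm_num)
    exact hconv ⟨z i, hz i, rfl⟩ ⟨z j, hz j, rfl⟩ (by linarith) h1 (by ring)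
  choose w hw1 hw2 using hβ
  refine ⟨w, ?_⟩
  have hup : ∀ z' : Fin (m + 1) → ℂ, (∀ k, z' k ∈ K) → ∀ (j' : Fin (m + 1)) (w' : ℂ), w' ∈ K →
      ∀ k, Function.update z' j' w' k ∈ K := by
    intro z' hz' j' w' hw' k
    by_cases hk : k = j'
    · subst hk; rw [Function.update_self]; exact hw'
    · rw [Function.update_of_ne hk]; exact hz' k
  have hstep : ∀ z' : Fin (m + 1) → ℂ, (∀ k, z' k ∈ K) → DZ r f M u v z' = 0 → ∀ w', w' ∈ K →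
      kl w' = (Bz z' i + Bz z' j) / 2 → DZ r f M u v (Function.update z' j w') = 0 := by
    intro z' hz' h0' w' hw' hk
    have hmid := DZ_mid hr0 hr1 hf (fun k => hr _ (hz' k)) M u v hij (hr _ hw') hk
    rw [h0'] at hmid
    have p1 := hpos _ (hup z' hz' j w' hw')
    have p2 := hpos _ (hup z' hz' i w' hw')
    linarith
  intro k
  refine ⟨hw1 k, hw2 k, ?_⟩
  induction k with
  | zero =>
    apply hstep z hz h0 (w 0) (hw1 0)
    rw [hw2]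
    push_cast
    ring
  | succ k ih =>
    have h1 := hstep (Function.update z j (w k)) (hup z hz j _ (hw1 k)) ih (w (k + 1)) (hw1 (k + 1)) (by
      rw [hw2, Bz_update, Function.update_of_ne hij, Function.update_self, hw2]
      push_cast
      ring)
    rwa [Function.update_idem] at h1

end

lemma eqOn_of_infinite {F G : ℂ → ℂ} (hF : DifferentiableOn ℂ F (ball 0 1))
    (hG : DifferentiableOn ℂ G (ball 0 1)) {S : Set ℂ} (hS : S.Infinite) {r : ℝ} (hr1 : r < 1)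
    (hSr : S ⊆ closedBall 0 r) (h : ∀ z ∈ S, F z = G z) : Set.EqOn F G (ball 0 1) := by
  obtain ⟨x, hx, hacc⟩ := hS.exists_accPt_of_subset_isCompact (isCompact_closedBall 0 r) hSr
  have hx1 : x ∈ ball (0 : ℂ) 1 := closedBall_subset_ball hr1 hx
  apply AnalyticOnNhd.eqOn_of_preconnected_of_frequently_eq (hF.analyticOnNhd isOpen_ball)
    (hG.analyticOnNhd isOpen_ball) (convex_ball (0 : ℂ) 1).isPreconnected hx1
  rw [accPt_iff_frequently_nhdsNE] at hacc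
  exact hacc.mono (fun z hz => h z hz)

end Pool.Agent.KS6_83.PT
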