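import Pool.Agent.KS6_83.PT.C

set_option autoImplicit false
open Complex Metric Set Polynomial Filter Topology
open scoped ComplexConjugate

namespace Pool.Agent.KS6_83.PT

open Pool.Agent.Helper654.Ptak hiding lp


/-- reversed conjugate coefficient vector -/
noncomputable def rv {m : ℕ} (u : Fin (m + 1) → ℂ) : Fin (m + 1) → ℂ := fun j => conj (u (Fin.rev j))

lemma pol_rv {m : ℕ} (u : Fin (m + 1) → ℂ) {ζ : ℂ} (hζ : ‖ζ‖ = 1) :
    pol (rv u) ζ = ζ ^ m * conj (pol u ζ) := by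
  have hζ0 : ζ ≠ 0 := by rintro rfl; simp at hζ
  have hinv : conj ζ = ζ⁻¹ := eq_inv_of_mul_eq_one_left (circle_inv hζ)
  unfold pol rv
  rw [map_sum, Finset.mul_sum, ← Equiv.sum_comp Fin.revPerm]
  apply Finset.sum_congr rfl
  intro j _
  rw [Fin.revPerm_apply, Fin.rev_rev, Fin.val_rev, map_mul, map_pow, hinv]
  have h1 : m + 1 - ((j : ℕ) + 1) = m - j := by omega
  have h2 : (j : ℕ) ≤ m := Nat.lt_succ_iff.mp j.2
  rw [h1, pow_sub₀ _ hζ0 h2, inv_pow]
  ring

/-- extracted from the library's proof of `radial` -/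
lemma Hf_herglotz {n : ℕ} {r ρ : ℝ} (hr0 : 0 < r) (hr1 : r < 1) (hρ : ρ = r / (1 + r ^ 2))
    {h : ℂ → ℝ} (hh : Continuous h) (B : Fin n → ℂ) (i : Fin n) :
    ∃ K : ℂ → ℂ, DifferentiableOn ℂ K (ball 0 1) ∧ ∀ l : ℂ, ‖l‖ ≤ r →
      Hf ρ h (Function.update B i (kl l)) = ((1 + ‖l‖ ^ 2) / (1 - ‖l‖ ^ 2)) * (K l).re := by
  have hρ2 : ρ < 1 / 2 := by
    rw [hρ, div_lt_div_iff₀ (by positivity) (by norm_num)]
    nlinarith [sq_nonneg (1 - r), mul_pos (sub_pos.mpr hr1) (sub_pos.mpr hr1)]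
  set g : ℂ → ℝ := fun ζ => h ζ * ∏ k ∈ Finset.univ.erase i, wt ρ (B k) ζ with hg
  have hgc : Continuous g := by
    apply hh.mul
    apply continuous_finsetProd
    intro k _
    exact wt_cont1 hρ2 (B k)
  have hgc' : Continuous (fun ζ => (g ζ : ℂ)) := continuous_ofReal.comp hgc
  set K : ℂ → ℂ := fun w => Real.circleAverage (fun ζ => herglotzRieszKernel 0 w ζ • (g ζ : ℂ)) 0 1 with hK
  have hKd : DifferentiableOn ℂ K (ball 0 1) :=
    differentiableOn_circleAverage_herglotzRieszKernel_smul (ci hgc')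
  refine ⟨K, hKd, ?_⟩
  intro l hl
  have hl1 : l ∈ ball (0 : ℂ) 1 := by rw [mem_ball_zero_iff]; linarith
  have hln := norm_nonneg l
  have hd : 0 < 1 - ‖l‖ ^ 2 := by nlinarith
  rw [hK]
  simp only
  rw [re_circleAverage_herglotzRieszKernel_smul (ci hgc) hl1]
  unfold Hf av
  rw [← smul_eq_mul, ← Real.circleAverage_fun_smul]
  apply Real.circleAverage_congr_sphere
  intro ζ hζ
  have hζ1 : ‖ζ‖ = 1 := by simpa using hζ
  have hne : ζ - l ≠ 0 := by
    intro h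
    have : ζ = l := by linear_combination h
    rw [this] at hζ1; linarith
  have hne2 : 0 < ‖ζ - l‖ ^ 2 := by positivity
  simp only [smul_eq_mul, Pi.smul_apply', Function.comp_apply]
  unfold kl
  rw [W_update, (wt_poincare hr0 hr1 hρ l ζ hl hζ1).2]
  have hp : (herglotzRieszKernel 0 l ζ).re = (1 - ‖l‖ ^ 2) / ‖ζ - l‖ ^ 2 := by
    have := congrFun (poissonKernel_eq_re_herglotzRieszKernel (c := 0) (w := l)) ζ
    rw [Function.comp_apply] at this
    rw [← this, poissonKernel_def]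
    simp [hζ1]
  rw [hp, hg]
  simp only
  field_simp

/-- product of the other linear factors -/
noncomputable def PE {m : ℕ} (z : Fin (m + 1) → ℂ) (i : Fin (m + 1)) : ℂ[X] :=
  ∏ k ∈ Finset.univ.erase i, (X - C (z k))

noncomputable def pes {m : ℕ} (z : Fin (m + 1) → ℂ) (i : Fin (m + 1)) (ζ : ℂ) : ℂ :=
  ∏ k ∈ Finset.univ.erase i, (1 - conj (z k) * ζ)

noncomputable def kape {m : ℕ} (z : Fin (m + 1) → ℂ) (i : Fin (m + 1)) : ℝ :=
  ∏ k ∈ Finset.univ.erase i, (1 + ‖z k‖ ^ 2)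

lemma PE_eval {m : ℕ} (z : Fin (m + 1) → ℂ) (i : Fin (m + 1)) (ζ : ℂ) :
    (PE z i).eval ζ = ∏ k ∈ Finset.univ.erase i, (ζ - z k) := by
  unfold PE
  rw [eval_prod]
  simp

lemma PE_ne {m : ℕ} {z : Fin (m + 1) → ℂ} (hz : ∀ j, ‖z j‖ < 1) (i : Fin (m + 1)) {ζ : ℂ} (hζ : ‖ζ‖ = 1) :
    (PE z i).eval ζ ≠ 0 := by
  rw [PE_eval, Finset.prod_ne_zero_iff]
  intro j _ h
  have : ζ = z j := by linear_combination h
  have h2 := hz j
  rw [← this, hζ] at h2
  linarith

lemma pes_ne {m : ℕ} {z : Fin (m + 1) → ℂ} (hz : ∀ j, ‖z j‖ < 1) (i : Fin (m + 1)) {ζ : ℂ} (hζ : ‖ζ‖ ≤ 1) :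
    pes z i ζ ≠ 0 := by
  unfold pes
  rw [Finset.prod_ne_zero_iff]
  intro j _
  exact circle_ne (hz j) hζ

lemma pes_eq {m : ℕ} (z : Fin (m + 1) → ℂ) (i : Fin (m + 1)) {ζ : ℂ} (hζ : ‖ζ‖ = 1) :
    pes z i ζ = ζ ^ m * conj ((PE z i).eval ζ) := by
  have hζ0 : ζ ≠ 0 := by rintro rfl; simp at hζ
  have hinv : conj ζ = ζ⁻¹ := eq_inv_of_mul_eq_one_left (circle_inv hζ)
  rw [PE_eval, map_prod]
  unfold pes
  have : ζ ^ m = ∏ _k ∈ Finset.univ.erase i, ζ := by
    rw [Finset.prod_const, Finset.card_erase_of_mem (Finset.mem_univ i), Finset.card_univ, Fintype.card_fin,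
      Nat.add_sub_cancel]
  rw [this, ← Finset.prod_mul_distrib]
  apply Finset.prod_congr rfl
  intro j _
  rw [map_sub, hinv]
  field_simp

/-- the holomorphic function coming from the free coefficient -/
noncomputable def kfun {m : ℕ} (u v z : Fin (m + 1) → ℂ) (i : Fin (m + 1)) (ζ : ℂ) : ℂ :=
  (kape z i : ℂ) * pol u ζ * pol (rv v) ζ * (pes z i ζ)⁻¹

lemma kfun_diff {m : ℕ} (u v : Fin (m + 1) → ℂ) {z : Fin (m + 1) → ℂ} (hz : ∀ j, ‖z j‖ < 1) (i : Fin (m + 1)) :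
    DifferentiableOn ℂ (kfun u v z i) (closedBall 0 1) := by
  unfold kfun
  apply DifferentiableOn.mul
  · unfold pol
    fun_prop
  · apply DifferentiableOn.inv
    · unfold pes
      fun_prop
    · intro ζ hζ
      exact pes_ne hz i (mem_closedBall_zero_iff.mp hζ)

lemma Hf_kfun {m : ℕ} {r : ℝ} (hr0 : 0 < r) (hr1 : r < 1) (u v : Fin (m + 1) → ℂ) {z : Fin (m + 1) → ℂ}
    (hz : ∀ j, ‖z j‖ ≤ r) (i : Fin (m + 1)) (c : ℂ) {l : ℂ} (hl : ‖l‖ ≤ r) :
    Hf (rho r) (jq (fun ζ => c * (PE z i).eval ζ) u v) (Function.update (Bz z) i (kl l)) =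
      ((1 + ‖l‖ ^ 2) / (1 - ‖l‖ ^ 2)) * (c * kfun u v z i l).re := by
  have hz1 : ∀ j, ‖z j‖ < 1 := fun j => (hz j).trans_lt hr1
  have hl1 : l ∈ ball (0 : ℂ) 1 := by rw [mem_ball_zero_iff]; linarith
  have hln := norm_nonneg l
  have hd : 0 < 1 - ‖l‖ ^ 2 := by nlinarith
  have hk := kfun_diff u v hz1 i
  have hkc : DiffContOnCl ℂ (fun ζ => c * kfun u v z i ζ) (ball 0 1) := by
    have h1 : DifferentiableOn ℂ (fun ζ => c * kfun u v z i ζ) (closedBall 0 1) := hk.const_mul c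
    refine ⟨h1.mono ball_subset_closedBall, ?_⟩
    rw [closure_ball (0 : ℂ) one_ne_zero]
    exact h1.continuousOn
  have h2 := hkc.circleAverage_poissonKernel_smul hl1
  have hci : CircleIntegrable (poissonKernel 0 l • fun ζ => c * kfun u v z i ζ) 0 1 := by
    apply ContinuousOn.circleIntegrable zero_le_one
    have h3 : ContinuousOn (fun ζ => c * kfun u v z i ζ) (sphere 0 1) :=
      (hk.const_mul c).continuousOn.mono sphere_subset_closedBall
    have h4 : ContinuousOn (poissonKernel 0 l) (sphere 0 1) := by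
      have h5 : poissonKernel 0 l = fun z => (‖z - 0‖ ^ 2 - ‖l - 0‖ ^ 2) / ‖(z - 0) - (l - 0)‖ ^ 2 := by
        ext z; rw [poissonKernel_def]
      rw [h5]
      apply ContinuousOn.div
      · fun_prop
      · fun_prop
      · intro ζ hζ h0
        have hζ1 : ‖ζ‖ = 1 := by simpa using hζ
        have h6 : ‖(ζ - 0) - (l - 0)‖ = 0 := by
          exact pow_eq_zero_iff (n := 2) (by norm_num) |>.mp h0
        rw [norm_eq_zero, sub_zero, sub_zero, sub_eq_zero] at h6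
        rw [h6] at hζ1
        linarith
    exact h4.smul h3
  have h3 : (c * kfun u v z i l).re = av (fun ζ => ((poissonKernel 0 l • fun ζ => c * kfun u v z i ζ) ζ).re) := by
    have h4 := av_clm Complex.reCLM hci
    have h5 : av (poissonKernel 0 l • fun ζ => c * kfun u v z i ζ) = c * kfun u v z i l := h2
    rw [h5] at h4
    exact h4.symm
  rw [h3]
  unfold Hf
  rw [← av_real_smul]
  apply av_congr
  intro ζ hζ
  have hζ0 : ζ ≠ 0 := by rintro rfl; simp at hζ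
  have hne : ζ - l ≠ 0 := by
    intro h
    have : ζ = l := by linear_combination h
    rw [this] at hζ; linarith
  have hne2 : 0 < ‖ζ - l‖ ^ 2 := by positivity
  have hpk : poissonKernel 0 l ζ = (1 - ‖l‖ ^ 2) / ‖ζ - l‖ ^ 2 := by
    rw [poissonKernel_def]
    simp [hζ]
  have hW : W (rho r) (Function.update (Bz z) i (kl l)) ζ =
      ((1 + ‖l‖ ^ 2) / ‖ζ - l‖ ^ 2) * (kape z i / ‖(PE z i).eval ζ‖ ^ 2) := by
    rw [W_update]
    unfold kl
    rw [(wt_poincare hr0 hr1 (ρ := rho r) rfl l ζ hl hζ).2]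
    congr 1
    rw [PE_eval]
    unfold kape Bz
    rw [Finset.prod_congr rfl (fun j _ => (wt_poincare hr0 hr1 (ρ := rho r) rfl (z j) ζ (hz j) hζ).2),
      Finset.prod_div_distrib, norm_prod, ← Finset.prod_pow]
  rw [hW]
  simp only [Pi.smul_apply']
  rw [hpk]
  have hre : ∀ (t : ℝ) (w : ℂ), (t • w).re = t * w.re := fun t w => by
    rw [Complex.real_smul, re_ofReal_mul]
  rw [hre]
  have hPE := PE_ne hz1 i hζ
  have hPE2 : ‖(PE z i).eval ζ‖ ^ 2 ≠ 0 := by
    have := norm_pos_iff.mpr hPE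
    positivity
  have hcPE : conj ((PE z i).eval ζ) ≠ 0 := by simpa using hPE
  have hkf : c * kfun u v z i ζ = ((kape z i / ‖(PE z i).eval ζ‖ ^ 2 : ℝ) : ℂ) *
      (c * (PE z i).eval ζ * pol u ζ * conj (pol v ζ)) := by
    unfold kfun
    rw [pes_eq z i hζ, pol_rv v hζ, Complex.ofReal_div]
    have : ((‖(PE z i).eval ζ‖ ^ 2 : ℝ) : ℂ) = (PE z i).eval ζ * conj ((PE z i).eval ζ) := by
      push_cast
      rw [Complex.mul_conj']
    rw [this]
    have h7 : ζ ^ m ≠ 0 := pow_ne_zero _ hζ0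
    field_simp
  rw [hkf, re_ofReal_mul]
  unfold jq
  field_simp

section
variable {m : ℕ} {r : ℝ} (hr0 : 0 < r) (hr1 : r < 1) {f : ℂ → ℂ} (hf : DifferentiableOn ℂ f (ball 0 1))
include hr0 hr1 hf

lemma exists_K {z : Fin (m + 1) → ℂ} (hz : ∀ j, ‖z j‖ ≤ r) (M : ℝ) (u v : Fin (m + 1) → ℂ) (i : Fin (m + 1)) :
    ∃ K : ℂ → ℂ, DifferentiableOn ℂ K (ball 0 1) ∧ ∀ l : ℂ, ‖l‖ ≤ r →
      DZ r f M u v (Function.update z i l) = ((1 + ‖l‖ ^ 2) / (1 - ‖l‖ ^ 2)) * (K l).re := by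
  have hρ2 := rho_lt hr0 hr1
  have hz1 : ∀ j, ‖z j‖ < 1 := fun j => (hz j).trans_lt hr1
  obtain ⟨q, g, hg, hq⟩ := interp ((Finset.univ.erase i).toList.map z) (by
    intro w hw
    obtain ⟨j, _, rfl⟩ := List.mem_map.mp hw
    exact hz1 j) f hf
  have hlp : Pool.Agent.Helper654.Ptak.lp ((Finset.univ.erase i).toList.map z) = PE z i := by
    unfold PE Pool.Agent.Helper654.Ptak.lp
    rw [List.map_map, ← Finset.prod_map_toList]
    rfl
  rw [hlp] at hq
  have hc1 : Continuous (fun ζ => M * gq u v ζ) := continuous_const.mul (gq_cont1 u v)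
  have hc0 : Continuous (fun ζ => M * gq u v ζ - jq (fun ζ => q.eval ζ) u v ζ) :=
    hc1.sub (jq_cont1 q.continuous u v)
  obtain ⟨K₀, hK₀, hK₀'⟩ := Hf_herglotz hr0 hr1 (ρ := rho r) rfl hc0 (Bz z) i
  refine ⟨fun l => K₀ l - g l * kfun u v z i l, hK₀.sub (hg.mul ((kfun_diff u v hz1 i).mono ball_subset_closedBall)), ?_⟩
  intro l hl
  have hl1 : l ∈ ball (0 : ℂ) 1 := by rw [mem_ball_zero_iff]; linarith
  have hPZ : PZ (Function.update z i l) = (X - C l) * PE z i := by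
    unfold PZ PE
    rw [← Finset.mul_prod_erase Finset.univ _ (Finset.mem_univ i), Function.update_self]
    congr 1
    apply Finset.prod_congr rfl
    intro k hk
    rw [Function.update_of_ne (Finset.ne_of_mem_erase hk)]
  have hI : Interp f (PZ (Function.update z i l)) (q + C (g l) * PE z i) := by
    refine ⟨dslope g l, (Complex.differentiableOn_dslope (isOpen_ball.mem_nhds hl1)).mpr hg, ?_⟩
    intro ζ hζ
    have h1 := sub_smul_dslope g l ζ
    rw [smul_eq_mul] at h1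
    rw [hq ζ hζ, hPZ, eval_add, eval_mul, eval_mul, eval_sub, eval_X, eval_C, eval_C]
    linear_combination (-(PE z i).eval ζ) * h1
  rw [DZ_eq' hr0 hr1 hf (update_le hz i hl) M u v hI, Bz_update]
  have hcont : Continuous (fun ζ => g l * (PE z i).eval ζ) := continuous_const.mul (PE z i).continuous
  have h1 : (fun ζ => M * gq u v ζ - jq (fun ζ => (q + C (g l) * PE z i).eval ζ) u v ζ) =
      fun ζ => (M * gq u v ζ - jq (fun ζ => q.eval ζ) u v ζ) - jq (fun ζ => g l * (PE z i).eval ζ) u v ζ := by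
    ext ζ
    unfold jq
    simp only [eval_add, eval_mul, eval_C, add_mul, Complex.add_re]
    ring
  rw [h1, Hf_sub hρ2 hc0 (jq_cont1 hcont u v), hK₀' l hl, Hf_kfun hr0 hr1 u v hz i (g l) hl]
  rw [Complex.sub_re]
  ring

omit hr0 hr1 hf in
lemma update_mem {K : Set ℂ} {z : Fin (m + 1) → ℂ} (hz : ∀ j, z j ∈ K) (j : Fin (m + 1)) {w : ℂ} (hw : w ∈ K)
    (k : Fin (m + 1)) : Function.update z j w k ∈ K := by
  by_cases hk : k = j
  · subst hk; rw [Function.update_self]; exact hw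
  · rw [Function.update_of_ne hk]; exact hz k

lemma radial_all {K₀ : Set ℂ} (hKr : K₀ ⊆ closedBall 0 r) (M : ℝ) (u v : Fin (m + 1) → ℂ)
    (hpos : ∀ z : Fin (m + 1) → ℂ, (∀ k, z k ∈ K₀) → 0 ≤ DZ r f M u v z)
    {z : Fin (m + 1) → ℂ} (hz : ∀ k, z k ∈ K₀) (h0 : DZ r f M u v z = 0)
    {i : Fin (m + 1)} {ε : ℝ} (hε : 0 < ε) (hi : ball (z i) ε ⊆ K₀) :
    ∀ l ∈ ball (z i) ε, DZ r f M u v (Function.update z i l) = 0 := by
  have hr : ∀ w ∈ K₀, ‖w‖ ≤ r := fun w hw => mem_closedBall_zero_iff.mp (hKr hw)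
  obtain ⟨K, hKd, hrel⟩ := exists_K hr0 hr1 hf (fun k => hr _ (hz k)) M u v i
  have hU0 : ∀ l : ℂ, l ∈ K₀ → 0 ≤ (K l).re := by
    intro l hl
    have hln := norm_nonneg l
    have hlr := hr l hl
    have hd : 0 < 1 - ‖l‖ ^ 2 := by nlinarith
    have h1 := hrel l hlr
    have h2 := hpos (Function.update z i l) (by
      intro k
      by_cases hk : k = i
      · subst hk; rw [Function.update_self]; exact hl
      · rw [Function.update_of_ne hk]; exact hz k)
    rw [h1] at h2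
    exact (mul_nonneg_iff_of_pos_left (by positivity)).mp h2
  have hUl0 : (K (z i)).re = 0 := by
    have h1 := hrel (z i) (hr _ (hz i))
    rw [Function.update_eq_self, h0] at h1
    have hln := norm_nonneg (z i)
    have hlr := hr _ (hz i)
    have hd : 0 < 1 - ‖z i‖ ^ 2 := by nlinarith
    have h3 : (1 + ‖z i‖ ^ 2) / (1 - ‖z i‖ ^ 2) ≠ 0 := by positivity
    rcases mul_eq_zero.mp h1.symm with h | h
    · exact absurd h h3
    · exact h
  have hsub : ball (z i) ε ⊆ ball 0 1 := by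
    intro w hw
    rw [mem_ball_zero_iff]
    exact (hr w (hi hw)).trans_lt hr1
  have hΦ : DifferentiableOn ℂ (fun w => Complex.exp (-K w)) (ball (z i) ε) :=
    (hKd.mono hsub).neg.cexp
  have hmax : IsMaxOn (norm ∘ fun w => Complex.exp (-K w)) (ball (z i) ε) (z i) := by
    intro w hw
    simp only [Function.comp_apply, Set.mem_ofPred_eq, Complex.norm_exp, neg_re, hUl0]
    apply Real.exp_le_exp.mpr
    have := hU0 w (hi hw)
    linarith
  have heq := Complex.norm_eqOn_of_isPreconnected_of_isMaxOn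
    (convex_ball (z i) ε).isPreconnected isOpen_ball hΦ (mem_ball_self hε) hmax
  intro l hl
  have := heq hl
  simp only [Function.comp_apply, Function.const_apply, Complex.norm_exp, neg_re, hUl0] at this
  have h2 := Real.exp_injective this
  have h3 : (K l).re = 0 := by linarith
  rw [hrel l (hr _ (hi hl)), h3, mul_zero]

end

lemma kl_inj {w w' : ℂ} (hw : ‖w‖ < 1) (hw' : ‖w'‖ < 1) (h : kl w = kl w') : w = w' := by
  have h1 : (0 : ℝ) < 1 + ‖w‖ ^ 2 := by positivity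
  have h2 : (0 : ℝ) < 1 + ‖w'‖ ^ 2 := by positivity
  have h3 : ‖w‖ / (1 + ‖w‖ ^ 2) = ‖w'‖ / (1 + ‖w'‖ ^ 2) := by
    have := congrArg norm h
    unfold kl at this
    rwa [norm_div, norm_div, norm_real, norm_real, Real.norm_eq_abs, Real.norm_eq_abs, abs_of_pos h1,
      abs_of_pos h2] at this
  have h4 : ‖w‖ = ‖w'‖ := by
    rw [div_eq_div_iff h1.ne' h2.ne'] at h3
    have h5 : (‖w‖ - ‖w'‖) * (1 - ‖w‖ * ‖w'‖) = 0 := by linear_combination h3
    rcases mul_eq_zero.mp h5 with h | h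
    · linarith
    · nlinarith [norm_nonneg w, norm_nonneg w']
  unfold kl at h
  rw [h4] at h
  have h5 : (((1 + ‖w'‖ ^ 2 : ℝ)) : ℂ) ≠ 0 := by exact_mod_cast h2.ne'
  field_simp at h
  exact h

section
variable {m : ℕ} {r : ℝ} (hr0 : 0 < r) (hr1 : r < 1) {f : ℂ → ℂ} (hf : DifferentiableOn ℂ f (ball 0 1))
include hr0 hr1 hf

/-- rigidity: unless all roots coincide in one point of the boundary, equality forces `f u = M v`. -/
theorem rigid {K : Set ℂ} (hKr : K ⊆ closedBall 0 r) (hconv : Convex ℝ (kl '' K)) {M : ℝ}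
    (hdom : ∀ z : Fin (m + 1) → ℂ, (∀ k, z k ∈ K) → ∀ D : Model r z, ‖fc f D.T‖ ≤ M)
    (u v : Fin (m + 1) → ℂ) {z : Fin (m + 1) → ℂ} (hz : ∀ k, z k ∈ K) (h0 : DZ r f M u v z = 0)
    (hnot : (∃ i j, z i ≠ z j) ∨ ∃ i, z i ∈ interior K) :
    ∀ ζ ∈ ball (0 : ℂ) 1, f ζ * pol u ζ = M * pol v ζ := by
  have hr : ∀ w ∈ K, ‖w‖ ≤ r := fun w hw => mem_closedBall_zero_iff.mp (hKr hw)
  have hpos : ∀ z : Fin (m + 1) → ℂ, (∀ k, z k ∈ K) → 0 ≤ DZ r f M u v z := by
    intro z hz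
    have hz' : ∀ k, ‖z k‖ ≤ r := fun k => hr _ (hz k)
    obtain ⟨D⟩ := exists_model hr0 hr1 z hz'
    exact D.DZ_nonneg hr0 hr1 hf hz' (hdom z hz D) u v
  have hzero : ∀ z : Fin (m + 1) → ℂ, (∀ k, z k ∈ K) → DZ r f M u v z = 0 → ∀ j,
      f (z j) * pol u (z j) = M * pol v (z j) := by
    intro z hz h j
    have hz' : ∀ k, ‖z k‖ ≤ r := fun k => hr _ (hz k)
    obtain ⟨D⟩ := exists_model hr0 hr1 z hz'
    exact D.DZ_zero hr0 hr1 hf hz' (hdom z hz D) h j
  have hd1 : DifferentiableOn ℂ (fun ζ => f ζ * pol u ζ) (ball 0 1) := by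
    apply hf.mul
    unfold pol
    fun_prop
  have hd2 : DifferentiableOn ℂ (fun ζ => (M : ℂ) * pol v ζ) (ball 0 1) := by
    unfold pol
    fun_prop
  rcases hnot with ⟨i, j, hij⟩ | ⟨i, hi⟩
  · have hij' : i ≠ j := fun h => hij (by rw [h])
    obtain ⟨w, hw⟩ := merge_seq hr0 hr1 hf hKr hconv M u v hpos hz h0 hij'
    have hB : Bz z j - Bz z i ≠ 0 := by
      intro h
      have h1 : kl (z j) = kl (z i) := sub_eq_zero.mp h
      exact hij (kl_inj ((hr _ (hz j)).trans_lt hr1) ((hr _ (hz i)).trans_lt hr1) h1).symm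
    have hinj : Function.Injective w := by
      intro k k' hkk
      have h1 := (hw k).2.1
      have h2 := (hw k').2.1
      rw [hkk, h2] at h1
      have h3 : (((1 / 2 : ℝ) ^ (k' + 1) : ℝ) : ℂ) = ((1 / 2 : ℝ) ^ (k + 1) : ℝ) := by
        apply mul_right_cancel₀ hB
        linear_combination h1
      have h4 : ((1 / 2 : ℝ) ^ (k' + 1)) = (1 / 2 : ℝ) ^ (k + 1) := by exact_mod_cast h3
      have h5 := pow_right_injective₀ (by norm_num : (0 : ℝ) < 1 / 2) (by norm_num) h4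
      omega
    exact eqOn_of_infinite hd1 hd2 (Set.infinite_range_of_injective hinj) hr1
      (by rintro _ ⟨k, rfl⟩; exact hKr (hw k).1)
      (by
        rintro _ ⟨k, rfl⟩
        have h1 := hzero _ (update_mem hz j (hw k).1) (hw k).2.2 j
        rwa [Function.update_self] at h1)
  · obtain ⟨ε, hε, hball⟩ := Metric.isOpen_iff.mp isOpen_interior (z i) hi
    have hball' : ball (z i) ε ⊆ K := hball.trans interior_subset
    have h1 := radial_all hr0 hr1 hf hKr M u v hpos hz h0 hε hball'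
    have hinf : (ball (z i) ε).Infinite := infinite_of_mem_nhds (z i) (ball_mem_nhds (z i) hε)
    exact eqOn_of_infinite hd1 hd2 hinf hr1 (hball'.trans hKr) (by
      intro l hl
      have h2 := hzero _ (update_mem hz i (hball' hl)) (h1 l hl) i
      rwa [Function.update_self] at h2)

omit hr0 hr1 hf in
lemma DZ_rv (M : ℝ) (u v z : Fin (m + 1) → ℂ) : DZ r f M (rv v) (rv u) z = DZ r f M u v z := by
  have h1 : ∀ ζ : ℂ, ‖ζ‖ = 1 → gq (rv v) (rv u) ζ = gq u v ζ := by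
    intro ζ hζ
    unfold gq
    rw [pol_rv v hζ, pol_rv u hζ, norm_mul, norm_mul, norm_pow, hζ, one_pow, RCLike.norm_conj,
      RCLike.norm_conj]
    ring
  have h2 : ∀ (F : ℂ → ℂ) (ζ : ℂ), ‖ζ‖ = 1 → jq F (rv v) (rv u) ζ = jq F u v ζ := by
    intro F ζ hζ
    unfold jq
    rw [pol_rv v hζ, pol_rv u hζ, map_mul, map_pow, Complex.conj_conj]
    have h3 : conj ζ ^ m * ζ ^ m = 1 := by rw [← mul_pow, circle_inv hζ, one_pow]
    congr 1
    linear_combination (F ζ * conj (pol v ζ) * pol u ζ) * h3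
  have h3 : Hf (rho r) (gq (rv v) (rv u)) (Bz z) = Hf (rho r) (gq u v) (Bz z) :=
    av_congr (fun ζ hζ => by rw [h1 ζ hζ])
  have h4 : Hf (rho r) (jq (fun ζ => (ip f z).eval ζ) (rv v) (rv u)) (Bz z) =
      Hf (rho r) (jq (fun ζ => (ip f z).eval ζ) u v) (Bz z) :=
    av_congr (fun ζ hζ => by rw [h2 _ ζ hζ])
  unfold DZ
  rw [h3, h4]

end

end Pool.Agent.KS6_83.PT
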