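import Pool.Agent.KS6_83.PT.D

set_option autoImplicit false
open Complex Metric Set Polynomial Filter Topology
open scoped ComplexConjugate

namespace Pool.Agent.KS6_83.PT

open Pool.Agent.Helper654.Ptak hiding lp

/-- finite Blaschke product with zeros `s` -/
noncomputable def bla (s : Multiset ℂ) (z : ℂ) : ℂ := (s.map (fun b => (z - b) / (1 - conj b * z))).prod

/-- its numerator -/
noncomputable def BP (s : Multiset ℂ) : ℂ[X] := (s.map (fun b => X - C b)).prod

/-- its denominator -/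
noncomputable def BQ (s : Multiset ℂ) : ℂ[X] := (s.map (fun b => 1 - C (conj b) * X)).prod

lemma BP_cons (b : ℂ) (s : Multiset ℂ) : BP (b ::ₘ s) = (X - C b) * BP s := by
  unfold BP; rw [Multiset.map_cons, Multiset.prod_cons]

lemma BQ_cons (b : ℂ) (s : Multiset ℂ) : BQ (b ::ₘ s) = (1 - C (conj b) * X) * BQ s := by
  unfold BQ; rw [Multiset.map_cons, Multiset.prod_cons]

lemma BP_natDegree (s : Multiset ℂ) : (BP s).natDegree = s.card := by
  unfold BP
  exact natDegree_multiset_prod_X_sub_C_eq_card s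

lemma BP_ne (s : Multiset ℂ) : BP s ≠ 0 := by
  unfold BP
  exact (monic_multiset_prod_of_monic _ _ (fun b _ => monic_X_sub_C b)).ne_zero

lemma BQ_natDegree (s : Multiset ℂ) : (BQ s).natDegree ≤ s.card := by
  induction s using Multiset.induction_on with
  | empty => simp [BQ]
  | cons b s ih =>
    rw [BQ_cons, Multiset.card_cons]
    refine natDegree_mul_le.trans ?_
    have h1 : (1 - C (conj b) * X : ℂ[X]).natDegree ≤ 1 := by
      refine (natDegree_sub_le _ _).trans ?_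
      rw [natDegree_one]
      simp only [zero_le, sup_of_le_right]
      exact (natDegree_C_mul_le _ _).trans natDegree_X_le
    omega

lemma circle_norm {b ζ : ℂ} (hζ : ‖ζ‖ = 1) : ‖ζ - b‖ = ‖1 - conj b * ζ‖ := by
  have h1 : 1 - conj b * ζ = ζ * conj (ζ - b) := by
    rw [map_sub, mul_sub, mul_comm ζ (conj ζ), circle_inv hζ]
    ring
  rw [h1, norm_mul, hζ, one_mul, RCLike.norm_conj]

lemma BP_BQ_norm (s : Multiset ℂ) {ζ : ℂ} (hζ : ‖ζ‖ = 1) : ‖(BP s).eval ζ‖ = ‖(BQ s).eval ζ‖ := by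
  induction s using Multiset.induction_on with
  | empty => simp [BP, BQ]
  | cons b s ih =>
    rw [BP_cons, BQ_cons, eval_mul, eval_mul, norm_mul, norm_mul, ih]
    congr 1
    simp only [eval_sub, eval_X, eval_C, eval_one, eval_mul]
    exact circle_norm hζ

lemma BQ_eval_ne (s : Multiset ℂ) (hs : ∀ b ∈ s, ‖b‖ < 1) {z : ℂ} (hz : ‖z‖ ≤ 1) : (BQ s).eval z ≠ 0 := by
  induction s using Multiset.induction_on with
  | empty => simp [BQ]
  | cons b s ih =>
    rw [BQ_cons, eval_mul]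
    apply mul_ne_zero
    · simp only [eval_sub, eval_X, eval_C, eval_one, eval_mul]
      exact circle_ne (hs b (Multiset.mem_cons_self b s)) hz
    · exact ih (fun b' hb' => hs b' (Multiset.mem_cons_of_mem hb'))

lemma bla_eq (s : Multiset ℂ) (z : ℂ) : bla s z = (BP s).eval z / (BQ s).eval z := by
  induction s using Multiset.induction_on with
  | empty => simp [BP, BQ, bla]
  | cons b s ih =>
    rw [BP_cons, BQ_cons, eval_mul, eval_mul]
    have : bla (b ::ₘ s) z = (z - b) / (1 - conj b * z) * bla s z := by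
      unfold bla; rw [Multiset.map_cons, Multiset.prod_cons]
    rw [this, ih]
    simp only [eval_sub, eval_X, eval_C, eval_one, eval_mul]
    rw [div_mul_div_comm]

lemma circle_ext {φ ψ : ℂ → ℝ} (hφ : Continuous φ) (hψ : Continuous ψ) {b : ℂ} (hb : ‖b‖ = 1)
    (h : ∀ ζ, ‖ζ‖ = 1 → ζ ≠ b → φ ζ = ψ ζ) : φ b = ψ b := by
  have h1 : Tendsto (fun t : ℝ => b * Complex.exp (t * I)) (𝓝[>] 0) (𝓝 b) := by
    have h0 : Continuous fun t : ℝ => b * Complex.exp (t * I) := by fun_prop
    have h2 := h0.tendsto 0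
    simp only [ofReal_zero, zero_mul, Complex.exp_zero, mul_one] at h2
    exact h2.mono_left nhdsWithin_le_nhds
  have h2 : ∀ᶠ t : ℝ in 𝓝[>] (0 : ℝ), φ (b * Complex.exp (t * I)) = ψ (b * Complex.exp (t * I)) := by
    filter_upwards [Ioo_mem_nhdsGT (zero_lt_one (α := ℝ))] with t ht
    apply h
    · rw [norm_mul, hb, Complex.norm_exp_ofReal_mul_I, mul_one]
    · intro h3
      have hb0 : b ≠ 0 := by rintro rfl; simp at hb
      have h4 : Complex.exp (t * I) = 1 := by
        apply mul_left_cancel₀ hb0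
        rw [h3, mul_one]
      have h5 := congrArg Complex.im h4
      rw [Complex.exp_ofReal_mul_I_im, Complex.one_im] at h5
      have h6 : 0 < Real.sin t :=
        Real.sin_pos_of_pos_of_lt_pi ht.1 (by linarith [ht.2, Real.pi_gt_three])
      linarith
  have h3 : Tendsto (fun t : ℝ => φ (b * Complex.exp (t * I))) (𝓝[>] 0) (𝓝 (φ b)) := (hφ.tendsto b).comp h1
  have h4 : Tendsto (fun t : ℝ => ψ (b * Complex.exp (t * I))) (𝓝[>] 0) (𝓝 (ψ b)) := (hψ.tendsto b).comp h1
  exact tendsto_nhds_unique (h3.congr' h2) h4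

lemma const_of_unimod {g : ℂ → ℂ} (hg : DifferentiableOn ℂ g (closedBall 0 1))
    (hne : ∀ z ∈ closedBall (0 : ℂ) 1, g z ≠ 0) {M : ℝ} (hM : 0 < M) (hc : ∀ ζ : ℂ, ‖ζ‖ = 1 → ‖g ζ‖ = M) :
    ∃ c : ℂ, ‖c‖ = M ∧ ∀ z ∈ ball (0 : ℂ) 1, g z = c := by
  have hcl : ∀ {h : ℂ → ℂ}, DifferentiableOn ℂ h (closedBall 0 1) → DiffContOnCl ℂ h (ball 0 1) := by
    intro h hh
    refine ⟨hh.mono ball_subset_closedBall, ?_⟩
    rw [closure_ball (0 : ℂ) one_ne_zero]
    exact hh.continuousOn
  have hfr : ∀ z ∈ frontier (ball (0 : ℂ) 1), ‖z‖ = 1 := by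
    intro z hz
    rw [frontier_ball (0 : ℂ) one_ne_zero] at hz
    simpa using hz
  have hup : ∀ z ∈ ball (0 : ℂ) 1, ‖g z‖ ≤ M := by
    intro z hz
    exact Complex.norm_le_of_forall_mem_frontier_norm_le isBounded_ball (hcl hg)
      (fun w hw => (hc w (hfr w hw)).le) (subset_closure hz)
  have hlo : ∀ z ∈ ball (0 : ℂ) 1, ‖(g z)⁻¹‖ ≤ M⁻¹ := by
    intro z hz
    exact Complex.norm_le_of_forall_mem_frontier_norm_le isBounded_ball (hcl (hg.inv hne))
      (fun w hw => by rw [Pi.inv_apply, norm_inv, hc w (hfr w hw)]) (subset_closure hz)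
  have h0 : (0 : ℂ) ∈ ball (0 : ℂ) 1 := mem_ball_self one_pos
  have hg0 : ‖g 0‖ = M := by
    apply le_antisymm (hup 0 h0)
    have h1 := hlo 0 h0
    rw [norm_inv] at h1
    exact (inv_le_inv₀ (norm_pos_iff.mpr (hne 0 (ball_subset_closedBall h0))) hM).mp h1
  refine ⟨g 0, hg0, ?_⟩
  have hmax : IsMaxOn (norm ∘ g) (ball (0 : ℂ) 1) 0 := by
    intro z hz
    show ‖g z‖ ≤ ‖g 0‖
    rw [hg0]; exact hup z hz
  have := Complex.eqOn_of_isPreconnected_of_isMaxOn_norm (convex_ball (0 : ℂ) 1).isPreconnected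
    isOpen_ball (hg.mono ball_subset_closedBall) h0 hmax
  exact fun z hz => this hz

/-- `f` is a constant times a finite Blaschke product of degree less than `n` -/
def IsScaledBlaschke (n : ℕ) (f : ℂ → ℂ) : Prop :=
  ∃ (c : ℂ) (s : Multiset ℂ), s.card < n ∧ (∀ b ∈ s, ‖b‖ < 1) ∧ ∀ z ∈ ball (0 : ℂ) 1, f z = c * bla s z

lemma blaschke_base {f : ℂ → ℂ} {M : ℝ} (hM : 0 < M) {N : ℕ} (P Q : ℂ[X])
    (hP : ∀ z : ℂ, ‖z‖ ≤ 1 → P.eval z ≠ 0) (hQ : Q.natDegree ≤ N)
    (h1 : ∀ z ∈ ball (0 : ℂ) 1, f z * P.eval z = Q.eval z)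
    (h2 : ∀ ζ : ℂ, ‖ζ‖ = 1 → ‖Q.eval ζ‖ = M * ‖P.eval ζ‖) :
    IsScaledBlaschke (N + 1) f := by
  classical
  have hQc : ∀ ζ : ℂ, ‖ζ‖ = 1 → Q.eval ζ ≠ 0 := by
    intro ζ hζ h
    have h3 := h2 ζ hζ
    rw [h, norm_zero] at h3
    have h4 := norm_pos_iff.mpr (hP ζ hζ.le)
    have h5 : 0 < M * ‖P.eval ζ‖ := by positivity
    linarith
  obtain ⟨s, hs⟩ : ∃ s, s = Q.roots.filter (fun b => ‖b‖ < 1) := ⟨_, rfl⟩
  obtain ⟨t, ht⟩ : ∃ t, t = Q.roots.filter (fun b => ¬ ‖b‖ < 1) := ⟨_, rfl⟩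
  have hst : Q.roots = s + t := by rw [hs, ht]; exact (Multiset.filter_add_not _ _).symm
  have hprod : Q = C Q.leadingCoeff * (BP s * BP t) := by
    conv_lhs => rw [(IsAlgClosed.splits Q).eq_prod_roots]
    unfold BP
    rw [hst, Multiset.map_add, Multiset.prod_add]
  have hQ0 : Q ≠ 0 := by
    intro h
    exact hQc 1 (by simp) (by rw [h, eval_zero])
  have hlc : Q.leadingCoeff ≠ 0 := leadingCoeff_ne_zero.mpr hQ0
  have hs1 : ∀ b ∈ s, ‖b‖ < 1 := by
    intro b hb
    rw [hs] at hb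
    exact (Multiset.mem_filter.mp hb).2
  have hcard : s.card ≤ N := by
    have h3 : s.card ≤ Q.roots.card := by rw [hst, Multiset.card_add]; omega
    exact (h3.trans (card_roots' Q)).trans hQ
  have hBPt : ∀ z : ℂ, ‖z‖ ≤ 1 → (BP t).eval z ≠ 0 := by
    intro z hz h
    have h3 : z ∈ (BP t).roots := (mem_roots (BP_ne t)).mpr h
    unfold BP at h3
    rw [roots_multiset_prod_X_sub_C] at h3
    rw [ht] at h3
    obtain ⟨h4, h5⟩ := Multiset.mem_filter.mp h3
    have h6 : ‖z‖ = 1 := le_antisymm hz (not_lt.mp h5)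
    exact hQc z h6 (mem_roots'.mp h4).2
  obtain ⟨g, hg⟩ : ∃ g : ℂ → ℂ, g = fun z => (C Q.leadingCoeff * (BQ s * BP t)).eval z / P.eval z := ⟨_, rfl⟩
  have hgd : DifferentiableOn ℂ g (closedBall 0 1) := by
    rw [hg]
    apply DifferentiableOn.div
    · exact (Polynomial.differentiable _).differentiableOn
    · exact (Polynomial.differentiable _).differentiableOn
    · intro z hz
      exact hP z (mem_closedBall_zero_iff.mp hz)
  have hgne : ∀ z ∈ closedBall (0 : ℂ) 1, g z ≠ 0 := by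
    intro z hz
    have hz1 := mem_closedBall_zero_iff.mp hz
    rw [hg]
    apply div_ne_zero _ (hP z hz1)
    rw [eval_mul, eval_mul, eval_C]
    exact mul_ne_zero hlc (mul_ne_zero (BQ_eval_ne s hs1 hz1) (hBPt z hz1))
  have hgc : ∀ ζ : ℂ, ‖ζ‖ = 1 → ‖g ζ‖ = M := by
    intro ζ hζ
    have h3 := h2 ζ hζ
    have h4 : ‖Q.eval ζ‖ = ‖(C Q.leadingCoeff * (BQ s * BP t)).eval ζ‖ := by
      conv_lhs => rw [hprod]
      rw [eval_mul, eval_mul, eval_mul, eval_mul, norm_mul, norm_mul, norm_mul, norm_mul, BP_BQ_norm s hζ]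
    rw [hg]
    simp only
    rw [norm_div, ← h4, h3, mul_div_assoc, div_self (norm_pos_iff.mpr (hP ζ hζ.le)).ne', mul_one]
  obtain ⟨c, _, hc⟩ := const_of_unimod hgd hgne hM hgc
  refine ⟨c, s, Nat.lt_succ_of_le hcard, hs1, ?_⟩
  intro z hz
  have hz1 := (mem_ball_zero_iff.mp hz).le
  have h5 := hc z hz
  rw [hg] at h5
  simp only [eval_mul, eval_C] at h5
  have h6 := h1 z hz
  have h7 : Q.eval z = Q.leadingCoeff * ((BP s).eval z * (BP t).eval z) := by
    conv_lhs => rw [hprod]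
    rw [eval_mul, eval_mul, eval_C]
  have hPz := hP z hz1
  have hBQ := BQ_eval_ne s hs1 hz1
  rw [bla_eq, mul_div_assoc', eq_div_iff hBQ]
  rw [div_eq_iff hPz] at h5
  apply mul_right_cancel₀ hPz
  linear_combination (BQ s).eval z * h6 + (BQ s).eval z * h7 + (BP s).eval z * h5

theorem blaschke_form {f : ℂ → ℂ} (hf : DifferentiableOn ℂ f (ball 0 1)) {M : ℝ} (hM : 0 < M) {N : ℕ} (d : ℕ) :
    ∀ P Q : ℂ[X], P ≠ 0 → P.natDegree ≤ d → Q.natDegree ≤ N →
    (∀ z ∈ ball (0 : ℂ) 1, f z * P.eval z = Q.eval z) →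
    (∀ ζ : ℂ, ‖ζ‖ = 1 → ‖Q.eval ζ‖ = M * ‖P.eval ζ‖) → IsScaledBlaschke (N + 1) f := by
  induction d with
  | zero =>
    intro P Q hP0 hPd hQ h1 h2
    apply blaschke_base hM P Q _ hQ h1 h2
    intro z _ h
    have h3 : P = C (P.coeff 0) := eq_C_of_natDegree_le_zero hPd
    rw [h3, eval_C] at h
    rw [h, C_0] at h3
    exact hP0 h3
  | succ d ih =>
    intro P Q hP0 hPd hQ h1 h2
    by_cases hroot : ∃ b : ℂ, ‖b‖ ≤ 1 ∧ P.eval b = 0
    · obtain ⟨b, hb, hPb⟩ := hroot
      have hQb : Q.eval b = 0 := by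
        rcases eq_or_lt_of_le hb with h | h
        · have h3 := h2 b h
          rw [hPb, norm_zero, mul_zero, norm_eq_zero] at h3
          exact h3
        · have h3 := h1 b (mem_ball_zero_iff.mpr h)
          rw [hPb, mul_zero] at h3
          exact h3.symm
      obtain ⟨P', hP'⟩ := dvd_iff_isRoot.mpr hPb
      obtain ⟨Q', hQ'⟩ := dvd_iff_isRoot.mpr hQb
      have hP'0 : P' ≠ 0 := by rintro rfl; rw [mul_zero] at hP'; exact hP0 hP'
      have hPd' : P'.natDegree ≤ d := by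
        have h3 : P.natDegree = 1 + P'.natDegree := by
          rw [hP', natDegree_mul (X_sub_C_ne_zero b) hP'0, natDegree_X_sub_C]
        omega
      have hQd' : Q'.natDegree ≤ N := by
        by_cases hQ0 : Q' = 0
        · rw [hQ0, natDegree_zero]; exact Nat.zero_le _
        · have h3 : Q.natDegree = 1 + Q'.natDegree := by
            rw [hQ', natDegree_mul (X_sub_C_ne_zero b) hQ0, natDegree_X_sub_C]
          omega
      have hoff : ∀ z ∈ ball (0 : ℂ) 1, z ≠ b → f z * P'.eval z = Q'.eval z := by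
        intro z hz hzb
        have h3 := h1 z hz
        rw [hP', hQ', eval_mul, eval_mul, eval_sub, eval_X, eval_C] at h3
        have h4 : z - b ≠ 0 := sub_ne_zero.mpr hzb
        apply mul_left_cancel₀ h4
        linear_combination h3
      have hd1 : DifferentiableOn ℂ (fun z => f z * P'.eval z) (ball 0 1) :=
        hf.mul (Polynomial.differentiable _).differentiableOn
      have hd2 : DifferentiableOn ℂ (fun z => Q'.eval z) (ball 0 1) :=
        (Polynomial.differentiable _).differentiableOn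
      have hinf : (closedBall (0 : ℂ) (1 / 2) \ {b}).Infinite :=
        (infinite_of_mem_nhds (0 : ℂ) (closedBall_mem_nhds (0 : ℂ) (by norm_num))).sdiff (Set.finite_singleton b)
      have h3 := eqOn_of_infinite hd1 hd2 hinf (r := 1 / 2) (by norm_num) Set.sdiff_subset (by
        intro z hz
        exact hoff z (closedBall_subset_ball (by norm_num) hz.1) hz.2)
      apply ih P' Q' hP'0 hPd' hQd' (fun z hz => h3 hz)
      intro ζ hζ
      have hne : ∀ ζ : ℂ, ‖ζ‖ = 1 → ζ ≠ b → ‖Q'.eval ζ‖ = M * ‖P'.eval ζ‖ := by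
        intro ζ hζ hζb
        have h4 := h2 ζ hζ
        rw [hP', hQ', eval_mul, eval_mul, eval_sub, eval_X, eval_C, norm_mul, norm_mul] at h4
        have h5 : ‖ζ - b‖ ≠ 0 := (norm_pos_iff.mpr (sub_ne_zero.mpr hζb)).ne'
        apply mul_left_cancel₀ h5
        linear_combination h4
      by_cases hζb : ζ = b
      · subst hζb
        exact circle_ext (φ := fun w => ‖Q'.eval w‖) (ψ := fun w => M * ‖P'.eval w‖)
          Q'.continuous.norm (continuous_const.mul P'.continuous.norm) hζ hne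
      · exact hne ζ hζ hζb
    · push Not at hroot
      exact blaschke_base hM P Q hroot hQ h1 h2

lemma toP_natDegree {m : ℕ} (u : Fin (m + 1) → ℂ) : (toP u).natDegree ≤ m := by
  by_cases h : toP u = 0
  · rw [h, natDegree_zero]; exact Nat.zero_le _
  · have h1 := toP_degree u
    rw [degree_eq_natDegree h] at h1
    have h2 : (toP u).natDegree < m + 1 := by exact_mod_cast h1
    omega

lemma toP_ne {m : ℕ} {u : Fin (m + 1) → ℂ} (hu : u ≠ 0) : toP u ≠ 0 := by
  intro h
  apply hu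
  ext i
  rw [← toP_coeff u i, h]
  simp

/-- from the two relations to the Blaschke form -/
theorem scaled_of_pair {m : ℕ} {f : ℂ → ℂ} (hf : DifferentiableOn ℂ f (ball 0 1)) {M : ℝ} (hM : 0 ≤ M)
    {u v : Fin (m + 1) → ℂ} (hu : u ≠ 0)
    (h1 : ∀ ζ ∈ ball (0 : ℂ) 1, f ζ * pol u ζ = M * pol v ζ)
    (h2 : ∀ ζ ∈ ball (0 : ℂ) 1, f ζ * pol (rv v) ζ = M * pol (rv u) ζ) : IsScaledBlaschke (m + 1) f := by
  rcases eq_or_lt_of_le hM with h0 | h0
  · -- `M = 0`
    rw [← h0] at h1
    refine ⟨0, 0, by simp, by simp, ?_⟩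
    have hfin : {z : ℂ | (toP u).eval z = 0}.Finite := by
      have h3 := (toP u).roots.toFinset.finite_toSet
      apply h3.subset
      intro z hz
      simp only [Finset.mem_coe, Multiset.mem_toFinset]
      exact (mem_roots (toP_ne hu)).mpr hz
    have hinf : (closedBall (0 : ℂ) (1 / 2) \ {z : ℂ | (toP u).eval z = 0}).Infinite :=
      (infinite_of_mem_nhds (0 : ℂ) (closedBall_mem_nhds (0 : ℂ) (by norm_num))).sdiff hfin
    have h3 := eqOn_of_infinite hf (G := fun _ => 0) (differentiableOn_const 0) hinf (r := 1 / 2) (by norm_num)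
      Set.sdiff_subset (by
        intro z hz
        have h4 := h1 z (closedBall_subset_ball (by norm_num) hz.1)
        rw [ofReal_zero, zero_mul] at h4
        rcases mul_eq_zero.mp h4 with h | h
        · exact h
        · exact absurd (by rw [← toP_eval] at h; exact h) hz.2)
    intro z hz
    rw [h3 hz]
    simp
  · have hMC : (M : ℂ) ≠ 0 := by exact_mod_cast h0.ne'
    have hpoly : toP u * toP (rv u) = toP v * toP (rv v) := by
      apply Polynomial.eq_of_infinite_eval_eq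
      apply (infinite_of_mem_nhds (0 : ℂ) (ball_mem_nhds (0 : ℂ) one_pos)).mono
      intro z hz
      show (toP u * toP (rv u)).eval z = (toP v * toP (rv v)).eval z
      rw [eval_mul, eval_mul, toP_eval, toP_eval, toP_eval, toP_eval]
      apply mul_left_cancel₀ hMC
      linear_combination (-pol u z) * h2 z hz + pol (rv v) z * h1 z hz
    have hcirc : ∀ ζ : ℂ, ‖ζ‖ = 1 → ‖pol u ζ‖ = ‖pol v ζ‖ := by
      intro ζ hζ
      have h3 := congrArg (eval ζ) hpoly
      rw [eval_mul, eval_mul, toP_eval, toP_eval, toP_eval, toP_eval, pol_rv u hζ, pol_rv v hζ] at h3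
      have h4 := congrArg norm h3
      rw [norm_mul, norm_mul, norm_mul, norm_mul, norm_pow, hζ, one_pow, RCLike.norm_conj,
        RCLike.norm_conj] at h4
      have h5 := norm_nonneg (pol u ζ)
      have h6 := norm_nonneg (pol v ζ)
      nlinarith
    apply blaschke_form hf h0 m (toP u) (C (M : ℂ) * toP v) (toP_ne hu) (toP_natDegree u)
      ((natDegree_C_mul_le _ _).trans (toP_natDegree v))
    · intro z hz
      rw [eval_mul, eval_C, toP_eval, toP_eval]
      exact h1 z hz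
    · intro ζ hζ
      rw [eval_mul, eval_C, toP_eval, toP_eval, norm_mul, norm_real, Real.norm_eq_abs, abs_of_pos h0,
        hcirc ζ hζ]

end Pool.Agent.KS6_83.PT
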