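import Pool.Agent.KS6_83.PT.E

set_option autoImplicit false
open Complex Metric Set Polynomial Filter Topology
open scoped ComplexConjugate

namespace Pool.Agent.KS6_83.PT

open Pool.Agent.Helper654.Ptak hiding lp

lemma bla_norm_le (s : Multiset ℂ) (hs : ∀ b ∈ s, ‖b‖ < 1) {z : ℂ} (hz : ‖z‖ < 1) : ‖bla s z‖ ≤ 1 := by
  induction s using Multiset.induction_on with
  | empty => simp [bla]
  | cons b s ih =>
    have : bla (b ::ₘ s) z = (z - b) / (1 - conj b * z) * bla s z := by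
      unfold bla; rw [Multiset.map_cons, Multiset.prod_cons]
    rw [this, norm_mul]
    have hb := hs b (Multiset.mem_cons_self b s)
    have h1 := mobius_strict b hb (1 : ℂ) z (by simpa using hz)
    simp only [smul_eq_mul, mul_one] at h1
    have h2 : ‖(z - b) / (1 - conj b * z)‖ ≤ 1 := by
      rw [norm_div, div_le_one (norm_pos_iff.mpr (circle_ne hb hz.le))]
      exact h1.le
    have h3 := ih (fun b' hb' => hs b' (Multiset.mem_cons_of_mem hb'))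
    exact mul_le_one₀ h2 (norm_nonneg _) h3

section
variable {m : ℕ} {r : ℝ} (hr0 : 0 < r) (hr1 : r < 1) {f : ℂ → ℂ} (hf : DifferentiableOn ℂ f (ball 0 1))
include hr0 hr1 hf

/-- von Neumann's inequality on the class -/
lemma fc_le {p : ℂ[X]} (T : EuclideanSpace ℂ (Fin (m + 1)) →L[ℂ] EuclideanSpace ℂ (Fin (m + 1)))
    (hT : ‖T‖ ≤ 1) (hp : ∀ z, p.eval z = 0 → ‖z‖ ≤ r) (hpT : aeval T p = 0) {γ : ℝ}
    (h : ∀ z ∈ ball (0 : ℂ) 1, ‖f z‖ ≤ γ) : ‖fc f T‖ ≤ γ := by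
  have h1 := lemmaE hr0 hr1 hf (g := fun _ => 0) (differentiableOn_const 0) p 0 T hT hp hpT γ (by
    intro z hz
    rw [eval_zero, mul_zero, sub_zero, sub_zero]
    exact h z (mem_ball_zero_iff.mpr hz))
  rwa [map_zero, sub_zero] at h1

lemma Model.scaled {z : Fin (m + 1) → ℂ} (hz : ∀ j, ‖z j‖ ≤ r) (D : Model r z) {c : ℂ} {s : Multiset ℂ}
    (hs : s.card < m + 1) (hs1 : ∀ b ∈ s, ‖b‖ < 1) (hfs : ∀ z ∈ ball (0 : ℂ) 1, f z = c * bla s z) :
    ‖fc f D.T‖ = ‖c‖ := by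
  have hz1 : ∀ j, ‖z j‖ < 1 := fun j => (hz j).trans_lt hr1
  apply le_antisymm
  · apply fc_le hr0 hr1 hf D.T D.hT (PZ_root_le hz) D.hp
    intro w hw
    rw [hfs w hw, norm_mul]
    have := bla_norm_le s hs1 (mem_ball_zero_iff.mp hw)
    exact mul_le_of_le_one_right (norm_nonneg c) this
  · have hI := ip_spec hf z hz1
    have hfc := fc_eq hr0 hr1 hf hI D.T D.hT (PZ_root_le hz) D.hp
    obtain ⟨q, hq⟩ : ∃ q, q = ip f z := ⟨_, rfl⟩
    rw [← hq] at hI hfc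
    obtain ⟨g, hg, hI⟩ := hI
    obtain ⟨F, hF⟩ : ∃ F : ℂ[X], F = q * BQ s - C c * BP s := ⟨_, rfl⟩
    have hIF : Interp (fun ζ => F.eval ζ) (PZ z) 0 := by
      refine ⟨fun ζ => - g ζ * (BQ s).eval ζ, hg.neg.mul (Polynomial.differentiable _).differentiableOn, ?_⟩
      intro ζ hζ
      have h1 := hI ζ hζ
      have h2 := hfs ζ hζ
      have hne := BQ_eval_ne s hs1 (mem_ball_zero_iff.mp hζ).le
      rw [bla_eq, mul_div_assoc', eq_div_iff hne] at h2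
      rw [hF]
      simp only [eval_sub, eval_mul, eval_C, eval_zero]
      linear_combination (-(BQ s).eval ζ) * h1 + h2
    have h1 : aeval D.T F = 0 := by
      have h2 := fc_eq hr0 hr1 (F.differentiable.differentiableOn) hIF D.T D.hT (PZ_root_le hz) D.hp
      rw [map_zero] at h2
      rw [← fc_poly F D.T]
      exact h2
    have h2 : D.Ψ (q * BQ s) = c • D.Ψ (BP s) := by
      have h3 : D.Ψ F = 0 := by
        have h4 := D.hΨ F 1
        rw [h1, mul_one] at h4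
        rw [← h4]; rfl
      rw [hF, map_sub, ← smul_eq_C_mul, map_smul] at h3
      exact sub_eq_zero.mp h3
    have hself : ∀ P : ℂ[X], P.degree < (m + 1 : ℕ) →
        ‖D.Ψ P‖ ^ 2 = av (fun ζ => ‖P.eval ζ‖ ^ 2 * W (rho r) (Bz z) ζ) := by
      intro P hP
      have h3 := D.hin P P hP
      rw [ipw_self (W_cont1 (rho_lt hr0 hr1) _)] at h3
      have h4 : ((‖D.Ψ P‖ ^ 2 : ℝ) : ℂ) = ((av (fun ζ => ‖P.eval ζ‖ ^ 2 * W (rho r) (Bz z) ζ) : ℝ) : ℂ) := by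
        rw [← h3, inner_self_eq_norm_sq_to_K]
        push_cast
        rfl
      exact Complex.ofReal_injective h4
    have hBP : (BP s).degree < (m + 1 : ℕ) := by
      rw [degree_eq_natDegree (BP_ne s), BP_natDegree]
      exact_mod_cast hs
    have hBQ0 : BQ s ≠ 0 := by
      intro h
      exact BQ_eval_ne s hs1 (z := 0) (by simp) (by rw [h, eval_zero])
    have hBQ : (BQ s).degree < (m + 1 : ℕ) := by
      rw [degree_eq_natDegree hBQ0]
      have := BQ_natDegree s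
      exact_mod_cast this.trans_lt hs
    have h3 : ‖D.Ψ (BP s)‖ = ‖D.Ψ (BQ s)‖ := by
      have h4 : ‖D.Ψ (BP s)‖ ^ 2 = ‖D.Ψ (BQ s)‖ ^ 2 := by
        rw [hself _ hBP, hself _ hBQ]
        apply av_congr
        intro ζ hζ
        rw [BP_BQ_norm s hζ]
      exact (pow_left_inj₀ (norm_nonneg _) (norm_nonneg _) (by norm_num)).mp h4
    have h4 : 0 < ‖D.Ψ (BQ s)‖ := by
      rw [norm_pos_iff]
      intro h
      obtain ⟨ev, hev⟩ := D.hev 0
      have h5 := hev (BQ s)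
      rw [h, map_zero] at h5
      exact BQ_eval_ne s hs1 (hz1 0).le h5.symm
    have h5 : ‖fc f D.T (D.Ψ (BQ s))‖ = ‖c‖ * ‖D.Ψ (BQ s)‖ := by
      rw [hfc, D.hΨ, h2, norm_smul, h3]
    have h6 := (fc f D.T).le_opNorm (D.Ψ (BQ s))
    rw [h5] at h6
    exact le_of_mul_le_mul_right h6 h4

/-- the model operator gives the largest norm -/
lemma Model.fc_dom {z : Fin (m + 1) → ℂ} (hz : ∀ j, ‖z j‖ ≤ r) (D : Model r z)
    (T : EuclideanSpace ℂ (Fin (m + 1)) →L[ℂ] EuclideanSpace ℂ (Fin (m + 1)))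
    (hT : ‖T‖ ≤ 1) (hp : aeval T (PZ z) = 0) : ‖fc f T‖ ≤ ‖fc f D.T‖ := by
  have hI := ip_spec hf z (fun j => (hz j).trans_lt hr1)
  rw [fc_eq hr0 hr1 hf hI T hT (PZ_root_le hz) hp, fc_eq hr0 hr1 hf hI D.T D.hT (PZ_root_le hz) D.hp]
  exact D.dom hr0 hr1 hz T hT hp _

/-- the dichotomy -/
theorem dichotomy {K : Set ℂ} (hKr : K ⊆ closedBall 0 r) (hconv : Convex ℝ (kl '' K)) (hKcl : IsClosed K)
    {z : Fin (m + 1) → ℂ} (hz : ∀ k, z k ∈ K) (D : Model r z)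
    (hdom : ∀ z' : Fin (m + 1) → ℂ, (∀ k, z' k ∈ K) → ∀ D' : Model r z', ‖fc f D'.T‖ ≤ ‖fc f D.T‖) :
    IsScaledBlaschke (m + 1) f ∨ ∃ a ∈ frontier K, ∀ k, z k = a := by
  by_cases hnot : (∃ i j, z i ≠ z j) ∨ ∃ i, z i ∈ interior K
  · left
    have hr : ∀ w ∈ K, ‖w‖ ≤ r := fun w hw => mem_closedBall_zero_iff.mp (hKr hw)
    obtain ⟨u, v, hu, h0⟩ := D.DZ_exists hr0 hr1 hf (fun k => hr _ (hz k))
    have h1 := rigid hr0 hr1 hf hKr hconv hdom u v hz h0 hnot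
    have h2 := rigid hr0 hr1 hf hKr hconv hdom (rv v) (rv u) hz (by rw [DZ_rv]; exact h0) hnot
    exact scaled_of_pair hf (norm_nonneg _) hu h1 h2
  · right
    push Not at hnot
    refine ⟨z 0, ?_, fun k => hnot.1 k 0⟩
    rw [hKcl.frontier_eq]
    exact ⟨hz 0, hnot.2 0⟩

end

lemma aeval_PZ_cont {n : ℕ} {E : Type*} [NormedAddCommGroup E] [NormedSpace ℂ E] :
    Continuous (fun p : (Fin n → ℂ) × (E →L[ℂ] E) => aeval p.2 (PZ p.1)) := by
  have h1 : (fun p : (Fin n → ℂ) × (E →L[ℂ] E) => aeval p.2 (PZ p.1)) =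
      fun p => ((List.finRange n).map (fun j => p.2 - p.1 j • (1 : E →L[ℂ] E))).prod := by
    ext1 p
    unfold PZ
    rw [Fin.prod_univ_def, map_list_prod, List.map_map]
    congr 1
    apply List.map_congr_left
    intro j _
    simp only [Function.comp_apply, map_sub, aeval_X, aeval_C, Algebra.algebraMap_eq_smul_one]
  rw [h1]
  apply continuous_list_prod
  intro j _
  have h2 : Continuous fun p : (Fin n → ℂ) × (E →L[ℂ] E) => p.1 j := by fun_prop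
  exact continuous_snd.sub (h2.smul continuous_const)

section
variable {m : ℕ} {r : ℝ} (hr0 : 0 < r) (hr1 : r < 1) {f : ℂ → ℂ} (hf : DifferentiableOn ℂ f (ball 0 1))
include hr0 hr1 hf

/-- existence of a maximiser over a compact set of roots -/
theorem exists_maximiser {K : Set ℂ} (hKr : K ⊆ closedBall 0 r) (hK : IsCompact K) (hne : K.Nonempty) :
    ∃ z : Fin (m + 1) → ℂ, (∀ k, z k ∈ K) ∧ ∀ D : Model r z, ∀ z' : Fin (m + 1) → ℂ, (∀ k, z' k ∈ K) →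
      ∀ D' : Model r z', ‖fc f D'.T‖ ≤ ‖fc f D.T‖ := by
  have hr : ∀ w ∈ K, ‖w‖ ≤ r := fun w hw => mem_closedBall_zero_iff.mp (hKr hw)
  obtain ⟨s, hrs, _, Kc, hKc⟩ := tay_bound hr0 hr1 hf
  obtain ⟨S, hS⟩ : ∃ S : Set ((Fin (m + 1) → ℂ) × (EuclideanSpace ℂ (Fin (m + 1)) →L[ℂ] EuclideanSpace ℂ (Fin (m + 1)))),
    S = (Set.pi Set.univ (fun _ => K) ×ˢ closedBall 0 1) ∩ (fun p => aeval p.2 (PZ p.1)) ⁻¹' {0} := ⟨_, rfl⟩
  have hSc : IsCompact S := by
    rw [hS]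
    exact ((isCompact_univ_pi (fun _ => hK)).prod (isCompact_closedBall _ _)).inter_right
      (isClosed_singleton.preimage aeval_PZ_cont)
  have hmem : ∀ (z : Fin (m + 1) → ℂ) (T : EuclideanSpace ℂ (Fin (m + 1)) →L[ℂ] EuclideanSpace ℂ (Fin (m + 1))),
      (z, T) ∈ S ↔ (∀ k, z k ∈ K) ∧ ‖T‖ ≤ 1 ∧ aeval T (PZ z) = 0 := by
    intro z T
    rw [hS]
    simp [and_assoc]
  obtain ⟨a, ha⟩ := hne
  obtain ⟨D₀⟩ := exists_model (m := m) hr0 hr1 (fun _ => a) (fun _ => hr a ha)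
  have hSne : S.Nonempty := ⟨(fun _ => a, D₀.T), (hmem _ _).mpr ⟨fun _ => ha, D₀.hT, D₀.hp⟩⟩
  have hcont : ContinuousOn (fun p : (Fin (m + 1) → ℂ) × (EuclideanSpace ℂ (Fin (m + 1)) →L[ℂ] EuclideanSpace ℂ (Fin (m + 1))) =>
      ∑' k, tay f k • p.2 ^ k) S := by
    apply continuousOn_tsum (u := fun k => ‖tay f k‖ * bd (m + 1) r k)
    · intro k
      fun_prop
    · exact bd_summable hr0 hrs hKc
    · rintro k ⟨z, T⟩ hT
      obtain ⟨h1, h2, h3⟩ := (hmem z T).mp hT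
      exact (norm_smul_le (tay f k) (T ^ k)).trans
        (mul_le_mul_of_nonneg_left (cls_pow_bound hr0 hr1 T h2 (PZ z) (PZ_root_le (fun k => hr _ (h1 k))) h3 k)
          (norm_nonneg _))
  have hcont' : ContinuousOn (fun p : (Fin (m + 1) → ℂ) × (EuclideanSpace ℂ (Fin (m + 1)) →L[ℂ] EuclideanSpace ℂ (Fin (m + 1))) =>
      ‖fc f p.2‖) S := hcont.norm
  obtain ⟨⟨z, T⟩, hT, hmax⟩ := hSc.exists_isMaxOn hSne hcont'
  obtain ⟨h1, h2, h3⟩ := (hmem z T).mp hT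
  refine ⟨z, h1, ?_⟩
  intro D z' hz' D'
  have h4 : ‖fc f D'.T‖ ≤ ‖fc f T‖ :=
    isMaxOn_iff.mp hmax (z', D'.T) ((hmem z' D'.T).mpr ⟨hz', D'.hT, D'.hp⟩)
  exact h4.trans (D.fc_dom hr0 hr1 hf (fun k => hr _ (h1 k)) T h2 h3)

end

/-- enumeration of the roots -/
lemma exists_PZ {n : ℕ} {K : Set ℂ} {p : ℂ[X]} (hp : p.degree = n) (hK : ∀ z, p.eval z = 0 → z ∈ K) :
    ∃ (c : ℂ) (z : Fin n → ℂ), c ≠ 0 ∧ (∀ k, z k ∈ K) ∧ p = C c * PZ z := by
  have hsplit := IsAlgClosed.splits p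
  have hnat : p.natDegree = n := natDegree_eq_of_degree_eq_some hp
  have hp0 : p ≠ 0 := by
    intro h0
    rw [h0, degree_zero] at hp
    exact absurd hp (by simp)
  obtain ⟨l, hl⟩ : ∃ l : List ℂ, (l : Multiset ℂ) = p.roots := Quotient.exists_rep _
  have hlen : l.length = n := by
    rw [← Multiset.coe_card, hl, ← hsplit.natDegree_eq_card_roots, hnat]
  subst hlen
  refine ⟨p.leadingCoeff, fun j => l[j.1], leadingCoeff_ne_zero.mpr hp0, ?_, ?_⟩
  · intro j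
    have h1 : l[j.1] ∈ p.roots := by rw [← hl]; exact Multiset.mem_coe.mpr (List.getElem_mem _)
    exact hK _ (mem_roots'.mp h1).2
  · conv_lhs => rw [hsplit.eq_prod_roots]
    congr 1
    rw [← hl, Multiset.map_coe, Multiset.prod_coe]
    unfold PZ
    rw [← Fin.prod_univ_fun_getElem l (fun a => X - C a)]

lemma aeval_C_mul {E : Type*} [NormedAddCommGroup E] [NormedSpace ℂ E] {c : ℂ} (hc : c ≠ 0) (p : ℂ[X])
    (T : E →L[ℂ] E) : aeval T (C c * p) = 0 ↔ aeval T p = 0 := by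
  rw [map_mul, aeval_C, Algebra.algebraMap_eq_smul_one, smul_one_mul]
  exact smul_eq_zero_iff_right hc

section
variable {m : ℕ} {r : ℝ} (hr0 : 0 < r) (hr1 : r < 1) {f : ℂ → ℂ} (hf : DifferentiableOn ℂ f (ball 0 1))
include hr0 hr1 hf

/-- the maximum of `‖f(T)‖` over the contractions annihilated by `C c * PZ z` -/
lemma isGreatest {z : Fin (m + 1) → ℂ} (hz : ∀ j, ‖z j‖ ≤ r) (D : Model r z) {c : ℂ} (hc : c ≠ 0) :
    IsGreatest {x : ℝ | ∃ T : EuclideanSpace ℂ (Fin (m + 1)) →L[ℂ] EuclideanSpace ℂ (Fin (m + 1)),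
      (‖T‖ ≤ 1 ∧ aeval T (C c * PZ z) = 0) ∧ x = ‖fc f T‖} ‖fc f D.T‖ := by
  constructor
  · exact ⟨D.T, ⟨D.hT, (aeval_C_mul hc _ _).mpr D.hp⟩, rfl⟩
  · rintro x ⟨T, ⟨hT, hp⟩, rfl⟩
    exact D.fc_dom hr0 hr1 hf hz T hT ((aeval_C_mul hc _ _).mp hp)

end

lemma PZ_const (n : ℕ) (a : ℂ) : PZ (fun _ : Fin n => a) = (X - C a) ^ n := by
  unfold PZ
  rw [Finset.prod_const, Finset.card_univ, Fintype.card_fin]

section
variable {m : ℕ} {r : ℝ} (hr0 : 0 < r) (hr1 : r < 1) {f : ℂ → ℂ} (hf : DifferentiableOn ℂ f (ball 0 1))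
include hr0 hr1 hf

lemma model_const {a : ℂ} (ha : ‖a‖ ≤ r) (D : Model r (fun _ : Fin (m + 1) => a)) :
    ‖fc f D.T‖ = ‖fc f (Uop (m + 1) a)‖ := by
  obtain ⟨s, hrs, _, Kc, hKc⟩ := tay_bound hr0 hr1 hf
  apply le_antisymm
  · exact series_le_Uop hr0 hr1 hrs (tay f) Kc hKc a ha D.T D.hT (by rw [← PZ_const]; exact D.hp)
  · exact D.fc_dom hr0 hr1 hf (fun _ => ha) _ (Uop_norm (m + 1) a (ha.trans hr1.le))
      (by rw [PZ_const]; exact Uop_annih (m + 1) a)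

end

lemma convex_kl_closedBall {r : ℝ} (hr0 : 0 < r) (hr1 : r < 1) : Convex ℝ (kl '' closedBall (0 : ℂ) r) := by
  have h1 : kl '' closedBall (0 : ℂ) r = closedBall 0 (rho r) := by
    ext β
    constructor
    · rintro ⟨w, hw, rfl⟩
      rw [mem_closedBall_zero_iff] at hw ⊢
      exact (wt_poincare hr0 hr1 (ρ := rho r) rfl w 1 hw (by simp)).1
    · intro hβ
      obtain ⟨w, hw, h⟩ := exists_kl hr0 hr1 β (mem_closedBall_zero_iff.mp hβ)
      exact ⟨w, mem_closedBall_zero_iff.mpr hw, h⟩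
  rw [h1]
  exact convex_closedBall 0 _

/-- `z ^ k` is not a scaled Blaschke product of degree `< n ≤ k` -/
lemma pow_not_scaled {n k : ℕ} (hnk : n ≤ k) : ¬ IsScaledBlaschke n (fun z => z ^ k) := by
  rintro ⟨c, s, hs, hs1, h⟩
  have h1 : X ^ k * BQ s = C c * BP s := by
    apply Polynomial.eq_of_infinite_eval_eq
    apply (infinite_of_mem_nhds (0 : ℂ) (ball_mem_nhds (0 : ℂ) one_pos)).mono
    intro z hz
    show (X ^ k * BQ s).eval z = (C c * BP s).eval z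
    have h2 := h z hz
    simp only at h2
    have hne := BQ_eval_ne s hs1 (mem_ball_zero_iff.mp hz).le
    rw [bla_eq, mul_div_assoc', eq_div_iff hne] at h2
    rw [eval_mul, eval_mul, eval_pow, eval_X, eval_C]
    exact h2
  have h2 : C c * BP s = 0 := by
    apply Polynomial.eq_zero_of_dvd_of_natDegree_lt (p := X ^ k) ⟨BQ s, h1.symm⟩
    rw [natDegree_X_pow]
    refine ((natDegree_C_mul_le _ _).trans (BP_natDegree s).le).trans_lt ?_
    omega
  rw [h2] at h1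
  have h3 : BQ s ≠ 0 := by
    intro h
    exact BQ_eval_ne s hs1 (z := 0) (by simp) (by rw [h, eval_zero])
  exact mul_ne_zero (pow_ne_zero k X_ne_zero) h3 h1

end Pool.Agent.KS6_83.PT
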