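import Pool.Agent.KS6_83.PT.F

set_option autoImplicit false
open Complex Metric Set Polynomial Filter Topology
open scoped ComplexConjugate

namespace Pool.Agent.KS6_83.PT

open Pool.Agent.Helper654.Ptak hiding lp

/-- domination by the model operator, on arbitrary finite dimensional spaces -/
theorem Model.dom_gen {m : ℕ} {r : ℝ} (hr0 : 0 < r) (hr1 : r < 1) {z : Fin (m + 1) → ℂ}
    (hz : ∀ j, ‖z j‖ ≤ r) (D : Model r z) (F : ℂ[X]) (E : Type) [NormedAddCommGroup E]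
    [InnerProductSpace ℂ E] [FiniteDimensional ℂ E] (T : E →L[ℂ] E) (hT : ‖T‖ ≤ 1)
    (hp : aeval T (PZ z) = 0) : ‖aeval T F‖ ≤ ‖aeval D.T F‖ := by
  rcases subsingleton_or_nontrivial E with hE | hE
  · have : aeval T F = 0 := by
      ext1 x
      exact Subsingleton.elim _ _
    rw [this, norm_zero]
    exact norm_nonneg _
  · have hd : 0 < Module.finrank ℂ E := Module.finrank_pos
    have hne : Nonempty (Fin (Module.finrank ℂ E)) := ⟨⟨0, hd⟩⟩
    obtain ⟨Φ⟩ : Nonempty (E ≃ₗᵢ[ℂ] EuclideanSpace ℂ (Fin (Module.finrank ℂ E))) :=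
      ⟨(stdOrthonormalBasis ℂ E).repr⟩
    obtain ⟨T', hT'⟩ : ∃ T' : EuclideanSpace ℂ (Fin (Module.finrank ℂ E)) →L[ℂ] EuclideanSpace ℂ (Fin (Module.finrank ℂ E)),
        ∀ y, T' y = Φ (T (Φ.symm y)) :=
      ⟨(Φ.toContinuousLinearEquiv : E →L[ℂ] _) ∘L T ∘L (Φ.symm.toContinuousLinearEquiv : _ →L[ℂ] E), fun y => rfl⟩
    have hT'n : ‖T'‖ ≤ 1 := by
      apply ContinuousLinearMap.opNorm_le_bound _ zero_le_one
      intro y
      rw [hT', LinearIsometryEquiv.norm_map, one_mul]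
      refine (T.le_of_opNorm_le hT _).trans ?_
      rw [one_mul, LinearIsometryEquiv.norm_map]
    have hint := intertwine T' T Φ.toLinearEquiv.toLinearMap (fun x => by
      show T' (Φ x) = Φ (T x)
      rw [hT', LinearIsometryEquiv.symm_apply_apply])
    have hp' : aeval T' (PZ z) = 0 := by
      ext1 y
      have h1 := hint (PZ z) (Φ.symm y)
      rw [hp] at h1
      have h2 : Φ.toLinearEquiv.toLinearMap (Φ.symm y) = y := Φ.apply_symm_apply y
      rw [h2] at h1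
      rw [h1]
      show Φ ((0 : E →L[ℂ] E) (Φ.symm y)) = 0
      rw [zero_apply, map_zero]
    have h3 := D.dom hr0 hr1 hz T' hT'n hp' F
    have h4 : ‖aeval T F‖ ≤ ‖aeval T' F‖ := by
      apply ContinuousLinearMap.opNorm_le_bound _ (norm_nonneg _)
      intro x
      have h1 : (aeval T' F) (Φ x) = Φ ((aeval T F) x) := hint F x
      rw [← LinearIsometryEquiv.norm_map Φ ((aeval T F) x), ← h1]
      refine ((aeval T' F).le_opNorm _).trans ?_
      rw [LinearIsometryEquiv.norm_map]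
    exact h4.trans h3

/-- Sarason: interpolation with the norm of the model operator -/
theorem Model.hard {m : ℕ} {r : ℝ} (hr0 : 0 < r) (hr1 : r < 1) {h : ℂ → ℂ}
    (hh : DifferentiableOn ℂ h (ball 0 1)) {z : Fin (m + 1) → ℂ} (hz : ∀ j, ‖z j‖ ≤ r) (D : Model r z)
    {γ : ℝ} (hγ : ‖fc h D.T‖ < γ) :
    ∃ g : ℂ → ℂ, DifferentiableOn ℂ g (ball 0 1) ∧ ∀ w ∈ ball (0 : ℂ) 1, ‖h w - (PZ z).eval w * g w‖ ≤ γ := by
  have hz1 : ∀ j, ‖z j‖ < 1 := fun j => (hz j).trans_lt hr1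
  have hγ0 : 0 < γ := lt_of_le_of_lt (norm_nonneg _) hγ
  have hI := ip_spec hh z hz1
  have hfc := fc_eq hr0 hr1 hh hI D.T D.hT (PZ_root_le hz) D.hp
  obtain ⟨q, hq⟩ : ∃ q, q = ip h z := ⟨_, rfl⟩
  rw [← hq] at hI hfc
  rw [hfc] at hγ
  obtain ⟨g, hg, hI⟩ := hI
  have hstrict : StrictOn (PZ z) (C ((γ : ℂ)⁻¹) * q) := by
    intro E _ _ _ T hT hpT x hx
    have : CompleteSpace E := FiniteDimensional.complete ℂ E
    have h3 := D.dom_gen hr0 hr1 hz q E T hT hpT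
    have h4 : ‖(aeval T (C ((γ : ℂ)⁻¹) * q)) x‖ = γ⁻¹ * ‖(aeval T q) x‖ := by
      rw [map_mul, aeval_C, Algebra.algebraMap_eq_smul_one, smul_one_mul, smul_apply, norm_smul, norm_inv, norm_real,
        Real.norm_eq_abs, abs_of_pos hγ0]
    rw [h4]
    have hx0 : 0 < ‖x‖ := norm_pos_iff.mpr hx
    have h5 : ‖(aeval T q) x‖ ≤ ‖aeval T q‖ * ‖x‖ := (aeval T q).le_opNorm x
    have h6 : ‖(aeval T q) x‖ < γ * ‖x‖ := by
      refine h5.trans_lt ?_
      exact mul_lt_mul_of_pos_right (h3.trans_lt hγ) hx0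
    calc γ⁻¹ * ‖(aeval T q) x‖ < γ⁻¹ * (γ * ‖x‖) := mul_lt_mul_of_pos_left h6 (inv_pos.mpr hγ0)
      _ = ‖x‖ := by field_simp
  rw [PZ_eq_lp] at hstrict
  obtain ⟨G, k, hG, hk, hGb, hGk⟩ := schur_np (List.ofFn z) (by
    intro w hw
    obtain ⟨j, rfl⟩ := (List.mem_ofFn' z w).mp hw
    exact hz1 j) _ hstrict
  rw [← PZ_eq_lp] at hGk
  refine ⟨fun z => g z - γ * k z, hg.sub (hk.const_mul _), ?_⟩
  intro w hw
  have h1 := hGk w hw
  have h2 := hI w hw
  rw [eval_mul, eval_C] at h1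
  have hγc : (γ : ℂ) ≠ 0 := by exact_mod_cast hγ0.ne'
  have h3 : h w - eval w (PZ z) * (g w - γ * k w) = γ * G w := by
    have h4 : γ * G w = eval w q + γ * (eval w (PZ z) * k w) := by
      rw [← h1]
      field_simp
      ring
    rw [h4, h2]
    ring
  rw [h3, norm_mul, norm_real, Real.norm_eq_abs, abs_of_pos hγ0]
  have := hGb w hw
  nlinarith

/-- the easy direction -/
theorem Model.easy {m : ℕ} {r : ℝ} (hr0 : 0 < r) (hr1 : r < 1) {h g : ℂ → ℂ}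
    (hh : DifferentiableOn ℂ h (ball 0 1)) (hg : DifferentiableOn ℂ g (ball 0 1)) {z : Fin (m + 1) → ℂ}
    (hz : ∀ j, ‖z j‖ ≤ r) (D : Model r z) {γ : ℝ}
    (hb : ∀ w ∈ ball (0 : ℂ) 1, ‖h w - (PZ z).eval w * g w‖ ≤ γ) : ‖fc h D.T‖ ≤ γ := by
  have h1 := lemmaE hr0 hr1 hh hg (PZ z) 0 D.T D.hT (PZ_root_le hz) D.hp γ (by
    intro w hw
    rw [eval_zero, sub_zero]
    exact hb w (mem_ball_zero_iff.mpr hw))
  rwa [map_zero, sub_zero] at h1

end Pool.Agent.KS6_83.PT
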