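import Pool.Agent.KS6_83.PT.G

set_option autoImplicit false
open Complex Metric Set Polynomial Filter Topology
open scoped ComplexConjugate

namespace Pool.Agent.KS6_83.PT

open Pool.Agent.Helper654.Ptak hiding lp

lemma iter_divX_coeff (k : ℕ) : ∀ (p : ℂ[X]) (n : ℕ), (divX^[k] p).coeff n = p.coeff (n + k) := by
  induction k with
  | zero => intro p n; rfl
  | succ k ih =>
    intro p n
    rw [Function.iterate_succ_apply, ih, coeff_divX]
    congr 1

/-- the coefficient vectors of `(p(ζ) - p(T)) / (ζ - T) x` -/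
noncomputable def Vc {E : Type*} [NormedAddCommGroup E] [NormedSpace ℂ E] (T : E →L[ℂ] E) (p : ℂ[X]) (x : E)
    (j : ℕ) : E := (aeval T (divX^[j + 1] p)) x

lemma Vc_rel {E : Type*} [NormedAddCommGroup E] [NormedSpace ℂ E] (T : E →L[ℂ] E) (x : E) (m : ℕ) :
    ∀ p : ℂ[X], p.natDegree ≤ m + 1 → ∀ ζ : ℂ, ζ • Sv m (Vc T p x) ζ - T (Sv m (Vc T p x) ζ) =
      p.eval ζ • x - (aeval T p) x := by
  induction m with
  | zero =>
    intro p hp ζ
    have h1 : p = C (p.coeff 1) * X + C (p.coeff 0) := eq_X_add_C_of_natDegree_le_one hp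
    have h2 : p.eval ζ = p.coeff 1 * ζ + p.coeff 0 := by
      conv_lhs => rw [h1]
      simp
    have h3 : (aeval T p) x = p.coeff 1 • T x + p.coeff 0 • x := by
      conv_lhs => rw [h1]
      simp [Algebra.algebraMap_eq_smul_one]
    have h4 : divX p = C (p.coeff 1) := by
      ext n
      rw [coeff_divX]
      rcases n with _ | n
      · simp
      · rw [coeff_C_succ]
        exact coeff_eq_zero_of_natDegree_lt (by omega)
    have h5 : Vc T p x 0 = p.coeff 1 • x := by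
      unfold Vc
      show (aeval T (divX p)) x = _
      rw [h4, aeval_C, Algebra.algebraMap_eq_smul_one, smul_apply, one_apply_eq_self]
    unfold Sv
    simp only [zero_add, Finset.range_one, Finset.sum_singleton, pow_zero, one_smul]
    rw [h2, h3, h5, map_smul]
    module
  | succ m ih =>
    intro p hp ζ
    have hv2 := ih (divX p) (by rw [natDegree_divX_eq_natDegree_tsub_one]; omega) ζ
    have h0 : p = X * divX p + C (p.coeff 0) := by
      conv_lhs => rw [← divX_mul_X_add p]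
      rw [mul_comm]
    have h2 : p.eval ζ = ζ * (divX p).eval ζ + p.coeff 0 := by
      conv_lhs => rw [h0]
      rw [eval_add, eval_mul, eval_X, eval_C]
    have h3 : (aeval T p) x = T ((aeval T (divX p)) x) + p.coeff 0 • x := by
      conv_lhs => rw [h0]
      rw [map_add, map_mul, aeval_X, aeval_C, Algebra.algebraMap_eq_smul_one]
      rfl
    have hS : Sv (m + 1) (Vc T p x) ζ = ζ • Sv m (Vc T (divX p) x) ζ + (aeval T (divX p)) x := by
      unfold Sv
      rw [Finset.sum_range_succ', Finset.smul_sum]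
      congr 1
      · apply Finset.sum_congr rfl
        intro j _
        unfold Vc
        rw [smul_smul, ← pow_succ', Function.iterate_succ_apply]
      · rw [pow_zero, one_smul]
        rfl
    set S := Sv m (Vc T (divX p) x) ζ with hSdef
    rw [hS, h2, h3, map_add, map_smul]
    have h7 : T S = ζ • S - (eval ζ p.divX • x - (aeval T p.divX) x) := by rw [← hv2]; abel
    rw [h7]
    module

lemma Vc_top {E : Type*} [NormedAddCommGroup E] [NormedSpace ℂ E] (T : E →L[ℂ] E) (x : E) {m : ℕ} {p : ℂ[X]}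
    (hp : p.Monic) (hd : p.natDegree = m + 1) : Vc T p x m = x := by
  have h1 : divX^[m + 1] p = C 1 := by
    ext n
    rw [iter_divX_coeff]
    rcases n with _ | n
    · rw [zero_add, ← hd, hp.coeff_natDegree]
      simp
    · rw [coeff_C_succ]
      exact coeff_eq_zero_of_natDegree_lt (by omega)
  unfold Vc
  rw [h1, C_1, map_one]
  rfl

/-- the functional model: `T` is the restriction of a multiple of the model operator -/
theorem Model.exists_J {m : ℕ} {r : ℝ} (hr0 : 0 < r) (hr1 : r < 1) {z : Fin (m + 1) → ℂ}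
    (hz : ∀ j, ‖z j‖ ≤ r) (D : Model r z) {ι : Type*} [Fintype ι]
    (T : EuclideanSpace ℂ ι →L[ℂ] EuclideanSpace ℂ ι) (hT : ‖T‖ ≤ 1) (hp : aeval T (PZ z) = 0) :
    ∃ J : ι → EuclideanSpace ℂ ι →ₗ[ℂ] EuclideanSpace ℂ (Fin (m + 1)),
      (∀ i x, J i (T x) = D.T (J i x)) ∧ ∀ x, ∑ i, ‖J i x‖ ^ 2 = ‖x‖ ^ 2 := by
  obtain ⟨D₀, hD₀⟩ := exists_D T hT
  obtain ⟨p, hpdef⟩ : ∃ p, p = PZ z := ⟨_, rfl⟩
  have hpm : p.Monic := by rw [hpdef]; exact PZ_monic z
  have hpd : p.natDegree = m + 1 := by rw [hpdef]; exact PZ_natDegree z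
  have hpe : ∀ ζ, p.eval ζ = pz z ζ := by intro ζ; rw [hpdef, PZ_eval]
  have hpT : aeval T p = 0 := by rw [hpdef]; exact hp
  have hρ2 := rho_lt hr0 hr1
  have hkap := kap_pos z
  obtain ⟨κ, hκ⟩ : ∃ κ : ℝ, κ = Real.sqrt ((kap z)⁻¹) := ⟨_, rfl⟩
  have hκ2 : κ ^ 2 = (kap z)⁻¹ := by rw [hκ]; exact Real.sq_sqrt (inv_nonneg.mpr hkap.le)
  -- the linear maps
  obtain ⟨L, hL⟩ : ∃ L : ι → EuclideanSpace ℂ ι →ₗ[ℂ] ℂ[X],
      ∀ i x, L i x = toP (fun j : Fin (m + 1) => (D₀ (Vc T p x j)) i) := by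
    refine ⟨fun i => ∑ j : Fin (m + 1), (monomial (j : ℕ)) ∘ₗ
      ((EuclideanSpace.proj i : EuclideanSpace ℂ ι →L[ℂ] ℂ).toLinearMap ∘ₗ
        (D₀ * aeval T (divX^[(j : ℕ) + 1] p)).toLinearMap), ?_⟩
    intro i x
    unfold toP
    rw [LinearMap.sum_apply]
    apply Finset.sum_congr rfl
    intro j _
    rw [C_mul_X_pow_eq_monomial]
    rfl
  have hLeval : ∀ i x ζ, (L i x).eval ζ = (D₀ (Sv m (Vc T p x) ζ)) i := by
    intro i x ζ
    rw [hL, toP_eval, pol_comp]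
  have hΨp : ∀ c : ℂ, D.Ψ (C c * p) = 0 := by
    intro c
    have h1 := D.hΨ p (C c)
    rw [hpdef, D.hp] at h1
    rw [hpdef, mul_comm, ← h1]
    rfl
  have hLT : ∀ i x, L i (T x) = X * L i x - C ((D₀ x) i) * p := by
    intro i x
    apply Polynomial.funext
    intro ζ
    rw [hLeval, eval_sub, eval_mul, eval_mul, eval_X, eval_C, hLeval]
    have h1 : Sv m (Vc T p (T x)) ζ = T (Sv m (Vc T p x) ζ) := by
      unfold Sv
      rw [map_sum]
      apply Finset.sum_congr rfl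
      intro j _
      rw [map_smul]
      congr 1
      unfold Vc
      have h2 : aeval T (divX^[j + 1] p) * T = T * aeval T (divX^[j + 1] p) := by
        have h3 : aeval T (divX^[j + 1] p * X) = aeval T (X * divX^[j + 1] p) := by rw [mul_comm]
        rwa [map_mul, map_mul, aeval_X] at h3
      exact congrArg (fun A : EuclideanSpace ℂ ι →L[ℂ] EuclideanSpace ℂ ι => A x) h2
    have h2 := Vc_rel T x m p hpd.le ζ
    rw [hpT, zero_apply, sub_zero] at h2
    have h3 : T (Sv m (Vc T p x) ζ) = ζ • Sv m (Vc T p x) ζ - p.eval ζ • x := by rw [← h2]; abel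
    rw [h1, h3, map_sub, map_smul, map_smul]
    simp
    ring
  refine ⟨fun i => (κ : ℂ) • (D.Ψ ∘ₗ L i), ?_, ?_⟩
  · intro i x
    show (κ : ℂ) • D.Ψ (L i (T x)) = D.T ((κ : ℂ) • D.Ψ (L i x))
    rw [hLT, map_sub, hΨp, sub_zero, map_smul, ← D.hΨ, aeval_X]
  · intro x
    have hΨself : ∀ u : Fin (m + 1) → ℂ, Hf (rho r) (jq (fun _ => 1) u u) (Bz z) = ‖D.Ψ (toP u)‖ ^ 2 := by
      intro u
      have h1 := D.hj 1 u u
      rw [map_one, one_apply_eq_self, inner_self_eq_norm_sq_to_K] at h1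
      have h2 : (fun ζ : ℂ => (1 : ℂ[X]).eval ζ) = fun _ => 1 := by ext ζ; simp
      rw [h2] at h1
      rw [h1]
      norm_cast
    obtain ⟨v, hvdef⟩ : ∃ v : ℕ → EuclideanSpace ℂ ι, v = Vc T p x := ⟨_, rfl⟩
    have hv : v m = x := by rw [hvdef]; exact Vc_top T x hpm hpd
    have hU : ∀ ζ : ℂ, ‖ζ‖ = 1 → ζ • (iP (rho r) z ζ • Sv m v ζ) - T (iP (rho r) z ζ • Sv m v ζ) = x := by
      intro ζ hζ
      have h1 := Vc_rel T x m p hpd.le ζ
      rw [← hvdef, hpT, hpe, zero_apply, sub_zero] at h1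
      have h2 : ζ • (iP (rho r) z ζ • Sv m v ζ) - T (iP (rho r) z ζ • Sv m v ζ) =
          iP (rho r) z ζ • (ζ • Sv m v ζ - T (Sv m v ζ)) := by
        rw [map_smul, smul_sub, smul_comm]
      rw [h2, h1, iP_eq hr0 hr1 (ρ := rho r) rfl z hz hζ, smul_smul, inv_mul_cancel₀ (pz_ne hr1 z hz hζ), one_smul]
    have hi := iP_cont hρ2 z
    have hSv := Sv_cont m v
    have ca : Continuous (fun ζ => iP (rho r) z ζ • Sv m v ζ) := by fun_prop
    have e2 : ‖x‖ ^ 2 = (kap z)⁻¹ * ∑ i, Hf (rho r) (jq (fun _ => 1)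
        (fun j : Fin (m + 1) => (D₀ (v j)) i) (fun j : Fin (m + 1) => (D₀ (v j)) i)) (Bz z) := by
      have h0 := K2poly hr0 hr1 (ρ := rho r) rfl hρ2 z hz T x x v v hv hv hU hU 1
      rw [map_one, one_apply_eq_self, inner_self_eq_norm_sq_to_K] at h0
      have h1 : ‖x‖ ^ 2 = (av (fun ζ : ℂ => eval ζ (1 : ℂ[X]) * Qf T (fun ζ => iP (rho r) z ζ • Sv m v ζ)
          (fun ζ => iP (rho r) z ζ • Sv m v ζ) ζ)).re := by
        rw [h0]
        norm_cast
      rw [h1, ← av_re (Qf_cont_mul 1 T ca ca),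
        ← av_sum_W hρ2 _ _ _ (fun i => jq_cont1 continuous_const _ _)]
      apply av_congr
      intro ζ hζ
      rw [← Qf_expand hr0 hr1 (ρ := rho r) rfl z hz T D₀ hD₀ v v (fun _ => 1) ζ hζ, eval_one]
    rw [e2, Finset.mul_sum]
    apply Finset.sum_congr rfl
    intro i _
    show ‖(κ : ℂ) • D.Ψ (L i x)‖ ^ 2 = _
    rw [norm_smul, norm_real, Real.norm_eq_abs, mul_pow, sq_abs, hκ2, hΨself, hL, hvdef]

lemma exists_unit_norm {m : ℕ} (A : EuclideanSpace ℂ (Fin (m + 1)) →L[ℂ] EuclideanSpace ℂ (Fin (m + 1))) :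
    ∃ x, ‖x‖ = 1 ∧ ‖A x‖ = ‖A‖ := by
  have hne : (sphere (0 : EuclideanSpace ℂ (Fin (m + 1))) 1).Nonempty :=
    (NormedSpace.sphere_nonempty (E := EuclideanSpace ℂ (Fin (m + 1)))).mpr zero_le_one
  obtain ⟨x, hx, hmax⟩ := (isCompact_sphere (0 : EuclideanSpace ℂ (Fin (m + 1))) 1).exists_isMaxOn hne
    (f := fun x => ‖A x‖) (A.continuous.norm.continuousOn)
  have hx1 : ‖x‖ = 1 := by simpa using hx
  refine ⟨x, hx1, ?_⟩
  apply le_antisymm
  · have := A.le_opNorm x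
    rwa [hx1, mul_one] at this
  · apply ContinuousLinearMap.opNorm_le_bound _ (norm_nonneg _)
    intro w
    by_cases hw : w = 0
    · subst hw; simp
    · have hw0 : 0 < ‖w‖ := norm_pos_iff.mpr hw
      have h1 : ((‖w‖⁻¹ : ℝ) : ℂ) • w ∈ sphere (0 : EuclideanSpace ℂ (Fin (m + 1))) 1 := by
        rw [mem_sphere_zero_iff_norm, norm_smul, norm_real, Real.norm_eq_abs,
          abs_of_pos (inv_pos.mpr hw0), inv_mul_cancel₀ hw0.ne']
      have h2 : ‖A (((‖w‖⁻¹ : ℝ) : ℂ) • w)‖ ≤ ‖A x‖ := hmax h1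
      rw [map_smul, norm_smul, norm_real, Real.norm_eq_abs, abs_of_pos (inv_pos.mpr hw0),
        inv_mul_le_iff₀ hw0] at h2
      linarith

/-- the vectors at which the norm is attained form a subspace -/
lemma max_add {E : Type*} [NormedAddCommGroup E] [InnerProductSpace ℂ E] (A : E →L[ℂ] E) {x y : E}
    (hx : ‖A x‖ = ‖A‖ * ‖x‖) (hy : ‖A y‖ = ‖A‖ * ‖y‖) : ‖A (x - y)‖ = ‖A‖ * ‖x - y‖ := by
  have h1 := parallelogram_law_with_norm ℂ (A x) (A y)
  have h2 := parallelogram_law_with_norm ℂ x y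
  rw [← map_add, ← map_sub, hx, hy] at h1
  have h3 := A.le_opNorm (x + y)
  have h4 := A.le_opNorm (x - y)
  have h5 := norm_nonneg (A (x + y))
  have h6 := norm_nonneg (A (x - y))
  have h7 := norm_nonneg A
  have h8 := norm_nonneg (x + y)
  have h9 := norm_nonneg (x - y)
  have h10 : ‖A (x + y)‖ * ‖A (x + y)‖ ≤ (‖A‖ * ‖x + y‖) * (‖A‖ * ‖x + y‖) := mul_le_mul h3 h3 h5 (by positivity)
  have h11 : (‖A‖ * ‖x - y‖) * (‖A‖ * ‖x - y‖) ≤ ‖A (x - y)‖ * ‖A (x - y)‖ := by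
    have e1 : (‖A‖ * ‖x - y‖) * (‖A‖ * ‖x - y‖) =
        ‖A‖ ^ 2 * (2 * (‖x‖ ^ 2 + ‖y‖ ^ 2)) - (‖A‖ * ‖x + y‖) * (‖A‖ * ‖x + y‖) := by
      linear_combination ‖A‖ ^ 2 * h2
    have e2 : ‖A (x - y)‖ * ‖A (x - y)‖ =
        ‖A‖ ^ 2 * (2 * (‖x‖ ^ 2 + ‖y‖ ^ 2)) - ‖A (x + y)‖ * ‖A (x + y)‖ := by
      linear_combination h1
    rw [e1, e2]
    linarith
  have h12 : ‖A‖ * ‖x - y‖ ≤ ‖A (x - y)‖ := by
    by_contra hcon
    push Not at hcon
    have : ‖A (x - y)‖ * ‖A (x - y)‖ < (‖A‖ * ‖x - y‖) * (‖A‖ * ‖x - y‖) := mul_self_lt_mul_self h6 hcon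
    linarith
  exact le_antisymm h4 h12

end Pool.Agent.KS6_83.PT
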