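import Pool.Agent.KS6_83.PT.H

set_option autoImplicit false
open Complex Metric Set Polynomial Filter Topology
open scoped ComplexConjugate

namespace Pool.Agent.KS6_83.PT

open Pool.Agent.Helper654.Ptak hiding lp

lemma toP_vec {n : ℕ} {P : ℂ[X]} (hP : P.degree < n) : toP (fun j : Fin n => P.coeff j) = P := by
  unfold toP
  ext k
  rw [finsetSum_coeff]
  simp only [coeff_C_mul, coeff_X_pow]
  by_cases hk : k < n
  · rw [Finset.sum_eq_single ⟨k, hk⟩]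
    · simp
    · intro j _ hj
      rw [if_neg (fun h => hj (Fin.ext h.symm)), mul_zero]
    · intro h; exact absurd (Finset.mem_univ _) h
  · rw [Finset.sum_eq_zero]
    · symm
      apply coeff_eq_zero_of_degree_lt
      exact hP.trans_le (by exact_mod_cast (not_lt.mp hk))
    · intro j _
      have := j.2
      rw [if_neg (by omega), mul_zero]

lemma deg_div {m : ℕ} {P U : ℂ[X]} {a l : ℂ} (h : P = (X - C a) * U)
    (hP : P.degree < ((m + 1 : ℕ) : WithBot ℕ)) :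
    ((X - C l) * U).degree < ((m + 1 : ℕ) : WithBot ℕ) := by
  have h1 : ((X - C l) * U).degree = P.degree := by
    rw [h, degree_mul, degree_mul, degree_X_sub_C, degree_X_sub_C]
  rw [h1]; exact hP

section
variable {m : ℕ} {r : ℝ} (hr0 : 0 < r) (hr1 : r < 1) {f : ℂ → ℂ} (hf : DifferentiableOn ℂ f (ball 0 1))
include hr0 hr1 hf

lemma Model.le_of_DZ {z : Fin (m + 1) → ℂ} (hz : ∀ j, ‖z j‖ ≤ r) (D : Model r z) {M : ℝ}
    {u v : Fin (m + 1) → ℂ} (hu : u ≠ 0) (h0 : DZ r f M u v z = 0) : M ≤ ‖fc f D.T‖ := by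
  by_contra hcon
  push Not at hcon
  have h1 := D.DZ_nonneg hr0 hr1 hf hz (le_refl ‖fc f D.T‖) u v
  have h2 := G_pos (rho_lt hr0 hr1) (Bz z) u v (Or.inl hu)
  unfold DZ at h0 h1
  nlinarith

/-- moving a common root of `u`, `v` together with a root of the configuration -/
lemma DZ_move {z : Fin (m + 1) → ℂ} (hz : ∀ j, ‖z j‖ ≤ r) (M : ℝ) {u v u' v' : Fin (m + 1) → ℂ} {U V : ℂ[X]}
    {l : ℂ} (hl : ‖l‖ ≤ r) (hu : toP u = (X - C (z 0)) * U) (hv : toP v = (X - C (z 0)) * V)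
    (hu' : toP u' = (X - C l) * U) (hv' : toP v' = (X - C l) * V) :
    DZ r f M u' v' (Function.update z 0 l) = ((1 + ‖l‖ ^ 2) / (1 + ‖z 0‖ ^ 2)) * DZ r f M u v z := by
  have hz' := update_le hz 0 hl
  obtain ⟨q, h1, h2, _⟩ := exists_interp3 hf z (Function.update z 0 l) z
    (fun k => (hz k).trans_lt hr1) (fun k => (hz' k).trans_lt hr1) (fun k => (hz k).trans_lt hr1)
  rw [DZ_eq' hr0 hr1 hf hz M u v h1, DZ_eq' hr0 hr1 hf hz' M u' v' h2, Bz_update]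
  have hBz : Bz z = Function.update (Bz z) 0 (kl (z 0)) := by
    rw [← Bz_update, Function.update_eq_self]
  unfold Hf
  rw [← av_real_smul]
  apply av_congr
  intro ζ hζ
  conv_rhs => rw [hBz]
  rw [W_update, W_update]
  unfold kl
  rw [(wt_poincare hr0 hr1 (ρ := rho r) rfl l ζ hl hζ).2, (wt_poincare hr0 hr1 (ρ := rho r) rfl (z 0) ζ (hz 0) hζ).2]
  have hne1 : ‖ζ - l‖ ≠ 0 := by
    rw [norm_ne_zero_iff, sub_ne_zero]
    rintro rfl
    linarith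
  have hne2 : ‖ζ - z 0‖ ≠ 0 := by
    rw [norm_ne_zero_iff, sub_ne_zero]
    intro h
    have := hz 0
    rw [← h, hζ] at this
    linarith
  have hne3 : (1 + ‖z 0‖ ^ 2) ≠ 0 := by positivity
  have e1 : pol u ζ = (ζ - z 0) * U.eval ζ := by rw [← toP_eval, hu]; simp
  have e2 : pol v ζ = (ζ - z 0) * V.eval ζ := by rw [← toP_eval, hv]; simp
  have e3 : pol u' ζ = (ζ - l) * U.eval ζ := by rw [← toP_eval, hu']; simp
  have e4 : pol v' ζ = (ζ - l) * V.eval ζ := by rw [← toP_eval, hv']; simp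
  have g1 : gq u v ζ = ‖ζ - z 0‖ ^ 2 * ((‖U.eval ζ‖ ^ 2 + ‖V.eval ζ‖ ^ 2) / 2) := by
    unfold gq; rw [e1, e2, norm_mul, norm_mul]; ring
  have g2 : gq u' v' ζ = ‖ζ - l‖ ^ 2 * ((‖U.eval ζ‖ ^ 2 + ‖V.eval ζ‖ ^ 2) / 2) := by
    unfold gq; rw [e3, e4, norm_mul, norm_mul]; ring
  have j1 : jq (fun ζ => q.eval ζ) u v ζ = ‖ζ - z 0‖ ^ 2 * (q.eval ζ * U.eval ζ * conj (V.eval ζ)).re := by
    unfold jq
    rw [e1, e2, map_mul]
    have : q.eval ζ * ((ζ - z 0) * U.eval ζ) * (conj (ζ - z 0) * conj (V.eval ζ)) =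
        ((‖ζ - z 0‖ ^ 2 : ℝ) : ℂ) * (q.eval ζ * U.eval ζ * conj (V.eval ζ)) := by
      push_cast
      rw [← Complex.mul_conj']
      ring
    rw [this, re_ofReal_mul]
  have j2 : jq (fun ζ => q.eval ζ) u' v' ζ = ‖ζ - l‖ ^ 2 * (q.eval ζ * U.eval ζ * conj (V.eval ζ)).re := by
    unfold jq
    rw [e3, e4, map_mul]
    have : q.eval ζ * ((ζ - l) * U.eval ζ) * (conj (ζ - l) * conj (V.eval ζ)) =
        ((‖ζ - l‖ ^ 2 : ℝ) : ℂ) * (q.eval ζ * U.eval ζ * conj (V.eval ζ)) := by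
      push_cast
      rw [← Complex.mul_conj']
      ring
    rw [this, re_ofReal_mul]
  beta_reduce
  rw [g1, g2, j1, j2]
  field_simp

/-- `M > 0` -/
lemma M_pos {K : Set ℂ} (hKr : K ⊆ closedBall 0 r) (hinf : K.Infinite) {M : ℝ}
    (hdom : ∀ z' : Fin (m + 1) → ℂ, (∀ k, z' k ∈ K) → ∀ D' : Model r z', ‖fc f D'.T‖ ≤ M)
    (hnot : ¬ IsScaledBlaschke (m + 1) f) : 0 < M := by
  by_contra hcon
  push Not at hcon
  apply hnot
  refine ⟨0, 0, by simp, by simp, ?_⟩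
  have hr : ∀ w ∈ K, ‖w‖ ≤ r := fun w hw => mem_closedBall_zero_iff.mp (hKr hw)
  have h1 := eqOn_of_infinite hf (G := fun _ => 0) (differentiableOn_const 0) hinf hr1 hKr (by
    intro l hl
    obtain ⟨D⟩ := exists_model (m := m) hr0 hr1 (fun _ => l) (fun _ => hr l hl)
    have h2 := hdom (fun _ => l) (fun _ => hl) D
    have h3 : ‖fc f D.T‖ ≤ 0 := h2.trans hcon
    have h4 : fc f D.T = 0 := norm_eq_zero.mp (le_antisymm h3 (norm_nonneg _))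
    obtain ⟨u, hu⟩ : ∃ u : Fin (m + 1) → ℂ, u = fun j : Fin (m + 1) => (1 : ℂ[X]).coeff (j : ℕ) := ⟨_, rfl⟩
    have hu1 : toP u = 1 := by
      rw [hu]
      apply toP_vec
      rw [degree_one]
      exact_mod_cast Nat.succ_pos m
    have h5 : DZ r f 0 u 0 (fun _ => l) = 0 := by
      rw [D.DZ_eq hr0 hr1 hf (fun _ => hr l hl), h4]
      simp
    have h6 := D.DZ_zero hr0 hr1 hf (fun _ => hr l hl) h3 h5 0
    rw [← toP_eval, hu1, eval_one, ofReal_zero, zero_mul, mul_one] at h6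
    exact h6)
  intro z hz
  rw [h1 hz]
  simp

/-- at a maximising configuration the maximal vectors do not vanish at the root -/
lemma root_ne {K : Set ℂ} (hKr : K ⊆ closedBall 0 r) (hconv : Convex ℝ (kl '' K)) (hKcl : IsClosed K)
    (hinf : K.Infinite) (hnot : ¬ IsScaledBlaschke (m + 1) f) {a : ℂ} (ha : a ∈ K)
    (D : Model r (fun _ : Fin (m + 1) => a))
    (hdom : ∀ z' : Fin (m + 1) → ℂ, (∀ k, z' k ∈ K) → ∀ D' : Model r z', ‖fc f D'.T‖ ≤ ‖fc f D.T‖)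
    {u v : Fin (m + 1) → ℂ} (hu : u ≠ 0) (h0 : DZ r f ‖fc f D.T‖ u v (fun _ => a) = 0) : pol u a ≠ 0 := by
  intro hua
  have hr : ∀ w ∈ K, ‖w‖ ≤ r := fun w hw => mem_closedBall_zero_iff.mp (hKr hw)
  have hz : ∀ k : Fin (m + 1), ‖(fun _ : Fin (m + 1) => a) k‖ ≤ r := fun _ => hr a ha
  have hM := M_pos hr0 hr1 hf hKr hinf hdom hnot
  have h1 := D.DZ_zero hr0 hr1 hf hz (le_refl _) h0 0
  rw [hua, mul_zero] at h1
  have hMc : ((‖fc f D.T‖ : ℝ) : ℂ) ≠ 0 := by exact_mod_cast hM.ne'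
  have hva : pol v a = 0 := by
    rcases mul_eq_zero.mp h1.symm with h | h
    · exact absurd h hMc
    · exact h
  rw [← toP_eval] at hua hva
  obtain ⟨U, hU⟩ := dvd_iff_isRoot.mpr hua
  obtain ⟨V, hV⟩ := dvd_iff_isRoot.mpr hva
  obtain ⟨l, hl, hla⟩ : ∃ l ∈ K, l ≠ a := by
    by_contra hcon
    push Not at hcon
    exact hinf ((Set.finite_singleton a).subset (fun x hx => hcon x hx))
  obtain ⟨u', hu'⟩ : ∃ u' : Fin (m + 1) → ℂ, toP u' = (X - C l) * U :=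
    ⟨_, toP_vec (deg_div hU (toP_degree u))⟩
  obtain ⟨v', hv'⟩ : ∃ v' : Fin (m + 1) → ℂ, toP v' = (X - C l) * V :=
    ⟨_, toP_vec (deg_div hV (toP_degree v))⟩
  have hU0 : U ≠ 0 := by
    rintro rfl
    rw [mul_zero] at hU
    exact toP_ne hu hU
  have hu'0 : u' ≠ 0 := by
    rintro rfl
    have h2 : toP (0 : Fin (m + 1) → ℂ) = 0 := by simp [toP]
    rw [h2] at hu'
    exact mul_ne_zero (X_sub_C_ne_zero l) hU0 hu'.symm
  have h2 := DZ_move hr0 hr1 hf hz ‖fc f D.T‖ (hr l hl) hU hV hu' hv'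
  rw [h0, mul_zero] at h2
  have hz' : ∀ k, Function.update (fun _ : Fin (m + 1) => a) 0 l k ∈ K :=
    update_mem (fun _ => ha) 0 hl
  obtain ⟨D'⟩ := exists_model hr0 hr1 (Function.update (fun _ : Fin (m + 1) => a) 0 l) (fun k => hr _ (hz' k))
  have h3 := D'.le_of_DZ hr0 hr1 hf (fun k => hr _ (hz' k)) hu'0 h2
  rcases dichotomy hr0 hr1 hf hKr hconv hKcl hz' D' (fun z'' hz'' D'' => (hdom z'' hz'' D'').trans h3) with h | ⟨b, _, hb⟩
  · exact hnot h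
  · -- `m ≥ 1`
    have hm : 0 < m := by
      rcases Nat.eq_zero_or_pos m with h | h
      · exfalso
        subst h
        have h4 := toP_natDegree u
        have h5 : (toP u).natDegree = 1 + U.natDegree := by
          rw [hU, natDegree_mul (X_sub_C_ne_zero a) hU0, natDegree_X_sub_C]
        omega
      · exact h
    have e0 := hb 0
    have e1 := hb ⟨1, by omega⟩
    rw [Function.update_self] at e0
    rw [Function.update_of_ne (by intro h; have := congrArg Fin.val h; simp at this)] at e1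
    exact hla (e0.trans e1.symm)

/-- the vectors at which the model operator attains its norm are multiples of one vector -/
lemma max_unique {K : Set ℂ} (hKr : K ⊆ closedBall 0 r) (hconv : Convex ℝ (kl '' K)) (hKcl : IsClosed K)
    (hinf : K.Infinite) (hnot : ¬ IsScaledBlaschke (m + 1) f) {a : ℂ} (ha : a ∈ K)
    (D : Model r (fun _ : Fin (m + 1) => a))
    (hdom : ∀ z' : Fin (m + 1) → ℂ, (∀ k, z' k ∈ K) → ∀ D' : Model r z', ‖fc f D'.T‖ ≤ ‖fc f D.T‖) :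
    ∃ u : Fin (m + 1) → ℂ, pol u a ≠ 0 ∧ ‖D.Ψ (toP u)‖ = 1 ∧
      ∀ w, ‖fc f D.T w‖ = ‖fc f D.T‖ * ‖w‖ → ∃ c : ℂ, w = c • D.Ψ (toP u) := by
  have hr : ∀ w ∈ K, ‖w‖ ≤ r := fun w hw => mem_closedBall_zero_iff.mp (hKr hw)
  have hz : ∀ k : Fin (m + 1), ‖(fun _ : Fin (m + 1) => a) k‖ ≤ r := fun _ => hr a ha
  have hM := M_pos hr0 hr1 hf hKr hinf hdom hnot
  obtain ⟨A, hA⟩ : ∃ A, A = fc f D.T := ⟨_, rfl⟩
  -- coefficient vectors of maximal vectors do not vanish at `a`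
  have key : ∀ u : Fin (m + 1) → ℂ, u ≠ 0 → ‖A (D.Ψ (toP u))‖ = ‖A‖ * ‖D.Ψ (toP u)‖ → pol u a ≠ 0 := by
    intro u hu hmax
    obtain ⟨v, hv⟩ := D.hs (((‖A‖⁻¹ : ℝ) : ℂ) • A (D.Ψ (toP u)))
    have hA0 : 0 < ‖A‖ := by rw [hA]; exact hM
    apply root_ne hr0 hr1 hf hKr hconv hKcl hinf hnot ha D hdom hu (v := v)
    rw [D.DZ_eq hr0 hr1 hf hz, hv, ← hA, norm_smul, norm_real, Real.norm_eq_abs, hmax,
      inner_smul_left, Complex.conj_ofReal, re_ofReal_mul, inner_self_eq_norm_sq_to_K]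
    have h4 : ((RCLike.ofReal ‖A (D.Ψ (toP u))‖ : ℂ) ^ 2).re = ‖A (D.Ψ (toP u))‖ ^ 2 := by
      have h3 : (((‖A (D.Ψ (toP u))‖ : ℂ)) ^ 2).re = ‖A (D.Ψ (toP u))‖ ^ 2 := by
        rw [← Complex.ofReal_pow, Complex.ofReal_re]
      exact h3
    rw [h4, hmax, abs_of_nonneg (inv_nonneg.mpr (norm_nonneg A))]
    field_simp
    ring
  obtain ⟨w₀, hw1, hw2⟩ := exists_unit_norm A
  obtain ⟨u₀, hu₀⟩ := D.hs w₀
  have hu₀0 : u₀ ≠ 0 := by
    rintro rfl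
    have : toP (0 : Fin (m + 1) → ℂ) = 0 := by simp [toP]
    rw [this, map_zero] at hu₀
    rw [← hu₀, norm_zero] at hw1
    norm_num at hw1
  have hmax₀ : ‖A (D.Ψ (toP u₀))‖ = ‖A‖ * ‖D.Ψ (toP u₀)‖ := by
    rw [hu₀, hw1, mul_one, hw2]
  have hp₀ := key u₀ hu₀0 hmax₀
  refine ⟨u₀, hp₀, by rw [hu₀, hw1], ?_⟩
  intro w hw
  rw [← hA] at hw
  obtain ⟨u, hu⟩ := D.hs w
  obtain ⟨c, hc⟩ : ∃ c : ℂ, c = pol u a / pol u₀ a := ⟨_, rfl⟩
  refine ⟨c, ?_⟩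
  have h1 : ‖A (c • D.Ψ (toP u₀))‖ = ‖A‖ * ‖c • D.Ψ (toP u₀)‖ := by
    rw [map_smul, norm_smul, norm_smul, hmax₀]
    ring
  have h2 := max_add A hw h1
  have h3 : toP (u - c • u₀) = toP u - C c * toP u₀ := by
    unfold toP
    rw [Finset.mul_sum, ← Finset.sum_sub_distrib]
    apply Finset.sum_congr rfl
    intro j _
    simp only [Pi.sub_apply, Pi.smul_apply, smul_eq_mul, C_sub, C_mul]
    ring
  have h4 : D.Ψ (toP (u - c • u₀)) = w - c • D.Ψ (toP u₀) := by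
    rw [h3, map_sub, hu, ← smul_eq_C_mul, map_smul]
  have h5 : u - c • u₀ = 0 := by
    by_contra hne
    apply key (u - c • u₀) hne (by rw [h4]; exact h2)
    rw [← toP_eval, h3, eval_sub, eval_mul, eval_C, toP_eval, toP_eval, hc, div_mul_cancel₀ _ hp₀, sub_self]
  rw [h5] at h4
  have h6 : toP (0 : Fin (m + 1) → ℂ) = 0 := by simp [toP]
  rw [h6, map_zero] at h4
  exact (sub_eq_zero.mp h4.symm)

/-- uniqueness of the maximising operator for one point of the circle -/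
theorem op_unique {K : Set ℂ} (hKr : K ⊆ closedBall 0 r) (hconv : Convex ℝ (kl '' K)) (hKcl : IsClosed K)
    (hinf : K.Infinite) (hnot : ¬ IsScaledBlaschke (m + 1) f) {a : ℂ} (ha : a ∈ K)
    (D : Model r (fun _ : Fin (m + 1) => a))
    (hdom : ∀ z' : Fin (m + 1) → ℂ, (∀ k, z' k ∈ K) → ∀ D' : Model r z', ‖fc f D'.T‖ ≤ ‖fc f D.T‖)
    (T : EuclideanSpace ℂ (Fin (m + 1)) →L[ℂ] EuclideanSpace ℂ (Fin (m + 1))) (hT : ‖T‖ ≤ 1)
    (hp : aeval T (PZ (fun _ : Fin (m + 1) => a)) = 0) (hTn : ‖fc f T‖ = ‖fc f D.T‖) :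
    ∃ U : EuclideanSpace ℂ (Fin (m + 1)) ≃ₗᵢ[ℂ] EuclideanSpace ℂ (Fin (m + 1)), ∀ y, U (D.T y) = T (U y) := by
  have hr : ∀ w ∈ K, ‖w‖ ≤ r := fun w hw => mem_closedBall_zero_iff.mp (hKr hw)
  have hz : ∀ k : Fin (m + 1), ‖(fun _ : Fin (m + 1) => a) k‖ ≤ r := fun _ => hr a ha
  obtain ⟨u, hu1, hu2, hu3⟩ := max_unique hr0 hr1 hf hKr hconv hKcl hinf hnot ha D hdom
  obtain ⟨w₀, hw₀⟩ : ∃ w₀, w₀ = D.Ψ (toP u) := ⟨_, rfl⟩
  rw [← hw₀] at hu2 hu3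
  obtain ⟨J, hJ1, hJ2⟩ := D.exists_J hr0 hr1 hz T hT hp
  have hJF : ∀ (F : ℂ[X]) i x, J i ((aeval T F) x) = (aeval D.T F) (J i x) := by
    intro F i x
    exact (intertwine D.T T (J i) (fun x => (hJ1 i x).symm) F x).symm
  have hI := ip_spec hf (fun _ : Fin (m + 1) => a) (fun k => (hz k).trans_lt hr1)
  have hfcT := fc_eq hr0 hr1 hf hI T hT (PZ_root_le hz) hp
  have hfcD := fc_eq hr0 hr1 hf hI D.T D.hT (PZ_root_le hz) D.hp
  obtain ⟨x, hx1, hx2⟩ := exists_unit_norm (fc f T)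
  -- each component is a maximal vector
  have hcomp : ∀ i, ‖fc f D.T (J i x)‖ = ‖fc f D.T‖ * ‖J i x‖ := by
    have h1 : ∑ i, ‖fc f D.T (J i x)‖ ^ 2 = ‖fc f D.T‖ ^ 2 := by
      have h2 := hJ2 (fc f T x)
      rw [hx2, hTn] at h2
      rw [← h2]
      apply Finset.sum_congr rfl
      intro i _
      rw [hfcT, hJF, ← hfcD]
    have h2 : ∑ i, (‖fc f D.T‖ * ‖J i x‖) ^ 2 = ‖fc f D.T‖ ^ 2 := by
      simp only [mul_pow]
      rw [← Finset.mul_sum, hJ2, hx1]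
      ring
    have h3 : ∀ i ∈ (Finset.univ : Finset (Fin (m + 1))), ‖fc f D.T (J i x)‖ ^ 2 ≤ (‖fc f D.T‖ * ‖J i x‖) ^ 2 := fun i _ =>
      pow_le_pow_left₀ (norm_nonneg _) ((fc f D.T).le_opNorm _) 2
    have h4 := (Finset.sum_eq_sum_iff_of_le h3).mp (h1.trans h2.symm)
    intro i
    exact (pow_left_inj₀ (norm_nonneg _) (by positivity) (by norm_num)).mp (h4 i (Finset.mem_univ i))
  choose c hc using fun i => hu3 (J i x) (hcomp i)
  have hcs : ∑ i, ‖c i‖ ^ 2 = 1 := by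
    have h1 := hJ2 x
    rw [hx1] at h1
    rw [one_pow] at h1
    rw [← h1]
    apply Finset.sum_congr rfl
    intro i _
    rw [hc i, norm_smul, hu2, mul_one]
  -- comparison of the cyclic maps
  have hiso : ∀ G : ℂ[X], ‖(aeval T G) x‖ = ‖(aeval D.T G) w₀‖ := by
    intro G
    have h1 : ‖(aeval T G) x‖ ^ 2 = ‖(aeval D.T G) w₀‖ ^ 2 := by
      rw [← hJ2]
      have h2 : ∀ i ∈ (Finset.univ : Finset (Fin (m + 1))), ‖J i ((aeval T G) x)‖ ^ 2 = ‖c i‖ ^ 2 * ‖(aeval D.T G) w₀‖ ^ 2 := by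
        intro i _
        rw [hJF, hc i, map_smul, norm_smul, mul_pow]
      rw [Finset.sum_congr rfl h2, ← Finset.sum_mul, hcs, one_mul]
    exact (pow_left_inj₀ (norm_nonneg _) (norm_nonneg _) (by norm_num)).mp h1
  obtain ⟨φ, hφ⟩ : ∃ φ : ℂ[X] →ₗ[ℂ] EuclideanSpace ℂ (Fin (m + 1)), ∀ G, φ G = (aeval D.T G) w₀ :=
    ⟨(ContinuousLinearMap.coeLM ℂ).flip w₀ ∘ₗ (aeval D.T).toLinearMap, fun G => rfl⟩
  obtain ⟨ψ, hψ⟩ : ∃ ψ : ℂ[X] →ₗ[ℂ] EuclideanSpace ℂ (Fin (m + 1)), ∀ G, ψ G = (aeval T G) x :=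
    ⟨(ContinuousLinearMap.coeLM ℂ).flip x ∘ₗ (aeval T).toLinearMap, fun G => rfl⟩
  have hsurj : LinearMap.range φ = ⊤ := by
    rw [LinearMap.range_eq_top]
    intro y
    obtain ⟨P, hP⟩ := D.hs y
    have hcop : IsCoprime (toP u) (PZ (fun _ : Fin (m + 1) => a)) := by
      rw [Polynomial.isCoprime_iff_aeval_ne_zero_of_isAlgClosed ℂ ℂ]
      intro μ
      by_cases hμ : (PZ (fun _ : Fin (m + 1) => a)).eval μ = 0
      · left
        obtain ⟨j, rfl⟩ := PZ_root_iff _ μ hμ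
        rw [Polynomial.coe_aeval_eq_eval, toP_eval]
        exact hu1
      · right
        rw [Polynomial.coe_aeval_eq_eval]; exact hμ
    obtain ⟨α, β, hαβ⟩ := hcop
    refine ⟨toP P * α, ?_⟩
    rw [hφ, hw₀, D.hΨ]
    have h1 : toP P * α * toP u = toP P - (PZ (fun _ : Fin (m + 1) => a)) * (toP P * β) := by
      linear_combination (toP P) * hαβ
    have h2 : D.Ψ ((PZ (fun _ : Fin (m + 1) => a)) * (toP P * β)) = 0 := by
      rw [← D.hΨ, D.hp]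
      rfl
    rw [h1, map_sub, h2, sub_zero, hP]
  obtain ⟨g, hg⟩ := LinearMap.exists_rightInverse_of_surjective φ hsurj
  have hg' : ∀ y, φ (g y) = y := fun y => congrArg (fun A : _ →ₗ[ℂ] _ => A y) hg
  have hnorm : ∀ G, ‖ψ G‖ = ‖φ G‖ := fun G => by rw [hψ, hφ, hiso]
  have hfac : ∀ G, ψ (g (φ G)) = ψ G := by
    intro G
    have h1 : ‖ψ (g (φ G) - G)‖ = 0 := by
      rw [hnorm, map_sub, hg', sub_self, norm_zero]
    rw [map_sub, norm_eq_zero, sub_eq_zero] at h1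
    exact h1
  obtain ⟨V, hV⟩ : ∃ V : EuclideanSpace ℂ (Fin (m + 1)) →ₗᵢ[ℂ] EuclideanSpace ℂ (Fin (m + 1)), ∀ y, V y = ψ (g y) :=
    ⟨⟨ψ ∘ₗ g, fun y => by
      show ‖ψ (g y)‖ = ‖y‖
      rw [hnorm, hg']⟩, fun y => rfl⟩
  refine ⟨V.toLinearIsometryEquiv rfl, ?_⟩
  intro y
  show V (D.T y) = T (V y)
  have h1 : D.T y = φ (X * g y) := by
    rw [hφ, map_mul, aeval_X]
    show D.T y = D.T ((aeval D.T (g y)) w₀)
    rw [← hφ, hg']
  rw [hV, hV, h1, hfac, hψ, map_mul, aeval_X, hψ]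
  rfl

end

end Pool.Agent.KS6_83.PT
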