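import Pool.Agent.KS6_83.PT.I

set_option autoImplicit false
open Complex Metric Set Polynomial Filter Topology
open scoped ComplexConjugate

namespace Pool.Agent.KS6_83.PT

open Pool.Agent.Helper654.Ptak hiding lp

/-- an operator whose spectrum lies in `|z| ≤ r` is annihilated by a polynomial with roots there -/
lemma exists_PZ_of_spectrum {n : ℕ} {r : ℝ} (T : EuclideanSpace ℂ (Fin n) →L[ℂ] EuclideanSpace ℂ (Fin n))
    (hT : ∀ μ ∈ spectrum ℂ T, ‖μ‖ ≤ r) : ∃ z : Fin n → ℂ, (∀ j, ‖z j‖ ≤ r) ∧ aeval T (PZ z) = 0 := by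
  set f : EuclideanSpace ℂ (Fin n) →ₗ[ℂ] EuclideanSpace ℂ (Fin n) := (T : EuclideanSpace ℂ (Fin n) →ₗ[ℂ] EuclideanSpace ℂ (Fin n)) with hf
  have h2 : aeval T f.charpoly = 0 := by
    have h3 := aeval_coe T f.charpoly
    rw [← hf, LinearMap.aeval_self_charpoly] at h3
    ext1 x
    exact congrArg (fun g : EuclideanSpace ℂ (Fin n) →ₗ[ℂ] EuclideanSpace ℂ (Fin n) => g x) h3
  apply exists_roots T f.charpoly _ h2
  intro μ hμ
  apply hT
  have h3 : Module.End.HasEigenvalue f μ := (Module.End.hasEigenvalue_iff_isRoot_charpoly f μ).mpr hμ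
  obtain ⟨w, hw⟩ := h3.exists_hasEigenvector
  rw [spectrum.mem_iff]
  rintro ⟨S, hS⟩
  have h4 : T w = μ • w := hw.apply_eq_smul
  have h5 : (algebraMap ℂ (EuclideanSpace ℂ (Fin n) →L[ℂ] EuclideanSpace ℂ (Fin n)) μ - T) w = 0 := by
    rw [Algebra.algebraMap_eq_smul_one, sub_apply, smul_apply, one_apply_eq_self, h4, sub_self]
  have h6 : (↑S⁻¹ * (↑S : EuclideanSpace ℂ (Fin n) →L[ℂ] EuclideanSpace ℂ (Fin n))) w = w := by
    rw [Units.inv_mul]; rfl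
  rw [mul_apply_eq_comp, hS, h5, map_zero] at h6
  exact hw.2 h6.symm

lemma spectrum_of_annih {n : ℕ} {a : ℂ} (T : EuclideanSpace ℂ (Fin n) →L[ℂ] EuclideanSpace ℂ (Fin n)) {k : ℕ}
    (hT : aeval T ((X - C a) ^ k) = 0) : ∀ μ ∈ spectrum ℂ T, μ = a := by
  intro μ hμ
  by_contra hne
  rw [spectrum.mem_iff] at hμ
  apply hμ
  have hcop : IsCoprime (C μ - X : ℂ[X]) ((X - C a) ^ k) := by
    rw [Polynomial.isCoprime_iff_aeval_ne_zero_of_isAlgClosed ℂ ℂ]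
    intro ν
    by_cases hν : ν = μ
    · right
      rw [Polynomial.coe_aeval_eq_eval, eval_pow, eval_sub, eval_X, eval_C, hν]
      exact pow_ne_zero _ (sub_ne_zero.mpr hne)
    · left
      rw [Polynomial.coe_aeval_eq_eval, eval_sub, eval_X, eval_C]
      exact sub_ne_zero.mpr (Ne.symm hν)
  obtain ⟨α, β, h⟩ := hcop
  have h1 : aeval T (α * (C μ - X)) = 1 := by
    have h2 := congrArg (aeval T) h
    rw [map_add, map_mul (aeval T) β, hT, mul_zero, add_zero, map_one] at h2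
    exact h2
  have h3 : aeval T (C μ - X) = algebraMap ℂ (EuclideanSpace ℂ (Fin n) →L[ℂ] EuclideanSpace ℂ (Fin n)) μ - T := by
    rw [map_sub, aeval_C, aeval_X]
  have h4 : aeval T ((C μ - X) * α) = 1 := by rw [mul_comm]; exact h1
  rw [map_mul, h3] at h1 h4
  exact ⟨⟨_, _, h4, h1⟩, rfl⟩

section
variable {m : ℕ} {r : ℝ} (hr0 : 0 < r) (hr1 : r < 1) {f : ℂ → ℂ} (hf : DifferentiableOn ℂ f (ball 0 1))

lemma equiv_annih {S T : EuclideanSpace ℂ (Fin (m + 1)) →L[ℂ] EuclideanSpace ℂ (Fin (m + 1))}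
    (U : EuclideanSpace ℂ (Fin (m + 1)) ≃ₗᵢ[ℂ] EuclideanSpace ℂ (Fin (m + 1))) (hU : ∀ y, U (S y) = T (U y))
    (F : ℂ[X]) (y : EuclideanSpace ℂ (Fin (m + 1))) : (aeval T F) (U y) = U ((aeval S F) y) :=
  intertwine T S U.toLinearEquiv.toLinearMap (fun x => (hU x).symm) F y

lemma equiv_norm {S T : EuclideanSpace ℂ (Fin (m + 1)) →L[ℂ] EuclideanSpace ℂ (Fin (m + 1))}
    (U : EuclideanSpace ℂ (Fin (m + 1)) ≃ₗᵢ[ℂ] EuclideanSpace ℂ (Fin (m + 1))) (hU : ∀ y, U (S y) = T (U y))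
    (F : ℂ[X]) : ‖aeval T F‖ = ‖aeval S F‖ := by
  have h := equiv_annih U hU F
  apply le_antisymm
  · apply ContinuousLinearMap.opNorm_le_bound _ (norm_nonneg _)
    intro x
    obtain ⟨y, rfl⟩ := U.surjective x
    rw [h, LinearIsometryEquiv.norm_map, LinearIsometryEquiv.norm_map]
    exact (aeval S F).le_opNorm y
  · apply ContinuousLinearMap.opNorm_le_bound _ (norm_nonneg _)
    intro y
    rw [← LinearIsometryEquiv.norm_map U, ← h, ← LinearIsometryEquiv.norm_map U y]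
    exact (aeval T F).le_opNorm _

include hr0 hr1 hf

lemma equiv_fc {a : ℂ} (ha : ‖a‖ ≤ r) {S T : EuclideanSpace ℂ (Fin (m + 1)) →L[ℂ] EuclideanSpace ℂ (Fin (m + 1))}
    (hS : ‖S‖ ≤ 1) (hSa : aeval S ((X - C a) ^ (m + 1)) = 0)
    (U : EuclideanSpace ℂ (Fin (m + 1)) ≃ₗᵢ[ℂ] EuclideanSpace ℂ (Fin (m + 1))) (hU : ∀ y, U (S y) = T (U y)) :
    ‖T‖ ≤ 1 ∧ aeval T ((X - C a) ^ (m + 1)) = 0 ∧ ‖fc f T‖ = ‖fc f S‖ := by
  have h1 : ‖T‖ ≤ 1 := by
    have := equiv_norm U hU X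
    rw [aeval_X, aeval_X] at this
    rw [this]; exact hS
  have h2 : aeval T ((X - C a) ^ (m + 1)) = 0 := by
    have := equiv_norm U hU ((X - C a) ^ (m + 1))
    rw [hSa, norm_zero] at this
    exact norm_eq_zero.mp this
  refine ⟨h1, h2, ?_⟩
  have hI := ip_spec hf (fun _ : Fin (m + 1) => a) (fun _ => ha.trans_lt hr1)
  rw [fc_eq hr0 hr1 hf hI T h1 (PZ_root_le (fun _ => ha)) (by rw [PZ_const]; exact h2),
    fc_eq hr0 hr1 hf hI S hS (PZ_root_le (fun _ => ha)) (by rw [PZ_const]; exact hSa), equiv_norm U hU]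

/-- all maximising operators -/
theorem ops_unique (hnot : ¬ IsScaledBlaschke (m + 1) f) {M : ℝ}
    (hdom : ∀ z' : Fin (m + 1) → ℂ, (∀ k, ‖z' k‖ ≤ r) → ∀ D' : Model r z', ‖fc f D'.T‖ ≤ M)
    (T : EuclideanSpace ℂ (Fin (m + 1)) →L[ℂ] EuclideanSpace ℂ (Fin (m + 1))) (hT : ‖T‖ ≤ 1)
    (hsp : ∀ μ ∈ spectrum ℂ T, ‖μ‖ ≤ r) (hTn : ‖fc f T‖ = M) :
    ∃ a : ℂ, ‖a‖ = r ∧ ‖fc f (Uop (m + 1) a)‖ = M ∧
      ∃ U : EuclideanSpace ℂ (Fin (m + 1)) ≃ₗᵢ[ℂ] EuclideanSpace ℂ (Fin (m + 1)),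
        ∀ y, U (Uop (m + 1) a y) = T (U y) := by
  obtain ⟨z, hz, hp⟩ := exists_PZ_of_spectrum T hsp
  obtain ⟨D⟩ := exists_model hr0 hr1 z hz
  have h1 := D.fc_dom hr0 hr1 hf hz T hT hp
  rw [hTn] at h1
  have h2 : ‖fc f D.T‖ = M := le_antisymm (hdom z hz D) h1
  have hconv := convex_kl_closedBall hr0 hr1
  have hzK : ∀ k, z k ∈ closedBall (0 : ℂ) r := fun k => mem_closedBall_zero_iff.mpr (hz k)
  rcases dichotomy hr0 hr1 hf (K := closedBall 0 r) (le_refl _) hconv isClosed_closedBall hzK D (by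
    intro z' hz' D'
    rw [h2]
    exact hdom z' (fun k => mem_closedBall_zero_iff.mp (hz' k)) D') with h | ⟨a, ha, hza⟩
  · exact absurd h hnot
  · rw [frontier_closedBall (0 : ℂ) hr0.ne', mem_sphere_zero_iff_norm] at ha
    have hz2 : z = fun _ => a := funext hza
    subst hz2
    have h3 := model_const hr0 hr1 hf ha.le D
    have hinf : (closedBall (0 : ℂ) r).Infinite :=
      infinite_of_mem_nhds (0 : ℂ) (closedBall_mem_nhds (0 : ℂ) hr0)
    have hun : ∀ S : EuclideanSpace ℂ (Fin (m + 1)) →L[ℂ] EuclideanSpace ℂ (Fin (m + 1)), ‖S‖ ≤ 1 →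
        aeval S (PZ (fun _ : Fin (m + 1) => a)) = 0 → ‖fc f S‖ = ‖fc f D.T‖ →
        ∃ U : EuclideanSpace ℂ (Fin (m + 1)) ≃ₗᵢ[ℂ] EuclideanSpace ℂ (Fin (m + 1)), ∀ y, U (D.T y) = S (U y) := by
      intro S hS1 hS2 hS3
      apply op_unique hr0 hr1 hf (K := closedBall 0 r) (le_refl _) hconv isClosed_closedBall hinf hnot
        (mem_closedBall_zero_iff.mpr ha.le) D _ S hS1 hS2 hS3
      intro z' hz' D'
      rw [h2]
      exact hdom z' (fun k => mem_closedBall_zero_iff.mp (hz' k)) D'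
    obtain ⟨U1, hU1⟩ := hun T hT hp (by rw [hTn, h2])
    obtain ⟨U2, hU2⟩ := hun (Uop (m + 1) a) (Uop_norm (m + 1) a (ha.le.trans hr1.le))
      (by rw [PZ_const]; exact Uop_annih (m + 1) a) h3.symm
    refine ⟨a, ha, by rw [← h3, h2], U2.symm.trans U1, ?_⟩
    intro y
    obtain ⟨x, rfl⟩ := U2.surjective y
    show U1 (U2.symm (Uop (m + 1) a (U2 x))) = T (U1 (U2.symm (U2 x)))
    rw [← hU2, LinearIsometryEquiv.symm_apply_apply, LinearIsometryEquiv.symm_apply_apply, hU1]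

end

end Pool.Agent.KS6_83.PT
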